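import Mathlib

set_option autoImplicit false
set_option linter.unusedSimpArgs false

namespace Pool.Agent.Results.MP_3d3eb4_co.NewPairs

open Finset

/-- Latin square: every row and every column contains every symbol exactly once. -/
def IsLatin {R C S : Type} (L : R → C → S) : Prop :=
  (∀ i, Function.Bijective (L i)) ∧ ∀ j, Function.Bijective fun i => L i j

/-- `P` is a `k`-plex of `L`: a set of cells with exactly `k` cells in every row, `k` cells in every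
column and `k` cells carrying each symbol. -/
def IsPlex {R C S : Type} [DecidableEq R] [DecidableEq C] [DecidableEq S]
    (L : R → C → S) (k : ℕ) (P : Finset (R × C)) : Prop :=
  (∀ i, (P.filter fun c => c.1 = i).card = k) ∧
  (∀ j, (P.filter fun c => c.2 = j).card = k) ∧
  ∀ s, (P.filter fun c => L c.1 c.2 = s).card = k

/-- an indivisible `k`-plex: it contains no `c`-plex with `0 < c < k`. -/
def IsIndivisible {R C S : Type} [DecidableEq R] [DecidableEq C] [DecidableEq S]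
    (L : R → C → S) (k : ℕ) (P : Finset (R × C)) : Prop :=
  IsPlex L k P ∧ ∀ c, 0 < c → c < k → ∀ Q, Q ⊆ P → ¬ IsPlex L c Q

/-- some Latin square of order `n` contains an indivisible `k`-plex. -/
def HasIndivisiblePlex (n k : ℕ) : Prop :=
  ∃ L : Fin n → Fin n → Fin n, IsLatin L ∧ ∃ P, IsIndivisible L k P

/-! ### zero-sum labels force indivisibility -/

theorem sum_label {A T : Type} [Fintype T] [DecidableEq T] (Q : Finset A) (f : A → T) {k c : ℕ}
    (w : T → ZMod k) (h : ∀ t, (Q.filter fun p => f p = t).card = c) :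
    ∑ p ∈ Q, w (f p) = (c : ZMod k) * ∑ t, w t := by
  rw [← Finset.sum_fiberwise Q f, Finset.mul_sum]
  refine Finset.sum_congr rfl fun t _ => ?_
  rw [Finset.sum_congr rfl (g := fun _ => w t)
    (fun p hp => by rw [(Finset.mem_filter.mp hp).2])]
  rw [Finset.sum_const, h t, nsmul_eq_mul]

theorem indivisible_of_label {R C S : Type} [Fintype R] [Fintype C] [Fintype S]
    [DecidableEq R] [DecidableEq C] [DecidableEq S] (L : R → C → S) (k : ℕ)
    (P : Finset (R × C)) (hP : IsPlex L k P) (a : R → ZMod k) (b : C → ZMod k) (s : S → ZMod k)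
    (hz : ∀ p ∈ P, a p.1 + b p.2 + s (L p.1 p.2) = 0)
    (hW : IsUnit (∑ i, a i + ∑ j, b j + ∑ x, s x)) : IsIndivisible L k P := by
  refine ⟨hP, fun c hc hck Q hQ hQp => ?_⟩
  have h1 := sum_label Q (fun p : R × C => p.1) a hQp.1
  have h2 := sum_label Q (fun p : R × C => p.2) b hQp.2.1
  have h3 := sum_label Q (fun p : R × C => L p.1 p.2) s hQp.2.2
  have h4 : ∑ p ∈ Q, (a p.1 + b p.2 + s (L p.1 p.2)) = 0 :=
    Finset.sum_eq_zero fun p hp => hz p (hQ hp)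
  rw [Finset.sum_add_distrib, Finset.sum_add_distrib, h1, h2, h3, ← mul_add, ← mul_add] at h4
  have h5 : (c : ZMod k) = 0 := (hW.mul_left_eq_zero).mp h4
  have h6 := (ZMod.natCast_eq_zero_iff c k).mp h5
  exact absurd (Nat.le_of_dvd hc h6) (by omega)

theorem transport {R C S : Type} [Fintype R] [Fintype C] [Fintype S]
    [DecidableEq R] [DecidableEq C] [DecidableEq S] (n : ℕ)
    (eR : R ≃ Fin n) (eC : C ≃ Fin n) (eS : S ≃ Fin n)
    (L : R → C → S) (hL : IsLatin L) (k : ℕ)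
    (P : Finset (R × C)) (hP : IsPlex L k P) (a : R → ZMod k) (b : C → ZMod k) (s : S → ZMod k)
    (hz : ∀ p ∈ P, a p.1 + b p.2 + s (L p.1 p.2) = 0)
    (hW : IsUnit (∑ i, a i + ∑ j, b j + ∑ x, s x)) :
    ∃ L' : Fin n → Fin n → Fin n, IsLatin L' ∧ ∃ P', IsIndivisible L' k P' := by
  refine ⟨fun i j => eS (L (eR.symm i) (eC.symm j)), ⟨fun i => ?_, fun j => ?_⟩,
    P.map (eR.prodCongr eC).toEmbedding, ?_⟩
  · exact (eS.bijective.comp (hL.1 (eR.symm i))).comp eC.symm.bijective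
  · exact (eS.bijective.comp (hL.2 (eC.symm j))).comp eR.symm.bijective
  · refine indivisible_of_label _ k _ ⟨fun i => ?_, fun j => ?_, fun t => ?_⟩
      (fun i => a (eR.symm i)) (fun j => b (eC.symm j)) (fun x => s (eS.symm x)) ?_ ?_
    · rw [Finset.filter_map, Finset.card_map, ← hP.1 (eR.symm i)]
      congr 1
      ext p
      simp [Equiv.eq_symm_apply]
    · rw [Finset.filter_map, Finset.card_map, ← hP.2.1 (eC.symm j)]
      congr 1
      ext p
      simp [Equiv.eq_symm_apply]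
    · rw [Finset.filter_map, Finset.card_map, ← hP.2.2 (eS.symm t)]
      congr 1
      ext p
      simp [Equiv.eq_symm_apply]
    · intro p hp
      obtain ⟨q, hq, rfl⟩ := Finset.mem_map.mp hp
      simpa using hz q hq
    · rw [Equiv.sum_comp eR.symm a, Equiv.sum_comp eC.symm b, Equiv.sum_comp eS.symm s]
      exact hW


/-! ### the labels of the fine structure -/

theorem mul_cast_of_modEq {M g a b : ℕ} (h : a ≡ b [MOD g]) :
    ((M : ℕ) : ZMod (M * g)) * (a : ZMod (M * g)) = ((M : ℕ) : ZMod (M * g)) * (b : ZMod (M * g)) := by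
  have := (ZMod.natCast_eq_natCast_iff (M * a) (M * b) (M * g)).2 (h.mul_left' M)
  push_cast at this
  exact this

noncomputable def phi (M g : ℕ) [NeZero g] : ZMod g →+ ZMod (M * g) :=
  AddMonoidHom.mk' (fun x => ((M : ℕ) : ZMod (M * g)) * ((x.val : ℕ) : ZMod (M * g))) (fun x y => by
    rw [← mul_add, ← Nat.cast_add]
    exact mul_cast_of_modEq (by rw [ZMod.val_add]; exact Nat.mod_modEq _ _))

theorem phi_natCast (M g : ℕ) [NeZero g] (n : ℕ) :
    phi M g (n : ZMod g) = ((M : ℕ) : ZMod (M * g)) * (n : ZMod (M * g)) := by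
  change ((M : ℕ) : ZMod (M * g)) * (((n : ZMod g).val : ℕ) : ZMod (M * g)) = _
  exact mul_cast_of_modEq (by rw [ZMod.val_natCast]; exact Nat.mod_modEq _ _)

theorem phi_sum (M g : ℕ) [NeZero g] (hg : Odd g) : ∑ x : ZMod g, phi M g x = 0 := by
  rw [← map_sum]
  have h0 : ∑ x : ZMod g, x = 0 := by
    have h1 : ∑ x : ZMod g, x = - ∑ x : ZMod g, x := by
      rw [← Finset.sum_neg_distrib]
      rw [← Equiv.sum_comp (Equiv.neg (ZMod g))]
      exact Finset.sum_congr rfl fun x _ => by simp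
    have h2 : ((2 : ℕ) : ZMod g) * ∑ x : ZMod g, x = 0 := by
      push_cast
      rw [two_mul]
      nth_rewrite 1 [h1]
      simp
    have hu : IsUnit ((2 : ℕ) : ZMod g) := (ZMod.isUnit_iff_coprime 2 g).mpr (by
      rw [Nat.coprime_two_left]
      exact hg)
    exact (hu.mul_right_eq_zero).mp h2
  rw [h0, map_zero]

namespace F9_5

def L0 : Fin 9 → Fin 9 → Fin 9 :=
  ![![1, 8, 6, 5, 4, 7, 3, 2, 0], ![8, 0, 7, 6, 5, 4, 2, 1, 3], ![7, 6, 4, 8, 3, 2, 0, 5, 1], ![6, 7, 5, 4, 2, 3, 1, 0, 8], ![4, 5, 2, 7, 0, 1, 8, 3, 6], ![5, 4, 3, 2, 1, 0, 6, 8, 7], ![3, 2, 0, 1, 8, 5, 7, 6, 4], ![2, 3, 1, 0, 6, 8, 4, 7, 5], ![0, 1, 8, 3, 7, 6, 5, 4, 2]]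

def rl : Fin 9 → ℕ := ![0, 0, 1, 1, 2, 2, 3, 3, 4]

def sl : Fin 9 → ℕ := ![1, 1, 2, 2, 3, 3, 4, 4, 0]

def tau (I J : Fin 9) : ℕ := (rl I + rl J + sl (L0 I J)) / 5

def pf : Fin 9 → Fin 3 → Fin 3 :=
  ![![2, 1, 0], ![2, 0, 1], ![0, 2, 1], ![0, 2, 1], ![2, 0, 1], ![2, 0, 1], ![0, 2, 1], ![0, 2, 1], ![1, 2, 0]]

def exrow : Fin 3 → Fin 9 := ![4, 4, 5]

def patT : Fin 14 → Finset (Fin 9) :=
  ![{1, 4, 6, 7, 8}, {0, 2, 3, 4, 5}, {0, 1, 4, 5, 6}, {1, 3, 5, 6, 8}, {0, 1, 2, 4, 8}, {0, 2, 3, 4, 7}, {0, 2, 3, 6, 7}, {2, 3, 5, 7, 8}, {1, 5, 6, 7, 8}, {0, 1, 4, 5, 8}, {0, 2, 3, 7, 8}, {1, 2, 4, 5, 6}, {0, 2, 3, 4, 8}, {1, 2, 3, 7, 8}]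

def rowT (t : Fin 14) (J : Fin 9) : Fin 9 :=
  (![0, 1, 2, 3, 4, 5, 6, 7, 8, exrow (pf J 0), exrow (pf J 1), exrow (pf J 2), 3, 7] : Fin 14 → Fin 9) t

theorem L0_col : ∀ J I I' : Fin 9, L0 I J = L0 I' J → I = I' := by decide +kernel

theorem rowT_inj : ∀ (t : Fin 14) (J J' : Fin 9),
    L0 (rowT t J) J = L0 (rowT t J') J' → J = J' := by decide +kernel

theorem pf_inj : ∀ J : Fin 9, ∀ u v : Fin 3, pf J u = pf J v → u = v := by decide +kernel

theorem zero_coarse : ∀ (t : Fin 14) (J : Fin 9), J ∈ patT t →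
    rl (rowT t J) + rl J + sl (L0 (rowT t J) J) = 5 * tau (rowT t J) J := by decide +kernel

theorem patT_card : ∀ t : Fin 14, (patT t).card = 5 := by decide +kernel

theorem pf_ne0 : ∀ J : Fin 9, J ∈ patT 9 → pf J 0 ≠ 0 := by decide +kernel
theorem pf_ne1 : ∀ J : Fin 9, J ∈ patT 10 → pf J 1 ≠ 0 := by decide +kernel
theorem pf_ne2 : ∀ J : Fin 9, J ∈ patT 11 → pf J 2 ≠ 0 := by decide +kernel

def FJ (J : Fin 9) (t : Fin 14) : ℤ := if J ∈ patT t then 1 else 0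

def FS (S : Fin 9) (t : Fin 14) : ℤ :=
  ((Finset.univ.filter fun J : Fin 9 => J ∈ patT t ∧ L0 (rowT t J) J = S).card : ℤ)

theorem FJ_sum : ∀ J : Fin 9, (∑ I : Fin 9, FJ J (Fin.castLE (by norm_num) I)) = 5 ∧
    (FJ J 9 - FJ J 4) + (FJ J 10 - FJ J 4) + (FJ J 11 - FJ J 5) + (FJ J 12 - FJ J 3) + (FJ J 13 - FJ J 7) = 0 := by decide +kernel

theorem FS_sum : ∀ S : Fin 9, (∑ I : Fin 9, FS S (Fin.castLE (by norm_num) I)) = 5 ∧
    (FS S 9 - FS S 4) + (FS S 10 - FS S 4) + (FS S 11 - FS S 5) + (FS S 12 - FS S 3) + (FS S 13 - FS S 7) = 0 := by decide +kernel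

def ex (g : ℕ) : Fin 3 → Fin 9 × ZMod g := ![(4, 0), (4, 1), (5, 1)]

theorem ex_fst (g : ℕ) (u : Fin 3) : (ex g u).1 = exrow u := by
  fin_cases u <;> rfl

theorem ex_inj (g : ℕ) (h01 : (0 : ZMod g) ≠ 1) : Function.Injective (ex g) := by
  intro u v h
  have h10 : (1 : ZMod g) ≠ 0 := h01.symm
  fin_cases u <;> fin_cases v <;> simp [ex, Prod.ext_iff, h01, h10] at h ⊢

noncomputable def pi' (J : Fin 9) : Equiv.Perm (Fin 3) :=
  Equiv.ofBijective (pf J) (Finite.injective_iff_bijective.mp (fun u v h => pf_inj J u v h))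

noncomputable def src (g : ℕ) (hg : Function.Injective (ex g)) (J : Fin 9) :
    Equiv.Perm (Fin 9 × ZMod g) :=
  (pi' J).viaEmbedding ⟨ex g, hg⟩

theorem src_ex (g : ℕ) (hg : Function.Injective (ex g)) (J : Fin 9) (t : Fin 3) :
    src g hg J (ex g t) = ex g (pf J t) :=
  Equiv.Perm.viaEmbedding_apply (pi' J) ⟨ex g, hg⟩ t

theorem src_not (g : ℕ) (hg : Function.Injective (ex g)) (J : Fin 9) (ρ : Fin 9 × ZMod g)
    (h : ∀ t, ex g t ≠ ρ) : src g hg J ρ = ρ :=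
  Equiv.Perm.viaEmbedding_apply_of_notMem _ _ _ (by rintro ⟨t, ht⟩; exact h t ht)

def ty (g : ℕ) (ρ : Fin 9 × ZMod g) : Fin 14 :=
  if ρ = (4, 0) then 9 else if ρ = (4, 1) then 10 else if ρ = (5, 1) then 11 else if ρ = (3, 0) then 12 else if ρ = (7, 0) then 13 else Fin.castLE (by norm_num) ρ.1

theorem rowT_castLE : ∀ I J : Fin 9, rowT (Fin.castLE (by norm_num) I) J = I := by
  decide +kernel

theorem ty_ex0 (g : ℕ) : ty g (ex g 0) = 9 := by
  simp [ty, ex]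

theorem ty_ex1 (g : ℕ) (h01 : (0 : ZMod g) ≠ 1) : ty g (ex g 1) = 10 := by
  simp [ty, ex, h01.symm]

theorem ty_ex2 (g : ℕ) : ty g (ex g 2) = 11 := by
  simp [ty, ex]

theorem rowT_ty_not (g : ℕ) (ρ : Fin 9 × ZMod g) (h : ∀ t, ex g t ≠ ρ) (J : Fin 9) :
    rowT (ty g ρ) J = ρ.1 := by
  have h0 : ρ ≠ (4, 0) := fun h' => h 0 h'.symm
  have h1 : ρ ≠ (4, 1) := fun h' => h 1 h'.symm
  have h2 : ρ ≠ (5, 1) := fun h' => h 2 h'.symm
  unfold ty
  rw [if_neg h0, if_neg h1, if_neg h2]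
  by_cases m0 : ρ = (3, 0)
  · rw [if_pos m0, m0]; rfl
  rw [if_neg m0]
  by_cases m1 : ρ = (7, 0)
  · rw [if_pos m1, m1]; rfl
  rw [if_neg m1]
  exact rowT_castLE _ _

theorem src_row (g : ℕ) (h01 : (0 : ZMod g) ≠ 1) (hg : Function.Injective (ex g)) (J : Fin 9)
    (ρ : Fin 9 × ZMod g) : (src g hg J ρ).1 = rowT (ty g ρ) J := by
  by_cases h : ∃ t, ex g t = ρ
  · obtain ⟨t, rfl⟩ := h
    rw [src_ex, ex_fst]
    fin_cases t
    · change exrow (pf J 0) = rowT (ty g (ex g 0)) J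
      rw [ty_ex0]; rfl
    · change exrow (pf J 1) = rowT (ty g (ex g 1)) J
      rw [ty_ex1 g h01]; rfl
    · change exrow (pf J 2) = rowT (ty g (ex g 2)) J
      rw [ty_ex2]; rfl
  · push Not at h
    rw [src_not g hg J ρ h, rowT_ty_not g ρ h]

theorem sum_ty (g : ℕ) [NeZero g] (h01 : (0 : ZMod g) ≠ 1) (F : Fin 14 → ℤ) :
    ∑ ρ : Fin 9 × ZMod g, F (ty g ρ) =
      g * ∑ I : Fin 9, F (Fin.castLE (by norm_num) I) +
      ((F 9 - F 4) + (F 10 - F 4) + (F 11 - F 5) + (F 12 - F 3) + (F 13 - F 7)) := by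
  have h10 : (1 : ZMod g) ≠ 0 := h01.symm
  have key : ∀ ρ : Fin 9 × ZMod g, F (ty g ρ) = F (Fin.castLE (by norm_num) ρ.1)
      + (if ρ = (4, 0) then F 9 - F 4 else 0) + (if ρ = (4, 1) then F 10 - F 4 else 0) + (if ρ = (5, 1) then F 11 - F 5 else 0) + (if ρ = (3, 0) then F 12 - F 3 else 0) + (if ρ = (7, 0) then F 13 - F 7 else 0) := by
    intro ρ
    have c3 : (Fin.castLE (by norm_num) (3 : Fin 9) : Fin 14) = 3 := rfl
    have c4 : (Fin.castLE (by norm_num) (4 : Fin 9) : Fin 14) = 4 := rfl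
    have c5 : (Fin.castLE (by norm_num) (5 : Fin 9) : Fin 14) = 5 := rfl
    have c7 : (Fin.castLE (by norm_num) (7 : Fin 9) : Fin 14) = 7 := rfl
    have n0_1 : ((4 : Fin 9), (0 : ZMod g)) ≠ (4, 1) := by simp [h01, h10]
    have n0_2 : ((4 : Fin 9), (0 : ZMod g)) ≠ (5, 1) := by simp [h01, h10]
    have n0_3 : ((4 : Fin 9), (0 : ZMod g)) ≠ (3, 0) := by simp [h01, h10]
    have n0_4 : ((4 : Fin 9), (0 : ZMod g)) ≠ (7, 0) := by simp [h01, h10]
    have n1_2 : ((4 : Fin 9), (1 : ZMod g)) ≠ (5, 1) := by simp [h01, h10]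
    have n1_3 : ((4 : Fin 9), (1 : ZMod g)) ≠ (3, 0) := by simp [h01, h10]
    have n1_4 : ((4 : Fin 9), (1 : ZMod g)) ≠ (7, 0) := by simp [h01, h10]
    have n2_3 : ((5 : Fin 9), (1 : ZMod g)) ≠ (3, 0) := by simp [h01, h10]
    have n2_4 : ((5 : Fin 9), (1 : ZMod g)) ≠ (7, 0) := by simp [h01, h10]
    have n3_4 : ((3 : Fin 9), (0 : ZMod g)) ≠ (7, 0) := by simp [h01, h10]
    unfold ty
    by_cases q0 : ρ = (4, 0)
    · rw [q0, if_pos rfl, if_pos rfl, if_neg n0_1, if_neg n0_2, if_neg n0_3, if_neg n0_4, c4]; ring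
    rw [if_neg q0, if_neg q0]
    by_cases q1 : ρ = (4, 1)
    · rw [q1, if_pos rfl, if_pos rfl, if_neg n1_2, if_neg n1_3, if_neg n1_4, c4]; ring
    rw [if_neg q1, if_neg q1]
    by_cases q2 : ρ = (5, 1)
    · rw [q2, if_pos rfl, if_pos rfl, if_neg n2_3, if_neg n2_4, c5]; ring
    rw [if_neg q2, if_neg q2]
    by_cases q3 : ρ = (3, 0)
    · rw [q3, if_pos rfl, if_pos rfl, if_neg n3_4, c3]; ring
    rw [if_neg q3, if_neg q3]
    by_cases q4 : ρ = (7, 0)
    · rw [q4, if_pos rfl, if_pos rfl, c7]; ring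
    rw [if_neg q4, if_neg q4]
    ring
  rw [Finset.sum_congr rfl (fun ρ _ => key ρ)]
  simp only [Finset.sum_add_distrib, Finset.sum_ite_eq', Finset.mem_univ, if_true]
  rw [Fintype.sum_prod_type]
  simp only [Finset.sum_const, Finset.card_univ, ZMod.card, nsmul_eq_mul, ← Finset.mul_sum]
  ring

noncomputable def LL (g : ℕ) (hg : Function.Injective (ex g)) (ρ c : Fin 9 × ZMod g) :
    Fin 9 × ZMod g :=
  (L0 (src g hg c.1 ρ).1 c.1,
    -(src g hg c.1 ρ).2 - c.2 - ((tau (src g hg c.1 ρ).1 c.1 : ℕ) : ZMod g))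

theorem LL_latin (g : ℕ) [NeZero g] (h01 : (0 : ZMod g) ≠ 1) (hg : Function.Injective (ex g)) :
    IsLatin (LL g hg) := by
  refine ⟨fun ρ => Finite.injective_iff_bijective.mp ?_,
    fun c => Finite.injective_iff_bijective.mp ?_⟩
  · rintro ⟨J, j⟩ ⟨J', j'⟩ h
    have e1 := congrArg Prod.fst h
    have e2 := congrArg Prod.snd h
    simp only [LL] at e1 e2
    rw [src_row g h01, src_row g h01] at e1
    have hJ := rowT_inj _ _ _ e1
    subst hJ
    have : j = j' := by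
      have e3 := sub_left_injective e2
      simpa using e3
    rw [this]
  · rintro ρ ρ' h
    have e1 := congrArg Prod.fst h
    have e2 := congrArg Prod.snd h
    simp only [LL] at e1 e2
    have hI := L0_col _ _ _ e1
    rw [hI] at e2
    have e3 : (src g hg c.1 ρ).2 = (src g hg c.1 ρ').2 := by
      have := sub_left_injective (sub_left_injective e2)
      simpa using this
    exact (src g hg c.1).injective (Prod.ext hI e3)

def PP (g : ℕ) [NeZero g] : Finset ((Fin 9 × ZMod g) × (Fin 9 × ZMod g)) :=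
  Finset.univ.filter fun p => p.2.1 ∈ patT (ty g p.1)

theorem PP_row (g : ℕ) [NeZero g] (ρ : Fin 9 × ZMod g) :
    ((PP g).filter fun c => c.1 = ρ).card = 5 * g := by
  have : ((PP g).filter fun c => c.1 = ρ) =
      ({ρ} : Finset (Fin 9 × ZMod g)) ×ˢ (patT (ty g ρ) ×ˢ (Finset.univ : Finset (ZMod g))) := by
    ext p
    simp only [PP, Finset.mem_filter, Finset.mem_univ, true_and, Finset.mem_product,
      Finset.mem_singleton, and_true]
    constructor
    · rintro ⟨h1, h2⟩; subst h2; exact ⟨rfl, h1⟩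
    · rintro ⟨h1, h2⟩; subst h1; exact ⟨h2, rfl⟩
  rw [this, Finset.card_product, Finset.card_product, patT_card]
  simp [ZMod.card]

theorem PP_col (g : ℕ) [NeZero g] (h01 : (0 : ZMod g) ≠ 1) (c : Fin 9 × ZMod g) :
    ((PP g).filter fun p => p.2 = c).card = 5 * g := by
  have h : ((PP g).filter fun p => p.2 = c) =
      (Finset.univ.filter fun ρ : Fin 9 × ZMod g => c.1 ∈ patT (ty g ρ)) ×ˢ
        ({c} : Finset (Fin 9 × ZMod g)) := by
    ext p
    simp only [PP, Finset.mem_filter, Finset.mem_univ, true_and, Finset.mem_product,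
      Finset.mem_singleton]
    constructor
    · rintro ⟨h1, h2⟩; subst h2; exact ⟨h1, rfl⟩
    · rintro ⟨h1, h2⟩; subst h2; exact ⟨h1, rfl⟩
  rw [h, Finset.card_product, Finset.card_singleton, mul_one]
  have h2 := sum_ty g h01 (FJ c.1)
  rw [(FJ_sum c.1).1, (FJ_sum c.1).2] at h2
  have h3 : ((Finset.univ.filter fun ρ : Fin 9 × ZMod g => c.1 ∈ patT (ty g ρ)).card : ℤ) =
      ∑ ρ : Fin 9 × ZMod g, FJ c.1 (ty g ρ) := by
    simp [FJ]
  have h4 : ((Finset.univ.filter fun ρ : Fin 9 × ZMod g => c.1 ∈ patT (ty g ρ)).card : ℤ) =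
      5 * g := by rw [h3, h2]; ring
  exact_mod_cast h4

theorem PP_sym (g : ℕ) [NeZero g] (h01 : (0 : ZMod g) ≠ 1) (hg : Function.Injective (ex g))
    (s : Fin 9 × ZMod g) :
    ((PP g).filter fun p => LL g hg p.1 p.2 = s).card = 5 * g := by
  have h1 : ((PP g).filter fun p => LL g hg p.1 p.2 = s).card =
      (Finset.univ.filter fun q : (Fin 9 × ZMod g) × Fin 9 =>
        q.2 ∈ patT (ty g q.1) ∧ L0 (rowT (ty g q.1) q.2) q.2 = s.1).card := by
    refine Finset.card_nbij' (fun p => (p.1, p.2.1))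
      (fun q => (q.1, (q.2, -(src g hg q.2 q.1).2 -
        ((tau (src g hg q.2 q.1).1 q.2 : ℕ) : ZMod g) - s.2))) ?_ ?_ ?_ ?_
    · intro p hp
      simp only [PP, Finset.coe_filter, Finset.mem_filter, Finset.mem_univ, true_and,
        Set.mem_ofPred_eq] at hp ⊢
      refine ⟨hp.1, ?_⟩
      rw [← hp.2, ← src_row g h01 hg]
      rfl
    · intro q hq
      simp only [PP, Finset.coe_filter, Finset.mem_filter, Finset.mem_univ, true_and,
        Set.mem_ofPred_eq] at hq ⊢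
      refine ⟨hq.1, ?_⟩
      rw [← src_row g h01 hg] at hq
      refine Prod.ext hq.2 ?_
      simp only [LL]
      ring
    · rintro ⟨ρ, J, j⟩ hp
      simp only [PP, Finset.coe_filter, Finset.mem_filter, Finset.mem_univ, true_and,
        Set.mem_ofPred_eq] at hp ⊢
      have e2 := congrArg Prod.snd hp.2
      simp only [LL] at e2
      rw [← e2]
      refine Prod.ext rfl (Prod.ext rfl ?_)
      simp only
      ring
    · rintro ⟨ρ, J⟩ hq
      rfl
  rw [h1]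
  have h2 := sum_ty g h01 (FS s.1)
  rw [(FS_sum s.1).1, (FS_sum s.1).2] at h2
  have h3 : ((Finset.univ.filter fun q : (Fin 9 × ZMod g) × Fin 9 =>
        q.2 ∈ patT (ty g q.1) ∧ L0 (rowT (ty g q.1) q.2) q.2 = s.1).card : ℤ) =
      ∑ ρ : Fin 9 × ZMod g, FS s.1 (ty g ρ) := by
    rw [Finset.card_filter, Fintype.sum_prod_type]
    push_cast
    refine Finset.sum_congr rfl fun ρ _ => ?_
    rw [FS, Finset.card_filter]
    push_cast
    rfl
  have h4 : ((Finset.univ.filter fun q : (Fin 9 × ZMod g) × Fin 9 =>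
        q.2 ∈ patT (ty g q.1) ∧ L0 (rowT (ty g q.1) q.2) q.2 = s.1).card : ℤ) =
      5 * g := by rw [h3, h2]; ring
  exact_mod_cast h4

/-- row labels -/
noncomputable def lamR (g : ℕ) [NeZero g] (ρ : Fin 9 × ZMod g) : ZMod (5 * g) :=
  (rl ρ.1 : ZMod (5 * g)) + phi 5 g ρ.2 + (if ρ = (4, 0) then phi 5 g 1 else 0)

noncomputable def lamC (g : ℕ) [NeZero g] (c : Fin 9 × ZMod g) : ZMod (5 * g) :=
  (rl c.1 : ZMod (5 * g)) + phi 5 g c.2

noncomputable def lamS (g : ℕ) [NeZero g] (s : Fin 9 × ZMod g) : ZMod (5 * g) :=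
  (sl s.1 : ZMod (5 * g)) + phi 5 g s.2

theorem lam_src (g : ℕ) [NeZero g] (h01 : (0 : ZMod g) ≠ 1) (hg : Function.Injective (ex g))
    (ρ : Fin 9 × ZMod g) (J : Fin 9) (hJ : J ∈ patT (ty g ρ)) :
    lamR g ρ = (rl (src g hg J ρ).1 : ZMod (5 * g)) + phi 5 g (src g hg J ρ).2 := by
  have hu : ∀ u : Fin 3, u ≠ 0 → rl (ex g u).1 = 2 ∧ (ex g u).2 = 1 := by
    intro u hu
    fin_cases u
    · exact absurd rfl hu
    · exact ⟨rfl, rfl⟩
    · exact ⟨rfl, rfl⟩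
  by_cases h : ∃ t, ex g t = ρ
  · obtain ⟨t, rfl⟩ := h
    rw [src_ex]
    have hne : pf J t ≠ 0 := by
      fin_cases t
      · exact pf_ne0 J (by rw [← ty_ex0 g]; exact hJ)
      · exact pf_ne1 J (by rw [← ty_ex1 g h01]; exact hJ)
      · exact pf_ne2 J (by rw [← ty_ex2 g]; exact hJ)
    rw [(hu _ hne).1, (hu _ hne).2]
    fin_cases t
    · simp [lamR, ex, rl]
    · have : ((4 : Fin 9), (1 : ZMod g)) ≠ (4, 0) := by simp [h01.symm]
      change (rl 4 : ZMod (5 * g)) + phi 5 g 1 +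
        (if ((4 : Fin 9), (1 : ZMod g)) = (4, 0) then phi 5 g 1 else 0) = _
      rw [if_neg this, add_zero]
      rfl
    · have : ((5 : Fin 9), (1 : ZMod g)) ≠ (4, 0) := by simp
      change (rl 5 : ZMod (5 * g)) + phi 5 g 1 +
        (if ((5 : Fin 9), (1 : ZMod g)) = (4, 0) then phi 5 g 1 else 0) = _
      rw [if_neg this, add_zero]
      rfl
  · push Not at h
    rw [src_not g hg J ρ h, lamR, if_neg (fun h' => h 0 h'.symm), add_zero]

theorem PP_zero (g : ℕ) [NeZero g] (h01 : (0 : ZMod g) ≠ 1) (hg : Function.Injective (ex g))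
    (p : (Fin 9 × ZMod g) × (Fin 9 × ZMod g)) (hp : p ∈ PP g) :
    lamR g p.1 + lamC g p.2 + lamS g (LL g hg p.1 p.2) = 0 := by
  obtain ⟨ρ, J, j⟩ := p
  simp only [PP, Finset.mem_filter, Finset.mem_univ, true_and] at hp
  have hz := zero_coarse _ _ hp
  rw [← src_row g h01 hg] at hz
  simp only
  rw [lam_src g h01 hg ρ J hp]
  simp only [lamC, lamS, LL, map_sub, map_neg, phi_natCast]
  have hz' := congrArg (fun n : ℕ => (n : ZMod (5 * g))) hz
  simp only [Nat.cast_add, Nat.cast_mul, Nat.cast_ofNat] at hz'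
  linear_combination hz'


theorem W_eq (g : ℕ) [NeZero g] (hodd : Odd g) :
    ∑ ρ, lamR g ρ + ∑ c, lamC g c + ∑ s, lamS g s = ((52 * g + 5 : ℕ) : ZMod (5 * g)) := by
  have hphi : phi 5 g 1 = ((5 : ℕ) : ZMod (5 * g)) := by
    have := phi_natCast 5 g 1
    simpa using this
  have hC : ∑ c, lamC g c = ((16 * g : ℕ) : ZMod (5 * g)) := by
    simp only [lamC]
    rw [Fintype.sum_prod_type]
    simp only [Finset.sum_add_distrib, phi_sum 5 g hodd, Finset.sum_const, Finset.card_univ,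
      ZMod.card, nsmul_eq_mul, add_zero]
    rw [← Finset.mul_sum, ← Nat.cast_sum, ← Nat.cast_mul]
    congr 1
    have : ∑ i : Fin 9, rl i = 16 := by decide
    rw [this]; ring
  have hS : ∑ s, lamS g s = ((20 * g : ℕ) : ZMod (5 * g)) := by
    simp only [lamS]
    rw [Fintype.sum_prod_type]
    simp only [Finset.sum_add_distrib, phi_sum 5 g hodd, Finset.sum_const, Finset.card_univ,
      ZMod.card, nsmul_eq_mul, add_zero]
    rw [← Finset.mul_sum, ← Nat.cast_sum, ← Nat.cast_mul]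
    congr 1
    have : ∑ i : Fin 9, sl i = 20 := by decide
    rw [this]; ring
  have hR : ∑ ρ, lamR g ρ = ((16 * g : ℕ) : ZMod (5 * g)) + ((5 : ℕ) : ZMod (5 * g)) := by
    have : ∀ ρ, lamR g ρ = lamC g ρ + (if ρ = (4, 0) then phi 5 g 1 else 0) := fun ρ => rfl
    simp only [this]
    rw [Finset.sum_add_distrib, hC, Finset.sum_ite_eq', if_pos (Finset.mem_univ _), hphi]
  rw [hR, hC, hS]
  push_cast
  ring

theorem exists_indivisible (g : ℕ) (hodd : Odd g) (h1 : 1 < g) (h5 : Nat.Coprime g 5) :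
    HasIndivisiblePlex (9 * g) (5 * g) := by
  have : NeZero g := ⟨by omega⟩
  have : Fact (1 < g) := ⟨h1⟩
  have h01 : (0 : ZMod g) ≠ 1 := zero_ne_one
  have hg := ex_inj g h01
  have hcard : Fintype.card (Fin 9 × ZMod g) = 9 * g := by
    simp [ZMod.card]
  have e : (Fin 9 × ZMod g) ≃ Fin (9 * g) := Fintype.equivFinOfCardEq hcard
  refine transport (9 * g) e e e (LL g hg) (LL_latin g h01 hg) (5 * g) (PP g)
    ⟨PP_row g, PP_col g h01, PP_sym g h01 hg⟩ (lamR g) (lamC g) (lamS g)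
    (fun p hp => PP_zero g h01 hg p hp) ?_
  rw [W_eq g hodd]
  refine (ZMod.isUnit_iff_coprime _ _).mpr ?_
  refine Nat.Coprime.mul_right ?_ ?_
  · have : Nat.Coprime (52 * g) 5 := Nat.Coprime.mul_left (by norm_num) h5
    first
      | exact Nat.coprime_add_self_left.mpr this
      | simpa using this
  · have : Nat.Coprime 5 g := h5.symm
    simpa using this

end F9_5

namespace F7_2

def L0 : Fin 7 → Fin 7 → Fin 7 :=
  ![![2, 3, 5, 1, 0, 6, 4], ![3, 6, 2, 4, 5, 1, 0], ![4, 0, 1, 2, 6, 5, 3], ![6, 1, 3, 0, 2, 4, 5], ![0, 5, 4, 3, 1, 2, 6], ![5, 2, 0, 6, 4, 3, 1], ![1, 4, 6, 5, 3, 0, 2]]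

def rl : Fin 7 → ℕ := ![0, 0, 0, 0, 1, 1, 1]

def sl : Fin 7 → ℕ := ![0, 0, 0, 0, 1, 1, 1]

def tau (I J : Fin 7) : ℕ := (rl I + rl J + sl (L0 I J)) / 2

def pf : Fin 7 → Fin 3 → Fin 3 :=
  ![![2, 0, 1], ![2, 1, 0], ![2, 0, 1], ![2, 1, 0], ![2, 0, 1], ![2, 0, 1], ![2, 0, 1]]

def exrow : Fin 3 → Fin 7 := ![3, 3, 0]

def patT : Fin 11 → Finset (Fin 7) :=
  ![{1, 3}, {0, 2}, {1, 4}, {5, 6}, {2, 4}, {0, 3}, {5, 6}, {1, 6}, {1, 3}, {5, 6}, {4, 5}]

def rowT (t : Fin 11) (J : Fin 7) : Fin 7 :=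
  (![0, 1, 2, 3, 4, 5, 6, exrow (pf J 0), exrow (pf J 1), exrow (pf J 2), 2] : Fin 11 → Fin 7) t

theorem L0_col : ∀ J I I' : Fin 7, L0 I J = L0 I' J → I = I' := by decide +kernel

theorem rowT_inj : ∀ (t : Fin 11) (J J' : Fin 7),
    L0 (rowT t J) J = L0 (rowT t J') J' → J = J' := by decide +kernel

theorem pf_inj : ∀ J : Fin 7, ∀ u v : Fin 3, pf J u = pf J v → u = v := by decide +kernel

theorem zero_coarse : ∀ (t : Fin 11) (J : Fin 7), J ∈ patT t →
    rl (rowT t J) + rl J + sl (L0 (rowT t J) J) = 2 * tau (rowT t J) J := by decide +kernel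

theorem patT_card : ∀ t : Fin 11, (patT t).card = 2 := by decide +kernel

theorem pf_ne0 : ∀ J : Fin 7, J ∈ patT 7 → pf J 0 ≠ 0 := by decide +kernel
theorem pf_ne1 : ∀ J : Fin 7, J ∈ patT 8 → pf J 1 ≠ 0 := by decide +kernel
theorem pf_ne2 : ∀ J : Fin 7, J ∈ patT 9 → pf J 2 ≠ 0 := by decide +kernel

def FJ (J : Fin 7) (t : Fin 11) : ℤ := if J ∈ patT t then 1 else 0

def FS (S : Fin 7) (t : Fin 11) : ℤ :=
  ((Finset.univ.filter fun J : Fin 7 => J ∈ patT t ∧ L0 (rowT t J) J = S).card : ℤ)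

theorem FJ_sum : ∀ J : Fin 7, (∑ I : Fin 7, FJ J (Fin.castLE (by norm_num) I)) = 2 ∧
    (FJ J 7 - FJ J 3) + (FJ J 8 - FJ J 3) + (FJ J 9 - FJ J 0) + (FJ J 10 - FJ J 2) = 0 := by decide +kernel

theorem FS_sum : ∀ S : Fin 7, (∑ I : Fin 7, FS S (Fin.castLE (by norm_num) I)) = 2 ∧
    (FS S 7 - FS S 3) + (FS S 8 - FS S 3) + (FS S 9 - FS S 0) + (FS S 10 - FS S 2) = 0 := by decide +kernel

def ex (g : ℕ) : Fin 3 → Fin 7 × ZMod g := ![(3, 0), (3, 1), (0, 1)]

theorem ex_fst (g : ℕ) (u : Fin 3) : (ex g u).1 = exrow u := by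
  fin_cases u <;> rfl

theorem ex_inj (g : ℕ) (h01 : (0 : ZMod g) ≠ 1) : Function.Injective (ex g) := by
  intro u v h
  have h10 : (1 : ZMod g) ≠ 0 := h01.symm
  fin_cases u <;> fin_cases v <;> simp [ex, Prod.ext_iff, h01, h10] at h ⊢

noncomputable def pi' (J : Fin 7) : Equiv.Perm (Fin 3) :=
  Equiv.ofBijective (pf J) (Finite.injective_iff_bijective.mp (fun u v h => pf_inj J u v h))

noncomputable def src (g : ℕ) (hg : Function.Injective (ex g)) (J : Fin 7) :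
    Equiv.Perm (Fin 7 × ZMod g) :=
  (pi' J).viaEmbedding ⟨ex g, hg⟩

theorem src_ex (g : ℕ) (hg : Function.Injective (ex g)) (J : Fin 7) (t : Fin 3) :
    src g hg J (ex g t) = ex g (pf J t) :=
  Equiv.Perm.viaEmbedding_apply (pi' J) ⟨ex g, hg⟩ t

theorem src_not (g : ℕ) (hg : Function.Injective (ex g)) (J : Fin 7) (ρ : Fin 7 × ZMod g)
    (h : ∀ t, ex g t ≠ ρ) : src g hg J ρ = ρ :=
  Equiv.Perm.viaEmbedding_apply_of_notMem _ _ _ (by rintro ⟨t, ht⟩; exact h t ht)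

def ty (g : ℕ) (ρ : Fin 7 × ZMod g) : Fin 11 :=
  if ρ = (3, 0) then 7 else if ρ = (3, 1) then 8 else if ρ = (0, 1) then 9 else if ρ = (2, 0) then 10 else Fin.castLE (by norm_num) ρ.1

theorem rowT_castLE : ∀ I J : Fin 7, rowT (Fin.castLE (by norm_num) I) J = I := by
  decide +kernel

theorem ty_ex0 (g : ℕ) : ty g (ex g 0) = 7 := by
  simp [ty, ex]

theorem ty_ex1 (g : ℕ) (h01 : (0 : ZMod g) ≠ 1) : ty g (ex g 1) = 8 := by
  simp [ty, ex, h01.symm]

theorem ty_ex2 (g : ℕ) : ty g (ex g 2) = 9 := by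
  simp [ty, ex]

theorem rowT_ty_not (g : ℕ) (ρ : Fin 7 × ZMod g) (h : ∀ t, ex g t ≠ ρ) (J : Fin 7) :
    rowT (ty g ρ) J = ρ.1 := by
  have h0 : ρ ≠ (3, 0) := fun h' => h 0 h'.symm
  have h1 : ρ ≠ (3, 1) := fun h' => h 1 h'.symm
  have h2 : ρ ≠ (0, 1) := fun h' => h 2 h'.symm
  unfold ty
  rw [if_neg h0, if_neg h1, if_neg h2]
  by_cases m0 : ρ = (2, 0)
  · rw [if_pos m0, m0]; rfl
  rw [if_neg m0]
  exact rowT_castLE _ _

theorem src_row (g : ℕ) (h01 : (0 : ZMod g) ≠ 1) (hg : Function.Injective (ex g)) (J : Fin 7)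
    (ρ : Fin 7 × ZMod g) : (src g hg J ρ).1 = rowT (ty g ρ) J := by
  by_cases h : ∃ t, ex g t = ρ
  · obtain ⟨t, rfl⟩ := h
    rw [src_ex, ex_fst]
    fin_cases t
    · change exrow (pf J 0) = rowT (ty g (ex g 0)) J
      rw [ty_ex0]; rfl
    · change exrow (pf J 1) = rowT (ty g (ex g 1)) J
      rw [ty_ex1 g h01]; rfl
    · change exrow (pf J 2) = rowT (ty g (ex g 2)) J
      rw [ty_ex2]; rfl
  · push Not at h
    rw [src_not g hg J ρ h, rowT_ty_not g ρ h]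

theorem sum_ty (g : ℕ) [NeZero g] (h01 : (0 : ZMod g) ≠ 1) (F : Fin 11 → ℤ) :
    ∑ ρ : Fin 7 × ZMod g, F (ty g ρ) =
      g * ∑ I : Fin 7, F (Fin.castLE (by norm_num) I) +
      ((F 7 - F 3) + (F 8 - F 3) + (F 9 - F 0) + (F 10 - F 2)) := by
  have h10 : (1 : ZMod g) ≠ 0 := h01.symm
  have key : ∀ ρ : Fin 7 × ZMod g, F (ty g ρ) = F (Fin.castLE (by norm_num) ρ.1)
      + (if ρ = (3, 0) then F 7 - F 3 else 0) + (if ρ = (3, 1) then F 8 - F 3 else 0) + (if ρ = (0, 1) then F 9 - F 0 else 0) + (if ρ = (2, 0) then F 10 - F 2 else 0) := by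
    intro ρ
    have c0 : (Fin.castLE (by norm_num) (0 : Fin 7) : Fin 11) = 0 := rfl
    have c2 : (Fin.castLE (by norm_num) (2 : Fin 7) : Fin 11) = 2 := rfl
    have c3 : (Fin.castLE (by norm_num) (3 : Fin 7) : Fin 11) = 3 := rfl
    have n0_1 : ((3 : Fin 7), (0 : ZMod g)) ≠ (3, 1) := by simp [h01, h10]
    have n0_2 : ((3 : Fin 7), (0 : ZMod g)) ≠ (0, 1) := by simp [h01, h10]
    have n0_3 : ((3 : Fin 7), (0 : ZMod g)) ≠ (2, 0) := by simp [h01, h10]
    have n1_2 : ((3 : Fin 7), (1 : ZMod g)) ≠ (0, 1) := by simp [h01, h10]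
    have n1_3 : ((3 : Fin 7), (1 : ZMod g)) ≠ (2, 0) := by simp [h01, h10]
    have n2_3 : ((0 : Fin 7), (1 : ZMod g)) ≠ (2, 0) := by simp [h01, h10]
    unfold ty
    by_cases q0 : ρ = (3, 0)
    · rw [q0, if_pos rfl, if_pos rfl, if_neg n0_1, if_neg n0_2, if_neg n0_3, c3]; ring
    rw [if_neg q0, if_neg q0]
    by_cases q1 : ρ = (3, 1)
    · rw [q1, if_pos rfl, if_pos rfl, if_neg n1_2, if_neg n1_3, c3]; ring
    rw [if_neg q1, if_neg q1]
    by_cases q2 : ρ = (0, 1)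
    · rw [q2, if_pos rfl, if_pos rfl, if_neg n2_3, c0]; ring
    rw [if_neg q2, if_neg q2]
    by_cases q3 : ρ = (2, 0)
    · rw [q3, if_pos rfl, if_pos rfl, c2]; ring
    rw [if_neg q3, if_neg q3]
    ring
  rw [Finset.sum_congr rfl (fun ρ _ => key ρ)]
  simp only [Finset.sum_add_distrib, Finset.sum_ite_eq', Finset.mem_univ, if_true]
  rw [Fintype.sum_prod_type]
  simp only [Finset.sum_const, Finset.card_univ, ZMod.card, nsmul_eq_mul, ← Finset.mul_sum]
  ring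

noncomputable def LL (g : ℕ) (hg : Function.Injective (ex g)) (ρ c : Fin 7 × ZMod g) :
    Fin 7 × ZMod g :=
  (L0 (src g hg c.1 ρ).1 c.1,
    -(src g hg c.1 ρ).2 - c.2 - ((tau (src g hg c.1 ρ).1 c.1 : ℕ) : ZMod g))

theorem LL_latin (g : ℕ) [NeZero g] (h01 : (0 : ZMod g) ≠ 1) (hg : Function.Injective (ex g)) :
    IsLatin (LL g hg) := by
  refine ⟨fun ρ => Finite.injective_iff_bijective.mp ?_,
    fun c => Finite.injective_iff_bijective.mp ?_⟩
  · rintro ⟨J, j⟩ ⟨J', j'⟩ h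
    have e1 := congrArg Prod.fst h
    have e2 := congrArg Prod.snd h
    simp only [LL] at e1 e2
    rw [src_row g h01, src_row g h01] at e1
    have hJ := rowT_inj _ _ _ e1
    subst hJ
    have : j = j' := by
      have e3 := sub_left_injective e2
      simpa using e3
    rw [this]
  · rintro ρ ρ' h
    have e1 := congrArg Prod.fst h
    have e2 := congrArg Prod.snd h
    simp only [LL] at e1 e2
    have hI := L0_col _ _ _ e1
    rw [hI] at e2
    have e3 : (src g hg c.1 ρ).2 = (src g hg c.1 ρ').2 := by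
      have := sub_left_injective (sub_left_injective e2)
      simpa using this
    exact (src g hg c.1).injective (Prod.ext hI e3)

def PP (g : ℕ) [NeZero g] : Finset ((Fin 7 × ZMod g) × (Fin 7 × ZMod g)) :=
  Finset.univ.filter fun p => p.2.1 ∈ patT (ty g p.1)

theorem PP_row (g : ℕ) [NeZero g] (ρ : Fin 7 × ZMod g) :
    ((PP g).filter fun c => c.1 = ρ).card = 2 * g := by
  have : ((PP g).filter fun c => c.1 = ρ) =
      ({ρ} : Finset (Fin 7 × ZMod g)) ×ˢ (patT (ty g ρ) ×ˢ (Finset.univ : Finset (ZMod g))) := by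
    ext p
    simp only [PP, Finset.mem_filter, Finset.mem_univ, true_and, Finset.mem_product,
      Finset.mem_singleton, and_true]
    constructor
    · rintro ⟨h1, h2⟩; subst h2; exact ⟨rfl, h1⟩
    · rintro ⟨h1, h2⟩; subst h1; exact ⟨h2, rfl⟩
  rw [this, Finset.card_product, Finset.card_product, patT_card]
  simp [ZMod.card]

theorem PP_col (g : ℕ) [NeZero g] (h01 : (0 : ZMod g) ≠ 1) (c : Fin 7 × ZMod g) :
    ((PP g).filter fun p => p.2 = c).card = 2 * g := by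
  have h : ((PP g).filter fun p => p.2 = c) =
      (Finset.univ.filter fun ρ : Fin 7 × ZMod g => c.1 ∈ patT (ty g ρ)) ×ˢ
        ({c} : Finset (Fin 7 × ZMod g)) := by
    ext p
    simp only [PP, Finset.mem_filter, Finset.mem_univ, true_and, Finset.mem_product,
      Finset.mem_singleton]
    constructor
    · rintro ⟨h1, h2⟩; subst h2; exact ⟨h1, rfl⟩
    · rintro ⟨h1, h2⟩; subst h2; exact ⟨h1, rfl⟩
  rw [h, Finset.card_product, Finset.card_singleton, mul_one]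
  have h2 := sum_ty g h01 (FJ c.1)
  rw [(FJ_sum c.1).1, (FJ_sum c.1).2] at h2
  have h3 : ((Finset.univ.filter fun ρ : Fin 7 × ZMod g => c.1 ∈ patT (ty g ρ)).card : ℤ) =
      ∑ ρ : Fin 7 × ZMod g, FJ c.1 (ty g ρ) := by
    simp [FJ]
  have h4 : ((Finset.univ.filter fun ρ : Fin 7 × ZMod g => c.1 ∈ patT (ty g ρ)).card : ℤ) =
      2 * g := by rw [h3, h2]; ring
  exact_mod_cast h4

theorem PP_sym (g : ℕ) [NeZero g] (h01 : (0 : ZMod g) ≠ 1) (hg : Function.Injective (ex g))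
    (s : Fin 7 × ZMod g) :
    ((PP g).filter fun p => LL g hg p.1 p.2 = s).card = 2 * g := by
  have h1 : ((PP g).filter fun p => LL g hg p.1 p.2 = s).card =
      (Finset.univ.filter fun q : (Fin 7 × ZMod g) × Fin 7 =>
        q.2 ∈ patT (ty g q.1) ∧ L0 (rowT (ty g q.1) q.2) q.2 = s.1).card := by
    refine Finset.card_nbij' (fun p => (p.1, p.2.1))
      (fun q => (q.1, (q.2, -(src g hg q.2 q.1).2 -
        ((tau (src g hg q.2 q.1).1 q.2 : ℕ) : ZMod g) - s.2))) ?_ ?_ ?_ ?_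
    · intro p hp
      simp only [PP, Finset.coe_filter, Finset.mem_filter, Finset.mem_univ, true_and,
        Set.mem_ofPred_eq] at hp ⊢
      refine ⟨hp.1, ?_⟩
      rw [← hp.2, ← src_row g h01 hg]
      rfl
    · intro q hq
      simp only [PP, Finset.coe_filter, Finset.mem_filter, Finset.mem_univ, true_and,
        Set.mem_ofPred_eq] at hq ⊢
      refine ⟨hq.1, ?_⟩
      rw [← src_row g h01 hg] at hq
      refine Prod.ext hq.2 ?_
      simp only [LL]
      ring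
    · rintro ⟨ρ, J, j⟩ hp
      simp only [PP, Finset.coe_filter, Finset.mem_filter, Finset.mem_univ, true_and,
        Set.mem_ofPred_eq] at hp ⊢
      have e2 := congrArg Prod.snd hp.2
      simp only [LL] at e2
      rw [← e2]
      refine Prod.ext rfl (Prod.ext rfl ?_)
      simp only
      ring
    · rintro ⟨ρ, J⟩ hq
      rfl
  rw [h1]
  have h2 := sum_ty g h01 (FS s.1)
  rw [(FS_sum s.1).1, (FS_sum s.1).2] at h2
  have h3 : ((Finset.univ.filter fun q : (Fin 7 × ZMod g) × Fin 7 =>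
        q.2 ∈ patT (ty g q.1) ∧ L0 (rowT (ty g q.1) q.2) q.2 = s.1).card : ℤ) =
      ∑ ρ : Fin 7 × ZMod g, FS s.1 (ty g ρ) := by
    rw [Finset.card_filter, Fintype.sum_prod_type]
    push_cast
    refine Finset.sum_congr rfl fun ρ _ => ?_
    rw [FS, Finset.card_filter]
    push_cast
    rfl
  have h4 : ((Finset.univ.filter fun q : (Fin 7 × ZMod g) × Fin 7 =>
        q.2 ∈ patT (ty g q.1) ∧ L0 (rowT (ty g q.1) q.2) q.2 = s.1).card : ℤ) =
      2 * g := by rw [h3, h2]; ring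
  exact_mod_cast h4

/-- row labels -/
noncomputable def lamR (g : ℕ) [NeZero g] (ρ : Fin 7 × ZMod g) : ZMod (2 * g) :=
  (rl ρ.1 : ZMod (2 * g)) + phi 2 g ρ.2 + (if ρ = (3, 0) then phi 2 g 1 else 0)

noncomputable def lamC (g : ℕ) [NeZero g] (c : Fin 7 × ZMod g) : ZMod (2 * g) :=
  (rl c.1 : ZMod (2 * g)) + phi 2 g c.2

noncomputable def lamS (g : ℕ) [NeZero g] (s : Fin 7 × ZMod g) : ZMod (2 * g) :=
  (sl s.1 : ZMod (2 * g)) + phi 2 g s.2

theorem lam_src (g : ℕ) [NeZero g] (h01 : (0 : ZMod g) ≠ 1) (hg : Function.Injective (ex g))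
    (ρ : Fin 7 × ZMod g) (J : Fin 7) (hJ : J ∈ patT (ty g ρ)) :
    lamR g ρ = (rl (src g hg J ρ).1 : ZMod (2 * g)) + phi 2 g (src g hg J ρ).2 := by
  have hu : ∀ u : Fin 3, u ≠ 0 → rl (ex g u).1 = 0 ∧ (ex g u).2 = 1 := by
    intro u hu
    fin_cases u
    · exact absurd rfl hu
    · exact ⟨rfl, rfl⟩
    · exact ⟨rfl, rfl⟩
  by_cases h : ∃ t, ex g t = ρ
  · obtain ⟨t, rfl⟩ := h
    rw [src_ex]
    have hne : pf J t ≠ 0 := by
      fin_cases t
      · exact pf_ne0 J (by rw [← ty_ex0 g]; exact hJ)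
      · exact pf_ne1 J (by rw [← ty_ex1 g h01]; exact hJ)
      · exact pf_ne2 J (by rw [← ty_ex2 g]; exact hJ)
    rw [(hu _ hne).1, (hu _ hne).2]
    fin_cases t
    · simp [lamR, ex, rl]
    · have : ((3 : Fin 7), (1 : ZMod g)) ≠ (3, 0) := by simp [h01.symm]
      change (rl 3 : ZMod (2 * g)) + phi 2 g 1 +
        (if ((3 : Fin 7), (1 : ZMod g)) = (3, 0) then phi 2 g 1 else 0) = _
      rw [if_neg this, add_zero]
      rfl
    · have : ((0 : Fin 7), (1 : ZMod g)) ≠ (3, 0) := by simp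
      change (rl 0 : ZMod (2 * g)) + phi 2 g 1 +
        (if ((0 : Fin 7), (1 : ZMod g)) = (3, 0) then phi 2 g 1 else 0) = _
      rw [if_neg this, add_zero]
      rfl
  · push Not at h
    rw [src_not g hg J ρ h, lamR, if_neg (fun h' => h 0 h'.symm), add_zero]

theorem PP_zero (g : ℕ) [NeZero g] (h01 : (0 : ZMod g) ≠ 1) (hg : Function.Injective (ex g))
    (p : (Fin 7 × ZMod g) × (Fin 7 × ZMod g)) (hp : p ∈ PP g) :
    lamR g p.1 + lamC g p.2 + lamS g (LL g hg p.1 p.2) = 0 := by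
  obtain ⟨ρ, J, j⟩ := p
  simp only [PP, Finset.mem_filter, Finset.mem_univ, true_and] at hp
  have hz := zero_coarse _ _ hp
  rw [← src_row g h01 hg] at hz
  simp only
  rw [lam_src g h01 hg ρ J hp]
  simp only [lamC, lamS, LL, map_sub, map_neg, phi_natCast]
  have hz' := congrArg (fun n : ℕ => (n : ZMod (2 * g))) hz
  simp only [Nat.cast_add, Nat.cast_mul, Nat.cast_ofNat] at hz'
  linear_combination hz'


theorem W_eq (g : ℕ) [NeZero g] (hodd : Odd g) :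
    ∑ ρ, lamR g ρ + ∑ c, lamC g c + ∑ s, lamS g s = ((9 * g + 2 : ℕ) : ZMod (2 * g)) := by
  have hphi : phi 2 g 1 = ((2 : ℕ) : ZMod (2 * g)) := by
    have := phi_natCast 2 g 1
    simpa using this
  have hC : ∑ c, lamC g c = ((3 * g : ℕ) : ZMod (2 * g)) := by
    simp only [lamC]
    rw [Fintype.sum_prod_type]
    simp only [Finset.sum_add_distrib, phi_sum 2 g hodd, Finset.sum_const, Finset.card_univ,
      ZMod.card, nsmul_eq_mul, add_zero]
    rw [← Finset.mul_sum, ← Nat.cast_sum, ← Nat.cast_mul]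
    congr 1
    have : ∑ i : Fin 7, rl i = 3 := by decide
    rw [this]; ring
  have hS : ∑ s, lamS g s = ((3 * g : ℕ) : ZMod (2 * g)) := by
    simp only [lamS]
    rw [Fintype.sum_prod_type]
    simp only [Finset.sum_add_distrib, phi_sum 2 g hodd, Finset.sum_const, Finset.card_univ,
      ZMod.card, nsmul_eq_mul, add_zero]
    rw [← Finset.mul_sum, ← Nat.cast_sum, ← Nat.cast_mul]
    congr 1
    have : ∑ i : Fin 7, sl i = 3 := by decide
    rw [this]; ring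
  have hR : ∑ ρ, lamR g ρ = ((3 * g : ℕ) : ZMod (2 * g)) + ((2 : ℕ) : ZMod (2 * g)) := by
    have : ∀ ρ, lamR g ρ = lamC g ρ + (if ρ = (3, 0) then phi 2 g 1 else 0) := fun ρ => rfl
    simp only [this]
    rw [Finset.sum_add_distrib, hC, Finset.sum_ite_eq', if_pos (Finset.mem_univ _), hphi]
  rw [hR, hC, hS]
  push_cast
  ring

theorem exists_indivisible (g : ℕ) (hodd : Odd g) (h1 : 1 < g) (h5 : Nat.Coprime g 2) :
    HasIndivisiblePlex (7 * g) (2 * g) := by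
  have : NeZero g := ⟨by omega⟩
  have : Fact (1 < g) := ⟨h1⟩
  have h01 : (0 : ZMod g) ≠ 1 := zero_ne_one
  have hg := ex_inj g h01
  have hcard : Fintype.card (Fin 7 × ZMod g) = 7 * g := by
    simp [ZMod.card]
  have e : (Fin 7 × ZMod g) ≃ Fin (7 * g) := Fintype.equivFinOfCardEq hcard
  refine transport (7 * g) e e e (LL g hg) (LL_latin g h01 hg) (2 * g) (PP g)
    ⟨PP_row g, PP_col g h01, PP_sym g h01 hg⟩ (lamR g) (lamC g) (lamS g)
    (fun p hp => PP_zero g h01 hg p hp) ?_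
  rw [W_eq g hodd]
  refine (ZMod.isUnit_iff_coprime _ _).mpr ?_
  refine Nat.Coprime.mul_right ?_ ?_
  · have : Nat.Coprime (9 * g) 2 := Nat.Coprime.mul_left (by norm_num) h5
    first
      | exact Nat.coprime_add_self_left.mpr this
      | simpa using this
  · have : Nat.Coprime 2 g := h5.symm
    simpa using this

end F7_2

namespace F9_2

def L0 : Fin 9 → Fin 9 → Fin 9 :=
  ![![7, 4, 1, 6, 5, 3, 0, 2, 8], ![2, 6, 8, 5, 7, 4, 1, 0, 3], ![5, 2, 6, 8, 0, 1, 3, 7, 4], ![6, 5, 7, 0, 8, 2, 4, 3, 1], ![3, 8, 4, 1, 6, 0, 2, 5, 7], ![4, 3, 0, 2, 1, 7, 5, 8, 6], ![1, 0, 2, 4, 3, 8, 7, 6, 5], ![0, 7, 5, 3, 4, 6, 8, 1, 2], ![8, 1, 3, 7, 2, 5, 6, 4, 0]]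

def rl : Fin 9 → ℕ := ![0, 0, 0, 0, 0, 1, 1, 1, 1]

def sl : Fin 9 → ℕ := ![1, 1, 1, 1, 1, 0, 0, 0, 0]

def tau (I J : Fin 9) : ℕ := (rl I + rl J + sl (L0 I J)) / 2

def pf : Fin 9 → Fin 3 → Fin 3 :=
  ![![2, 0, 1], ![2, 0, 1], ![2, 0, 1], ![2, 1, 0], ![2, 1, 0], ![2, 0, 1], ![2, 0, 1], ![2, 0, 1], ![2, 0, 1]]

def exrow : Fin 3 → Fin 9 := ![0, 0, 1]

def patT : Fin 13 → Finset (Fin 9) :=
  ![{3, 4}, {1, 7}, {5, 8}, {2, 6}, {1, 6}, {5, 7}, {0, 8}, {0, 3}, {2, 4}, {1, 3}, {3, 4}, {6, 7}, {1, 4}]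

def rowT (t : Fin 13) (J : Fin 9) : Fin 9 :=
  (![0, 1, 2, 3, 4, 5, 6, 7, 8, exrow (pf J 0), exrow (pf J 1), exrow (pf J 2), 4] : Fin 13 → Fin 9) t

theorem L0_col : ∀ J I I' : Fin 9, L0 I J = L0 I' J → I = I' := by decide +kernel

theorem rowT_inj : ∀ (t : Fin 13) (J J' : Fin 9),
    L0 (rowT t J) J = L0 (rowT t J') J' → J = J' := by decide +kernel

theorem pf_inj : ∀ J : Fin 9, ∀ u v : Fin 3, pf J u = pf J v → u = v := by decide +kernel

theorem zero_coarse : ∀ (t : Fin 13) (J : Fin 9), J ∈ patT t →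
    rl (rowT t J) + rl J + sl (L0 (rowT t J) J) = 2 * tau (rowT t J) J := by decide +kernel

theorem patT_card : ∀ t : Fin 13, (patT t).card = 2 := by decide +kernel

theorem pf_ne0 : ∀ J : Fin 9, J ∈ patT 9 → pf J 0 ≠ 0 := by decide +kernel
theorem pf_ne1 : ∀ J : Fin 9, J ∈ patT 10 → pf J 1 ≠ 0 := by decide +kernel
theorem pf_ne2 : ∀ J : Fin 9, J ∈ patT 11 → pf J 2 ≠ 0 := by decide +kernel

def FJ (J : Fin 9) (t : Fin 13) : ℤ := if J ∈ patT t then 1 else 0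

def FS (S : Fin 9) (t : Fin 13) : ℤ :=
  ((Finset.univ.filter fun J : Fin 9 => J ∈ patT t ∧ L0 (rowT t J) J = S).card : ℤ)

theorem FJ_sum : ∀ J : Fin 9, (∑ I : Fin 9, FJ J (Fin.castLE (by norm_num) I)) = 2 ∧
    (FJ J 9 - FJ J 0) + (FJ J 10 - FJ J 0) + (FJ J 11 - FJ J 1) + (FJ J 12 - FJ J 4) = 0 := by decide +kernel

theorem FS_sum : ∀ S : Fin 9, (∑ I : Fin 9, FS S (Fin.castLE (by norm_num) I)) = 2 ∧
    (FS S 9 - FS S 0) + (FS S 10 - FS S 0) + (FS S 11 - FS S 1) + (FS S 12 - FS S 4) = 0 := by decide +kernel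

def ex (g : ℕ) : Fin 3 → Fin 9 × ZMod g := ![(0, 0), (0, 1), (1, 1)]

theorem ex_fst (g : ℕ) (u : Fin 3) : (ex g u).1 = exrow u := by
  fin_cases u <;> rfl

theorem ex_inj (g : ℕ) (h01 : (0 : ZMod g) ≠ 1) : Function.Injective (ex g) := by
  intro u v h
  have h10 : (1 : ZMod g) ≠ 0 := h01.symm
  fin_cases u <;> fin_cases v <;> simp [ex, Prod.ext_iff, h01, h10] at h ⊢

noncomputable def pi' (J : Fin 9) : Equiv.Perm (Fin 3) :=
  Equiv.ofBijective (pf J) (Finite.injective_iff_bijective.mp (fun u v h => pf_inj J u v h))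

noncomputable def src (g : ℕ) (hg : Function.Injective (ex g)) (J : Fin 9) :
    Equiv.Perm (Fin 9 × ZMod g) :=
  (pi' J).viaEmbedding ⟨ex g, hg⟩

theorem src_ex (g : ℕ) (hg : Function.Injective (ex g)) (J : Fin 9) (t : Fin 3) :
    src g hg J (ex g t) = ex g (pf J t) :=
  Equiv.Perm.viaEmbedding_apply (pi' J) ⟨ex g, hg⟩ t

theorem src_not (g : ℕ) (hg : Function.Injective (ex g)) (J : Fin 9) (ρ : Fin 9 × ZMod g)
    (h : ∀ t, ex g t ≠ ρ) : src g hg J ρ = ρ :=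
  Equiv.Perm.viaEmbedding_apply_of_notMem _ _ _ (by rintro ⟨t, ht⟩; exact h t ht)

def ty (g : ℕ) (ρ : Fin 9 × ZMod g) : Fin 13 :=
  if ρ = (0, 0) then 9 else if ρ = (0, 1) then 10 else if ρ = (1, 1) then 11 else if ρ = (4, 0) then 12 else Fin.castLE (by norm_num) ρ.1

theorem rowT_castLE : ∀ I J : Fin 9, rowT (Fin.castLE (by norm_num) I) J = I := by
  decide +kernel

theorem ty_ex0 (g : ℕ) : ty g (ex g 0) = 9 := by
  simp [ty, ex]

theorem ty_ex1 (g : ℕ) (h01 : (0 : ZMod g) ≠ 1) : ty g (ex g 1) = 10 := by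
  simp [ty, ex, h01.symm]

theorem ty_ex2 (g : ℕ) : ty g (ex g 2) = 11 := by
  simp [ty, ex]

theorem rowT_ty_not (g : ℕ) (ρ : Fin 9 × ZMod g) (h : ∀ t, ex g t ≠ ρ) (J : Fin 9) :
    rowT (ty g ρ) J = ρ.1 := by
  have h0 : ρ ≠ (0, 0) := fun h' => h 0 h'.symm
  have h1 : ρ ≠ (0, 1) := fun h' => h 1 h'.symm
  have h2 : ρ ≠ (1, 1) := fun h' => h 2 h'.symm
  unfold ty
  rw [if_neg h0, if_neg h1, if_neg h2]
  by_cases m0 : ρ = (4, 0)
  · rw [if_pos m0, m0]; rfl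
  rw [if_neg m0]
  exact rowT_castLE _ _

theorem src_row (g : ℕ) (h01 : (0 : ZMod g) ≠ 1) (hg : Function.Injective (ex g)) (J : Fin 9)
    (ρ : Fin 9 × ZMod g) : (src g hg J ρ).1 = rowT (ty g ρ) J := by
  by_cases h : ∃ t, ex g t = ρ
  · obtain ⟨t, rfl⟩ := h
    rw [src_ex, ex_fst]
    fin_cases t
    · change exrow (pf J 0) = rowT (ty g (ex g 0)) J
      rw [ty_ex0]; rfl
    · change exrow (pf J 1) = rowT (ty g (ex g 1)) J
      rw [ty_ex1 g h01]; rfl
    · change exrow (pf J 2) = rowT (ty g (ex g 2)) J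
      rw [ty_ex2]; rfl
  · push Not at h
    rw [src_not g hg J ρ h, rowT_ty_not g ρ h]

theorem sum_ty (g : ℕ) [NeZero g] (h01 : (0 : ZMod g) ≠ 1) (F : Fin 13 → ℤ) :
    ∑ ρ : Fin 9 × ZMod g, F (ty g ρ) =
      g * ∑ I : Fin 9, F (Fin.castLE (by norm_num) I) +
      ((F 9 - F 0) + (F 10 - F 0) + (F 11 - F 1) + (F 12 - F 4)) := by
  have h10 : (1 : ZMod g) ≠ 0 := h01.symm
  have key : ∀ ρ : Fin 9 × ZMod g, F (ty g ρ) = F (Fin.castLE (by norm_num) ρ.1)
      + (if ρ = (0, 0) then F 9 - F 0 else 0) + (if ρ = (0, 1) then F 10 - F 0 else 0) + (if ρ = (1, 1) then F 11 - F 1 else 0) + (if ρ = (4, 0) then F 12 - F 4 else 0) := by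
    intro ρ
    have c0 : (Fin.castLE (by norm_num) (0 : Fin 9) : Fin 13) = 0 := rfl
    have c1 : (Fin.castLE (by norm_num) (1 : Fin 9) : Fin 13) = 1 := rfl
    have c4 : (Fin.castLE (by norm_num) (4 : Fin 9) : Fin 13) = 4 := rfl
    have n0_1 : ((0 : Fin 9), (0 : ZMod g)) ≠ (0, 1) := by simp [h01, h10]
    have n0_2 : ((0 : Fin 9), (0 : ZMod g)) ≠ (1, 1) := by simp [h01, h10]
    have n0_3 : ((0 : Fin 9), (0 : ZMod g)) ≠ (4, 0) := by simp [h01, h10]
    have n1_2 : ((0 : Fin 9), (1 : ZMod g)) ≠ (1, 1) := by simp [h01, h10]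
    have n1_3 : ((0 : Fin 9), (1 : ZMod g)) ≠ (4, 0) := by simp [h01, h10]
    have n2_3 : ((1 : Fin 9), (1 : ZMod g)) ≠ (4, 0) := by simp [h01, h10]
    unfold ty
    by_cases q0 : ρ = (0, 0)
    · rw [q0, if_pos rfl, if_pos rfl, if_neg n0_1, if_neg n0_2, if_neg n0_3, c0]; ring
    rw [if_neg q0, if_neg q0]
    by_cases q1 : ρ = (0, 1)
    · rw [q1, if_pos rfl, if_pos rfl, if_neg n1_2, if_neg n1_3, c0]; ring
    rw [if_neg q1, if_neg q1]
    by_cases q2 : ρ = (1, 1)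
    · rw [q2, if_pos rfl, if_pos rfl, if_neg n2_3, c1]; ring
    rw [if_neg q2, if_neg q2]
    by_cases q3 : ρ = (4, 0)
    · rw [q3, if_pos rfl, if_pos rfl, c4]; ring
    rw [if_neg q3, if_neg q3]
    ring
  rw [Finset.sum_congr rfl (fun ρ _ => key ρ)]
  simp only [Finset.sum_add_distrib, Finset.sum_ite_eq', Finset.mem_univ, if_true]
  rw [Fintype.sum_prod_type]
  simp only [Finset.sum_const, Finset.card_univ, ZMod.card, nsmul_eq_mul, ← Finset.mul_sum]
  ring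

noncomputable def LL (g : ℕ) (hg : Function.Injective (ex g)) (ρ c : Fin 9 × ZMod g) :
    Fin 9 × ZMod g :=
  (L0 (src g hg c.1 ρ).1 c.1,
    -(src g hg c.1 ρ).2 - c.2 - ((tau (src g hg c.1 ρ).1 c.1 : ℕ) : ZMod g))

theorem LL_latin (g : ℕ) [NeZero g] (h01 : (0 : ZMod g) ≠ 1) (hg : Function.Injective (ex g)) :
    IsLatin (LL g hg) := by
  refine ⟨fun ρ => Finite.injective_iff_bijective.mp ?_,
    fun c => Finite.injective_iff_bijective.mp ?_⟩
  · rintro ⟨J, j⟩ ⟨J', j'⟩ h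
    have e1 := congrArg Prod.fst h
    have e2 := congrArg Prod.snd h
    simp only [LL] at e1 e2
    rw [src_row g h01, src_row g h01] at e1
    have hJ := rowT_inj _ _ _ e1
    subst hJ
    have : j = j' := by
      have e3 := sub_left_injective e2
      simpa using e3
    rw [this]
  · rintro ρ ρ' h
    have e1 := congrArg Prod.fst h
    have e2 := congrArg Prod.snd h
    simp only [LL] at e1 e2
    have hI := L0_col _ _ _ e1
    rw [hI] at e2
    have e3 : (src g hg c.1 ρ).2 = (src g hg c.1 ρ').2 := by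
      have := sub_left_injective (sub_left_injective e2)
      simpa using this
    exact (src g hg c.1).injective (Prod.ext hI e3)

def PP (g : ℕ) [NeZero g] : Finset ((Fin 9 × ZMod g) × (Fin 9 × ZMod g)) :=
  Finset.univ.filter fun p => p.2.1 ∈ patT (ty g p.1)

theorem PP_row (g : ℕ) [NeZero g] (ρ : Fin 9 × ZMod g) :
    ((PP g).filter fun c => c.1 = ρ).card = 2 * g := by
  have : ((PP g).filter fun c => c.1 = ρ) =
      ({ρ} : Finset (Fin 9 × ZMod g)) ×ˢ (patT (ty g ρ) ×ˢ (Finset.univ : Finset (ZMod g))) := by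
    ext p
    simp only [PP, Finset.mem_filter, Finset.mem_univ, true_and, Finset.mem_product,
      Finset.mem_singleton, and_true]
    constructor
    · rintro ⟨h1, h2⟩; subst h2; exact ⟨rfl, h1⟩
    · rintro ⟨h1, h2⟩; subst h1; exact ⟨h2, rfl⟩
  rw [this, Finset.card_product, Finset.card_product, patT_card]
  simp [ZMod.card]

theorem PP_col (g : ℕ) [NeZero g] (h01 : (0 : ZMod g) ≠ 1) (c : Fin 9 × ZMod g) :
    ((PP g).filter fun p => p.2 = c).card = 2 * g := by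
  have h : ((PP g).filter fun p => p.2 = c) =
      (Finset.univ.filter fun ρ : Fin 9 × ZMod g => c.1 ∈ patT (ty g ρ)) ×ˢ
        ({c} : Finset (Fin 9 × ZMod g)) := by
    ext p
    simp only [PP, Finset.mem_filter, Finset.mem_univ, true_and, Finset.mem_product,
      Finset.mem_singleton]
    constructor
    · rintro ⟨h1, h2⟩; subst h2; exact ⟨h1, rfl⟩
    · rintro ⟨h1, h2⟩; subst h2; exact ⟨h1, rfl⟩
  rw [h, Finset.card_product, Finset.card_singleton, mul_one]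
  have h2 := sum_ty g h01 (FJ c.1)
  rw [(FJ_sum c.1).1, (FJ_sum c.1).2] at h2
  have h3 : ((Finset.univ.filter fun ρ : Fin 9 × ZMod g => c.1 ∈ patT (ty g ρ)).card : ℤ) =
      ∑ ρ : Fin 9 × ZMod g, FJ c.1 (ty g ρ) := by
    simp [FJ]
  have h4 : ((Finset.univ.filter fun ρ : Fin 9 × ZMod g => c.1 ∈ patT (ty g ρ)).card : ℤ) =
      2 * g := by rw [h3, h2]; ring
  exact_mod_cast h4

theorem PP_sym (g : ℕ) [NeZero g] (h01 : (0 : ZMod g) ≠ 1) (hg : Function.Injective (ex g))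
    (s : Fin 9 × ZMod g) :
    ((PP g).filter fun p => LL g hg p.1 p.2 = s).card = 2 * g := by
  have h1 : ((PP g).filter fun p => LL g hg p.1 p.2 = s).card =
      (Finset.univ.filter fun q : (Fin 9 × ZMod g) × Fin 9 =>
        q.2 ∈ patT (ty g q.1) ∧ L0 (rowT (ty g q.1) q.2) q.2 = s.1).card := by
    refine Finset.card_nbij' (fun p => (p.1, p.2.1))
      (fun q => (q.1, (q.2, -(src g hg q.2 q.1).2 -
        ((tau (src g hg q.2 q.1).1 q.2 : ℕ) : ZMod g) - s.2))) ?_ ?_ ?_ ?_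
    · intro p hp
      simp only [PP, Finset.coe_filter, Finset.mem_filter, Finset.mem_univ, true_and,
        Set.mem_ofPred_eq] at hp ⊢
      refine ⟨hp.1, ?_⟩
      rw [← hp.2, ← src_row g h01 hg]
      rfl
    · intro q hq
      simp only [PP, Finset.coe_filter, Finset.mem_filter, Finset.mem_univ, true_and,
        Set.mem_ofPred_eq] at hq ⊢
      refine ⟨hq.1, ?_⟩
      rw [← src_row g h01 hg] at hq
      refine Prod.ext hq.2 ?_
      simp only [LL]
      ring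
    · rintro ⟨ρ, J, j⟩ hp
      simp only [PP, Finset.coe_filter, Finset.mem_filter, Finset.mem_univ, true_and,
        Set.mem_ofPred_eq] at hp ⊢
      have e2 := congrArg Prod.snd hp.2
      simp only [LL] at e2
      rw [← e2]
      refine Prod.ext rfl (Prod.ext rfl ?_)
      simp only
      ring
    · rintro ⟨ρ, J⟩ hq
      rfl
  rw [h1]
  have h2 := sum_ty g h01 (FS s.1)
  rw [(FS_sum s.1).1, (FS_sum s.1).2] at h2
  have h3 : ((Finset.univ.filter fun q : (Fin 9 × ZMod g) × Fin 9 =>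
        q.2 ∈ patT (ty g q.1) ∧ L0 (rowT (ty g q.1) q.2) q.2 = s.1).card : ℤ) =
      ∑ ρ : Fin 9 × ZMod g, FS s.1 (ty g ρ) := by
    rw [Finset.card_filter, Fintype.sum_prod_type]
    push_cast
    refine Finset.sum_congr rfl fun ρ _ => ?_
    rw [FS, Finset.card_filter]
    push_cast
    rfl
  have h4 : ((Finset.univ.filter fun q : (Fin 9 × ZMod g) × Fin 9 =>
        q.2 ∈ patT (ty g q.1) ∧ L0 (rowT (ty g q.1) q.2) q.2 = s.1).card : ℤ) =
      2 * g := by rw [h3, h2]; ring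
  exact_mod_cast h4

/-- row labels -/
noncomputable def lamR (g : ℕ) [NeZero g] (ρ : Fin 9 × ZMod g) : ZMod (2 * g) :=
  (rl ρ.1 : ZMod (2 * g)) + phi 2 g ρ.2 + (if ρ = (0, 0) then phi 2 g 1 else 0)

noncomputable def lamC (g : ℕ) [NeZero g] (c : Fin 9 × ZMod g) : ZMod (2 * g) :=
  (rl c.1 : ZMod (2 * g)) + phi 2 g c.2

noncomputable def lamS (g : ℕ) [NeZero g] (s : Fin 9 × ZMod g) : ZMod (2 * g) :=
  (sl s.1 : ZMod (2 * g)) + phi 2 g s.2

theorem lam_src (g : ℕ) [NeZero g] (h01 : (0 : ZMod g) ≠ 1) (hg : Function.Injective (ex g))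
    (ρ : Fin 9 × ZMod g) (J : Fin 9) (hJ : J ∈ patT (ty g ρ)) :
    lamR g ρ = (rl (src g hg J ρ).1 : ZMod (2 * g)) + phi 2 g (src g hg J ρ).2 := by
  have hu : ∀ u : Fin 3, u ≠ 0 → rl (ex g u).1 = 0 ∧ (ex g u).2 = 1 := by
    intro u hu
    fin_cases u
    · exact absurd rfl hu
    · exact ⟨rfl, rfl⟩
    · exact ⟨rfl, rfl⟩
  by_cases h : ∃ t, ex g t = ρ
  · obtain ⟨t, rfl⟩ := h
    rw [src_ex]
    have hne : pf J t ≠ 0 := by
      fin_cases t
      · exact pf_ne0 J (by rw [← ty_ex0 g]; exact hJ)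
      · exact pf_ne1 J (by rw [← ty_ex1 g h01]; exact hJ)
      · exact pf_ne2 J (by rw [← ty_ex2 g]; exact hJ)
    rw [(hu _ hne).1, (hu _ hne).2]
    fin_cases t
    · simp [lamR, ex, rl]
    · have : ((0 : Fin 9), (1 : ZMod g)) ≠ (0, 0) := by simp [h01.symm]
      change (rl 0 : ZMod (2 * g)) + phi 2 g 1 +
        (if ((0 : Fin 9), (1 : ZMod g)) = (0, 0) then phi 2 g 1 else 0) = _
      rw [if_neg this, add_zero]
      rfl
    · have : ((1 : Fin 9), (1 : ZMod g)) ≠ (0, 0) := by simp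
      change (rl 1 : ZMod (2 * g)) + phi 2 g 1 +
        (if ((1 : Fin 9), (1 : ZMod g)) = (0, 0) then phi 2 g 1 else 0) = _
      rw [if_neg this, add_zero]
      rfl
  · push Not at h
    rw [src_not g hg J ρ h, lamR, if_neg (fun h' => h 0 h'.symm), add_zero]

theorem PP_zero (g : ℕ) [NeZero g] (h01 : (0 : ZMod g) ≠ 1) (hg : Function.Injective (ex g))
    (p : (Fin 9 × ZMod g) × (Fin 9 × ZMod g)) (hp : p ∈ PP g) :
    lamR g p.1 + lamC g p.2 + lamS g (LL g hg p.1 p.2) = 0 := by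
  obtain ⟨ρ, J, j⟩ := p
  simp only [PP, Finset.mem_filter, Finset.mem_univ, true_and] at hp
  have hz := zero_coarse _ _ hp
  rw [← src_row g h01 hg] at hz
  simp only
  rw [lam_src g h01 hg ρ J hp]
  simp only [lamC, lamS, LL, map_sub, map_neg, phi_natCast]
  have hz' := congrArg (fun n : ℕ => (n : ZMod (2 * g))) hz
  simp only [Nat.cast_add, Nat.cast_mul, Nat.cast_ofNat] at hz'
  linear_combination hz'


theorem W_eq (g : ℕ) [NeZero g] (hodd : Odd g) :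
    ∑ ρ, lamR g ρ + ∑ c, lamC g c + ∑ s, lamS g s = ((13 * g + 2 : ℕ) : ZMod (2 * g)) := by
  have hphi : phi 2 g 1 = ((2 : ℕ) : ZMod (2 * g)) := by
    have := phi_natCast 2 g 1
    simpa using this
  have hC : ∑ c, lamC g c = ((4 * g : ℕ) : ZMod (2 * g)) := by
    simp only [lamC]
    rw [Fintype.sum_prod_type]
    simp only [Finset.sum_add_distrib, phi_sum 2 g hodd, Finset.sum_const, Finset.card_univ,
      ZMod.card, nsmul_eq_mul, add_zero]
    rw [← Finset.mul_sum, ← Nat.cast_sum, ← Nat.cast_mul]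
    congr 1
    have : ∑ i : Fin 9, rl i = 4 := by decide
    rw [this]; ring
  have hS : ∑ s, lamS g s = ((5 * g : ℕ) : ZMod (2 * g)) := by
    simp only [lamS]
    rw [Fintype.sum_prod_type]
    simp only [Finset.sum_add_distrib, phi_sum 2 g hodd, Finset.sum_const, Finset.card_univ,
      ZMod.card, nsmul_eq_mul, add_zero]
    rw [← Finset.mul_sum, ← Nat.cast_sum, ← Nat.cast_mul]
    congr 1
    have : ∑ i : Fin 9, sl i = 5 := by decide
    rw [this]; ring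
  have hR : ∑ ρ, lamR g ρ = ((4 * g : ℕ) : ZMod (2 * g)) + ((2 : ℕ) : ZMod (2 * g)) := by
    have : ∀ ρ, lamR g ρ = lamC g ρ + (if ρ = (0, 0) then phi 2 g 1 else 0) := fun ρ => rfl
    simp only [this]
    rw [Finset.sum_add_distrib, hC, Finset.sum_ite_eq', if_pos (Finset.mem_univ _), hphi]
  rw [hR, hC, hS]
  push_cast
  ring

theorem exists_indivisible (g : ℕ) (hodd : Odd g) (h1 : 1 < g) (h5 : Nat.Coprime g 2) :
    HasIndivisiblePlex (9 * g) (2 * g) := by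
  have : NeZero g := ⟨by omega⟩
  have : Fact (1 < g) := ⟨h1⟩
  have h01 : (0 : ZMod g) ≠ 1 := zero_ne_one
  have hg := ex_inj g h01
  have hcard : Fintype.card (Fin 9 × ZMod g) = 9 * g := by
    simp [ZMod.card]
  have e : (Fin 9 × ZMod g) ≃ Fin (9 * g) := Fintype.equivFinOfCardEq hcard
  refine transport (9 * g) e e e (LL g hg) (LL_latin g h01 hg) (2 * g) (PP g)
    ⟨PP_row g, PP_col g h01, PP_sym g h01 hg⟩ (lamR g) (lamC g) (lamS g)
    (fun p hp => PP_zero g h01 hg p hp) ?_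
  rw [W_eq g hodd]
  refine (ZMod.isUnit_iff_coprime _ _).mpr ?_
  refine Nat.Coprime.mul_right ?_ ?_
  · have : Nat.Coprime (13 * g) 2 := Nat.Coprime.mul_left (by norm_num) h5
    first
      | exact Nat.coprime_add_self_left.mpr this
      | simpa using this
  · have : Nat.Coprime 2 g := h5.symm
    simpa using this

end F9_2

namespace F8_3

def L0 : Fin 8 → Fin 8 → Fin 8 :=
  ![![0, 6, 3, 5, 7, 4, 1, 2], ![6, 3, 7, 2, 5, 1, 4, 0], ![7, 0, 4, 3, 6, 5, 2, 1], ![2, 4, 5, 1, 0, 3, 6, 7], ![3, 5, 1, 4, 2, 0, 7, 6], ![4, 7, 6, 0, 1, 2, 3, 5], ![1, 2, 0, 7, 3, 6, 5, 4], ![5, 1, 2, 6, 4, 7, 0, 3]]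

def rl : Fin 8 → ℕ := ![0, 0, 0, 1, 1, 1, 2, 2]

def sl : Fin 8 → ℕ := ![1, 1, 1, 2, 2, 2, 0, 0]

def tau (I J : Fin 8) : ℕ := (rl I + rl J + sl (L0 I J)) / 3

def pf : Fin 8 → Fin 3 → Fin 3 :=
  ![![0, 2, 1], ![0, 2, 1], ![0, 2, 1], ![2, 0, 1], ![2, 0, 1], ![2, 1, 0], ![0, 2, 1], ![2, 0, 1]]

def exrow : Fin 3 → Fin 8 := ![6, 6, 7]

def patT : Fin 12 → Finset (Fin 8) :=
  ![{1, 3, 6}, {0, 2, 4}, {3, 6, 7}, {1, 2, 4}, {0, 5, 6}, {0, 3, 4}, {1, 5, 7}, {2, 5, 7}, {3, 5, 7}, {1, 2, 5}, {1, 6, 7}, {1, 5, 7}]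

def rowT (t : Fin 12) (J : Fin 8) : Fin 8 :=
  (![0, 1, 2, 3, 4, 5, 6, 7, exrow (pf J 0), exrow (pf J 1), exrow (pf J 2), 0] : Fin 12 → Fin 8) t

theorem L0_col : ∀ J I I' : Fin 8, L0 I J = L0 I' J → I = I' := by decide +kernel

theorem rowT_inj : ∀ (t : Fin 12) (J J' : Fin 8),
    L0 (rowT t J) J = L0 (rowT t J') J' → J = J' := by decide +kernel

theorem pf_inj : ∀ J : Fin 8, ∀ u v : Fin 3, pf J u = pf J v → u = v := by decide +kernel

theorem zero_coarse : ∀ (t : Fin 12) (J : Fin 8), J ∈ patT t →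
    rl (rowT t J) + rl J + sl (L0 (rowT t J) J) = 3 * tau (rowT t J) J := by decide +kernel

theorem patT_card : ∀ t : Fin 12, (patT t).card = 3 := by decide +kernel

theorem pf_ne0 : ∀ J : Fin 8, J ∈ patT 8 → pf J 0 ≠ 0 := by decide +kernel
theorem pf_ne1 : ∀ J : Fin 8, J ∈ patT 9 → pf J 1 ≠ 0 := by decide +kernel
theorem pf_ne2 : ∀ J : Fin 8, J ∈ patT 10 → pf J 2 ≠ 0 := by decide +kernel

def FJ (J : Fin 8) (t : Fin 12) : ℤ := if J ∈ patT t then 1 else 0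

def FS (S : Fin 8) (t : Fin 12) : ℤ :=
  ((Finset.univ.filter fun J : Fin 8 => J ∈ patT t ∧ L0 (rowT t J) J = S).card : ℤ)

theorem FJ_sum : ∀ J : Fin 8, (∑ I : Fin 8, FJ J (Fin.castLE (by norm_num) I)) = 3 ∧
    (FJ J 8 - FJ J 6) + (FJ J 9 - FJ J 6) + (FJ J 10 - FJ J 7) + (FJ J 11 - FJ J 0) = 0 := by decide +kernel

theorem FS_sum : ∀ S : Fin 8, (∑ I : Fin 8, FS S (Fin.castLE (by norm_num) I)) = 3 ∧
    (FS S 8 - FS S 6) + (FS S 9 - FS S 6) + (FS S 10 - FS S 7) + (FS S 11 - FS S 0) = 0 := by decide +kernel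

def ex (g : ℕ) : Fin 3 → Fin 8 × ZMod g := ![(6, 0), (6, 1), (7, 1)]

theorem ex_fst (g : ℕ) (u : Fin 3) : (ex g u).1 = exrow u := by
  fin_cases u <;> rfl

theorem ex_inj (g : ℕ) (h01 : (0 : ZMod g) ≠ 1) : Function.Injective (ex g) := by
  intro u v h
  have h10 : (1 : ZMod g) ≠ 0 := h01.symm
  fin_cases u <;> fin_cases v <;> simp [ex, Prod.ext_iff, h01, h10] at h ⊢

noncomputable def pi' (J : Fin 8) : Equiv.Perm (Fin 3) :=
  Equiv.ofBijective (pf J) (Finite.injective_iff_bijective.mp (fun u v h => pf_inj J u v h))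

noncomputable def src (g : ℕ) (hg : Function.Injective (ex g)) (J : Fin 8) :
    Equiv.Perm (Fin 8 × ZMod g) :=
  (pi' J).viaEmbedding ⟨ex g, hg⟩

theorem src_ex (g : ℕ) (hg : Function.Injective (ex g)) (J : Fin 8) (t : Fin 3) :
    src g hg J (ex g t) = ex g (pf J t) :=
  Equiv.Perm.viaEmbedding_apply (pi' J) ⟨ex g, hg⟩ t

theorem src_not (g : ℕ) (hg : Function.Injective (ex g)) (J : Fin 8) (ρ : Fin 8 × ZMod g)
    (h : ∀ t, ex g t ≠ ρ) : src g hg J ρ = ρ :=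
  Equiv.Perm.viaEmbedding_apply_of_notMem _ _ _ (by rintro ⟨t, ht⟩; exact h t ht)

def ty (g : ℕ) (ρ : Fin 8 × ZMod g) : Fin 12 :=
  if ρ = (6, 0) then 8 else if ρ = (6, 1) then 9 else if ρ = (7, 1) then 10 else if ρ = (0, 0) then 11 else Fin.castLE (by norm_num) ρ.1

theorem rowT_castLE : ∀ I J : Fin 8, rowT (Fin.castLE (by norm_num) I) J = I := by
  decide +kernel

theorem ty_ex0 (g : ℕ) : ty g (ex g 0) = 8 := by
  simp [ty, ex]

theorem ty_ex1 (g : ℕ) (h01 : (0 : ZMod g) ≠ 1) : ty g (ex g 1) = 9 := by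
  simp [ty, ex, h01.symm]

theorem ty_ex2 (g : ℕ) : ty g (ex g 2) = 10 := by
  simp [ty, ex]

theorem rowT_ty_not (g : ℕ) (ρ : Fin 8 × ZMod g) (h : ∀ t, ex g t ≠ ρ) (J : Fin 8) :
    rowT (ty g ρ) J = ρ.1 := by
  have h0 : ρ ≠ (6, 0) := fun h' => h 0 h'.symm
  have h1 : ρ ≠ (6, 1) := fun h' => h 1 h'.symm
  have h2 : ρ ≠ (7, 1) := fun h' => h 2 h'.symm
  unfold ty
  rw [if_neg h0, if_neg h1, if_neg h2]
  by_cases m0 : ρ = (0, 0)
  · rw [if_pos m0, m0]; rfl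
  rw [if_neg m0]
  exact rowT_castLE _ _

theorem src_row (g : ℕ) (h01 : (0 : ZMod g) ≠ 1) (hg : Function.Injective (ex g)) (J : Fin 8)
    (ρ : Fin 8 × ZMod g) : (src g hg J ρ).1 = rowT (ty g ρ) J := by
  by_cases h : ∃ t, ex g t = ρ
  · obtain ⟨t, rfl⟩ := h
    rw [src_ex, ex_fst]
    fin_cases t
    · change exrow (pf J 0) = rowT (ty g (ex g 0)) J
      rw [ty_ex0]; rfl
    · change exrow (pf J 1) = rowT (ty g (ex g 1)) J
      rw [ty_ex1 g h01]; rfl
    · change exrow (pf J 2) = rowT (ty g (ex g 2)) J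
      rw [ty_ex2]; rfl
  · push Not at h
    rw [src_not g hg J ρ h, rowT_ty_not g ρ h]

theorem sum_ty (g : ℕ) [NeZero g] (h01 : (0 : ZMod g) ≠ 1) (F : Fin 12 → ℤ) :
    ∑ ρ : Fin 8 × ZMod g, F (ty g ρ) =
      g * ∑ I : Fin 8, F (Fin.castLE (by norm_num) I) +
      ((F 8 - F 6) + (F 9 - F 6) + (F 10 - F 7) + (F 11 - F 0)) := by
  have h10 : (1 : ZMod g) ≠ 0 := h01.symm
  have key : ∀ ρ : Fin 8 × ZMod g, F (ty g ρ) = F (Fin.castLE (by norm_num) ρ.1)
      + (if ρ = (6, 0) then F 8 - F 6 else 0) + (if ρ = (6, 1) then F 9 - F 6 else 0) + (if ρ = (7, 1) then F 10 - F 7 else 0) + (if ρ = (0, 0) then F 11 - F 0 else 0) := by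
    intro ρ
    have c0 : (Fin.castLE (by norm_num) (0 : Fin 8) : Fin 12) = 0 := rfl
    have c6 : (Fin.castLE (by norm_num) (6 : Fin 8) : Fin 12) = 6 := rfl
    have c7 : (Fin.castLE (by norm_num) (7 : Fin 8) : Fin 12) = 7 := rfl
    have n0_1 : ((6 : Fin 8), (0 : ZMod g)) ≠ (6, 1) := by simp [h01, h10]
    have n0_2 : ((6 : Fin 8), (0 : ZMod g)) ≠ (7, 1) := by simp [h01, h10]
    have n0_3 : ((6 : Fin 8), (0 : ZMod g)) ≠ (0, 0) := by simp [h01, h10]
    have n1_2 : ((6 : Fin 8), (1 : ZMod g)) ≠ (7, 1) := by simp [h01, h10]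
    have n1_3 : ((6 : Fin 8), (1 : ZMod g)) ≠ (0, 0) := by simp [h01, h10]
    have n2_3 : ((7 : Fin 8), (1 : ZMod g)) ≠ (0, 0) := by simp [h01, h10]
    unfold ty
    by_cases q0 : ρ = (6, 0)
    · rw [q0, if_pos rfl, if_pos rfl, if_neg n0_1, if_neg n0_2, if_neg n0_3, c6]; ring
    rw [if_neg q0, if_neg q0]
    by_cases q1 : ρ = (6, 1)
    · rw [q1, if_pos rfl, if_pos rfl, if_neg n1_2, if_neg n1_3, c6]; ring
    rw [if_neg q1, if_neg q1]
    by_cases q2 : ρ = (7, 1)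
    · rw [q2, if_pos rfl, if_pos rfl, if_neg n2_3, c7]; ring
    rw [if_neg q2, if_neg q2]
    by_cases q3 : ρ = (0, 0)
    · rw [q3, if_pos rfl, if_pos rfl, c0]; ring
    rw [if_neg q3, if_neg q3]
    ring
  rw [Finset.sum_congr rfl (fun ρ _ => key ρ)]
  simp only [Finset.sum_add_distrib, Finset.sum_ite_eq', Finset.mem_univ, if_true]
  rw [Fintype.sum_prod_type]
  simp only [Finset.sum_const, Finset.card_univ, ZMod.card, nsmul_eq_mul, ← Finset.mul_sum]
  ring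

noncomputable def LL (g : ℕ) (hg : Function.Injective (ex g)) (ρ c : Fin 8 × ZMod g) :
    Fin 8 × ZMod g :=
  (L0 (src g hg c.1 ρ).1 c.1,
    -(src g hg c.1 ρ).2 - c.2 - ((tau (src g hg c.1 ρ).1 c.1 : ℕ) : ZMod g))

theorem LL_latin (g : ℕ) [NeZero g] (h01 : (0 : ZMod g) ≠ 1) (hg : Function.Injective (ex g)) :
    IsLatin (LL g hg) := by
  refine ⟨fun ρ => Finite.injective_iff_bijective.mp ?_,
    fun c => Finite.injective_iff_bijective.mp ?_⟩
  · rintro ⟨J, j⟩ ⟨J', j'⟩ h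
    have e1 := congrArg Prod.fst h
    have e2 := congrArg Prod.snd h
    simp only [LL] at e1 e2
    rw [src_row g h01, src_row g h01] at e1
    have hJ := rowT_inj _ _ _ e1
    subst hJ
    have : j = j' := by
      have e3 := sub_left_injective e2
      simpa using e3
    rw [this]
  · rintro ρ ρ' h
    have e1 := congrArg Prod.fst h
    have e2 := congrArg Prod.snd h
    simp only [LL] at e1 e2
    have hI := L0_col _ _ _ e1
    rw [hI] at e2
    have e3 : (src g hg c.1 ρ).2 = (src g hg c.1 ρ').2 := by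
      have := sub_left_injective (sub_left_injective e2)
      simpa using this
    exact (src g hg c.1).injective (Prod.ext hI e3)

def PP (g : ℕ) [NeZero g] : Finset ((Fin 8 × ZMod g) × (Fin 8 × ZMod g)) :=
  Finset.univ.filter fun p => p.2.1 ∈ patT (ty g p.1)

theorem PP_row (g : ℕ) [NeZero g] (ρ : Fin 8 × ZMod g) :
    ((PP g).filter fun c => c.1 = ρ).card = 3 * g := by
  have : ((PP g).filter fun c => c.1 = ρ) =
      ({ρ} : Finset (Fin 8 × ZMod g)) ×ˢ (patT (ty g ρ) ×ˢ (Finset.univ : Finset (ZMod g))) := by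
    ext p
    simp only [PP, Finset.mem_filter, Finset.mem_univ, true_and, Finset.mem_product,
      Finset.mem_singleton, and_true]
    constructor
    · rintro ⟨h1, h2⟩; subst h2; exact ⟨rfl, h1⟩
    · rintro ⟨h1, h2⟩; subst h1; exact ⟨h2, rfl⟩
  rw [this, Finset.card_product, Finset.card_product, patT_card]
  simp [ZMod.card]

theorem PP_col (g : ℕ) [NeZero g] (h01 : (0 : ZMod g) ≠ 1) (c : Fin 8 × ZMod g) :
    ((PP g).filter fun p => p.2 = c).card = 3 * g := by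
  have h : ((PP g).filter fun p => p.2 = c) =
      (Finset.univ.filter fun ρ : Fin 8 × ZMod g => c.1 ∈ patT (ty g ρ)) ×ˢ
        ({c} : Finset (Fin 8 × ZMod g)) := by
    ext p
    simp only [PP, Finset.mem_filter, Finset.mem_univ, true_and, Finset.mem_product,
      Finset.mem_singleton]
    constructor
    · rintro ⟨h1, h2⟩; subst h2; exact ⟨h1, rfl⟩
    · rintro ⟨h1, h2⟩; subst h2; exact ⟨h1, rfl⟩
  rw [h, Finset.card_product, Finset.card_singleton, mul_one]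
  have h2 := sum_ty g h01 (FJ c.1)
  rw [(FJ_sum c.1).1, (FJ_sum c.1).2] at h2
  have h3 : ((Finset.univ.filter fun ρ : Fin 8 × ZMod g => c.1 ∈ patT (ty g ρ)).card : ℤ) =
      ∑ ρ : Fin 8 × ZMod g, FJ c.1 (ty g ρ) := by
    simp [FJ]
  have h4 : ((Finset.univ.filter fun ρ : Fin 8 × ZMod g => c.1 ∈ patT (ty g ρ)).card : ℤ) =
      3 * g := by rw [h3, h2]; ring
  exact_mod_cast h4

theorem PP_sym (g : ℕ) [NeZero g] (h01 : (0 : ZMod g) ≠ 1) (hg : Function.Injective (ex g))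
    (s : Fin 8 × ZMod g) :
    ((PP g).filter fun p => LL g hg p.1 p.2 = s).card = 3 * g := by
  have h1 : ((PP g).filter fun p => LL g hg p.1 p.2 = s).card =
      (Finset.univ.filter fun q : (Fin 8 × ZMod g) × Fin 8 =>
        q.2 ∈ patT (ty g q.1) ∧ L0 (rowT (ty g q.1) q.2) q.2 = s.1).card := by
    refine Finset.card_nbij' (fun p => (p.1, p.2.1))
      (fun q => (q.1, (q.2, -(src g hg q.2 q.1).2 -
        ((tau (src g hg q.2 q.1).1 q.2 : ℕ) : ZMod g) - s.2))) ?_ ?_ ?_ ?_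
    · intro p hp
      simp only [PP, Finset.coe_filter, Finset.mem_filter, Finset.mem_univ, true_and,
        Set.mem_ofPred_eq] at hp ⊢
      refine ⟨hp.1, ?_⟩
      rw [← hp.2, ← src_row g h01 hg]
      rfl
    · intro q hq
      simp only [PP, Finset.coe_filter, Finset.mem_filter, Finset.mem_univ, true_and,
        Set.mem_ofPred_eq] at hq ⊢
      refine ⟨hq.1, ?_⟩
      rw [← src_row g h01 hg] at hq
      refine Prod.ext hq.2 ?_
      simp only [LL]
      ring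
    · rintro ⟨ρ, J, j⟩ hp
      simp only [PP, Finset.coe_filter, Finset.mem_filter, Finset.mem_univ, true_and,
        Set.mem_ofPred_eq] at hp ⊢
      have e2 := congrArg Prod.snd hp.2
      simp only [LL] at e2
      rw [← e2]
      refine Prod.ext rfl (Prod.ext rfl ?_)
      simp only
      ring
    · rintro ⟨ρ, J⟩ hq
      rfl
  rw [h1]
  have h2 := sum_ty g h01 (FS s.1)
  rw [(FS_sum s.1).1, (FS_sum s.1).2] at h2
  have h3 : ((Finset.univ.filter fun q : (Fin 8 × ZMod g) × Fin 8 =>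
        q.2 ∈ patT (ty g q.1) ∧ L0 (rowT (ty g q.1) q.2) q.2 = s.1).card : ℤ) =
      ∑ ρ : Fin 8 × ZMod g, FS s.1 (ty g ρ) := by
    rw [Finset.card_filter, Fintype.sum_prod_type]
    push_cast
    refine Finset.sum_congr rfl fun ρ _ => ?_
    rw [FS, Finset.card_filter]
    push_cast
    rfl
  have h4 : ((Finset.univ.filter fun q : (Fin 8 × ZMod g) × Fin 8 =>
        q.2 ∈ patT (ty g q.1) ∧ L0 (rowT (ty g q.1) q.2) q.2 = s.1).card : ℤ) =
      3 * g := by rw [h3, h2]; ring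
  exact_mod_cast h4

/-- row labels -/
noncomputable def lamR (g : ℕ) [NeZero g] (ρ : Fin 8 × ZMod g) : ZMod (3 * g) :=
  (rl ρ.1 : ZMod (3 * g)) + phi 3 g ρ.2 + (if ρ = (6, 0) then phi 3 g 1 else 0)

noncomputable def lamC (g : ℕ) [NeZero g] (c : Fin 8 × ZMod g) : ZMod (3 * g) :=
  (rl c.1 : ZMod (3 * g)) + phi 3 g c.2

noncomputable def lamS (g : ℕ) [NeZero g] (s : Fin 8 × ZMod g) : ZMod (3 * g) :=
  (sl s.1 : ZMod (3 * g)) + phi 3 g s.2

theorem lam_src (g : ℕ) [NeZero g] (h01 : (0 : ZMod g) ≠ 1) (hg : Function.Injective (ex g))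
    (ρ : Fin 8 × ZMod g) (J : Fin 8) (hJ : J ∈ patT (ty g ρ)) :
    lamR g ρ = (rl (src g hg J ρ).1 : ZMod (3 * g)) + phi 3 g (src g hg J ρ).2 := by
  have hu : ∀ u : Fin 3, u ≠ 0 → rl (ex g u).1 = 2 ∧ (ex g u).2 = 1 := by
    intro u hu
    fin_cases u
    · exact absurd rfl hu
    · exact ⟨rfl, rfl⟩
    · exact ⟨rfl, rfl⟩
  by_cases h : ∃ t, ex g t = ρ
  · obtain ⟨t, rfl⟩ := h
    rw [src_ex]
    have hne : pf J t ≠ 0 := by
      fin_cases t
      · exact pf_ne0 J (by rw [← ty_ex0 g]; exact hJ)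
      · exact pf_ne1 J (by rw [← ty_ex1 g h01]; exact hJ)
      · exact pf_ne2 J (by rw [← ty_ex2 g]; exact hJ)
    rw [(hu _ hne).1, (hu _ hne).2]
    fin_cases t
    · simp [lamR, ex, rl]
    · have : ((6 : Fin 8), (1 : ZMod g)) ≠ (6, 0) := by simp [h01.symm]
      change (rl 6 : ZMod (3 * g)) + phi 3 g 1 +
        (if ((6 : Fin 8), (1 : ZMod g)) = (6, 0) then phi 3 g 1 else 0) = _
      rw [if_neg this, add_zero]
      rfl
    · have : ((7 : Fin 8), (1 : ZMod g)) ≠ (6, 0) := by simp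
      change (rl 7 : ZMod (3 * g)) + phi 3 g 1 +
        (if ((7 : Fin 8), (1 : ZMod g)) = (6, 0) then phi 3 g 1 else 0) = _
      rw [if_neg this, add_zero]
      rfl
  · push Not at h
    rw [src_not g hg J ρ h, lamR, if_neg (fun h' => h 0 h'.symm), add_zero]

theorem PP_zero (g : ℕ) [NeZero g] (h01 : (0 : ZMod g) ≠ 1) (hg : Function.Injective (ex g))
    (p : (Fin 8 × ZMod g) × (Fin 8 × ZMod g)) (hp : p ∈ PP g) :
    lamR g p.1 + lamC g p.2 + lamS g (LL g hg p.1 p.2) = 0 := by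
  obtain ⟨ρ, J, j⟩ := p
  simp only [PP, Finset.mem_filter, Finset.mem_univ, true_and] at hp
  have hz := zero_coarse _ _ hp
  rw [← src_row g h01 hg] at hz
  simp only
  rw [lam_src g h01 hg ρ J hp]
  simp only [lamC, lamS, LL, map_sub, map_neg, phi_natCast]
  have hz' := congrArg (fun n : ℕ => (n : ZMod (3 * g))) hz
  simp only [Nat.cast_add, Nat.cast_mul, Nat.cast_ofNat] at hz'
  linear_combination hz'


theorem W_eq (g : ℕ) [NeZero g] (hodd : Odd g) :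
    ∑ ρ, lamR g ρ + ∑ c, lamC g c + ∑ s, lamS g s = ((23 * g + 3 : ℕ) : ZMod (3 * g)) := by
  have hphi : phi 3 g 1 = ((3 : ℕ) : ZMod (3 * g)) := by
    have := phi_natCast 3 g 1
    simpa using this
  have hC : ∑ c, lamC g c = ((7 * g : ℕ) : ZMod (3 * g)) := by
    simp only [lamC]
    rw [Fintype.sum_prod_type]
    simp only [Finset.sum_add_distrib, phi_sum 3 g hodd, Finset.sum_const, Finset.card_univ,
      ZMod.card, nsmul_eq_mul, add_zero]
    rw [← Finset.mul_sum, ← Nat.cast_sum, ← Nat.cast_mul]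
    congr 1
    have : ∑ i : Fin 8, rl i = 7 := by decide
    rw [this]; ring
  have hS : ∑ s, lamS g s = ((9 * g : ℕ) : ZMod (3 * g)) := by
    simp only [lamS]
    rw [Fintype.sum_prod_type]
    simp only [Finset.sum_add_distrib, phi_sum 3 g hodd, Finset.sum_const, Finset.card_univ,
      ZMod.card, nsmul_eq_mul, add_zero]
    rw [← Finset.mul_sum, ← Nat.cast_sum, ← Nat.cast_mul]
    congr 1
    have : ∑ i : Fin 8, sl i = 9 := by decide
    rw [this]; ring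
  have hR : ∑ ρ, lamR g ρ = ((7 * g : ℕ) : ZMod (3 * g)) + ((3 : ℕ) : ZMod (3 * g)) := by
    have : ∀ ρ, lamR g ρ = lamC g ρ + (if ρ = (6, 0) then phi 3 g 1 else 0) := fun ρ => rfl
    simp only [this]
    rw [Finset.sum_add_distrib, hC, Finset.sum_ite_eq', if_pos (Finset.mem_univ _), hphi]
  rw [hR, hC, hS]
  push_cast
  ring

theorem exists_indivisible (g : ℕ) (hodd : Odd g) (h1 : 1 < g) (h5 : Nat.Coprime g 3) :
    HasIndivisiblePlex (8 * g) (3 * g) := by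
  have : NeZero g := ⟨by omega⟩
  have : Fact (1 < g) := ⟨h1⟩
  have h01 : (0 : ZMod g) ≠ 1 := zero_ne_one
  have hg := ex_inj g h01
  have hcard : Fintype.card (Fin 8 × ZMod g) = 8 * g := by
    simp [ZMod.card]
  have e : (Fin 8 × ZMod g) ≃ Fin (8 * g) := Fintype.equivFinOfCardEq hcard
  refine transport (8 * g) e e e (LL g hg) (LL_latin g h01 hg) (3 * g) (PP g)
    ⟨PP_row g, PP_col g h01, PP_sym g h01 hg⟩ (lamR g) (lamC g) (lamS g)
    (fun p hp => PP_zero g h01 hg p hp) ?_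
  rw [W_eq g hodd]
  refine (ZMod.isUnit_iff_coprime _ _).mpr ?_
  refine Nat.Coprime.mul_right ?_ ?_
  · have : Nat.Coprime (23 * g) 3 := Nat.Coprime.mul_left (by norm_num) h5
    first
      | exact Nat.coprime_add_self_left.mpr this
      | simpa using this
  · have : Nat.Coprime 3 g := h5.symm
    simpa using this

end F8_3

namespace F10_3

def L0 : Fin 10 → Fin 10 → Fin 10 :=
  ![![0, 6, 5, 4, 7, 3, 2, 9, 1, 8], ![1, 8, 6, 5, 0, 2, 3, 4, 9, 7], ![6, 2, 8, 0, 4, 1, 9, 5, 7, 3], ![9, 5, 4, 6, 3, 0, 1, 7, 8, 2], ![4, 1, 0, 3, 2, 8, 7, 6, 5, 9], ![5, 3, 9, 2, 1, 7, 0, 8, 6, 4], ![2, 0, 1, 7, 9, 5, 8, 3, 4, 6], ![3, 4, 7, 1, 8, 9, 6, 0, 2, 5], ![8, 7, 3, 9, 5, 6, 4, 2, 0, 1], ![7, 9, 2, 8, 6, 4, 5, 1, 3, 0]]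

def rl : Fin 10 → ℕ := ![0, 0, 0, 0, 1, 1, 1, 2, 2, 2]

def sl : Fin 10 → ℕ := ![2, 2, 2, 2, 0, 0, 0, 1, 1, 1]

def tau (I J : Fin 10) : ℕ := (rl I + rl J + sl (L0 I J)) / 3

def pf : Fin 10 → Fin 3 → Fin 3 :=
  ![![0, 2, 1], ![0, 2, 1], ![2, 0, 1], ![0, 2, 1], ![2, 0, 1], ![2, 0, 1], ![2, 1, 0], ![2, 0, 1], ![2, 0, 1], ![2, 0, 1]]

def exrow : Fin 3 → Fin 10 := ![9, 9, 8]

def patT : Fin 14 → Finset (Fin 10) :=
  ![{3, 5, 7}, {3, 4, 9}, {0, 5, 8}, {1, 2, 4}, {1, 2, 5}, {3, 8, 9}, {0, 4, 6}, {2, 6, 7}, {0, 7, 9}, {1, 6, 8}, {4, 7, 9}, {0, 1, 6}, {1, 8, 9}, {3, 6, 8}]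

def rowT (t : Fin 14) (J : Fin 10) : Fin 10 :=
  (![0, 1, 2, 3, 4, 5, 6, 7, 8, 9, exrow (pf J 0), exrow (pf J 1), exrow (pf J 2), 1] : Fin 14 → Fin 10) t

theorem L0_col : ∀ J I I' : Fin 10, L0 I J = L0 I' J → I = I' := by decide +kernel

theorem rowT_inj : ∀ (t : Fin 14) (J J' : Fin 10),
    L0 (rowT t J) J = L0 (rowT t J') J' → J = J' := by decide +kernel

theorem pf_inj : ∀ J : Fin 10, ∀ u v : Fin 3, pf J u = pf J v → u = v := by decide +kernel

theorem zero_coarse : ∀ (t : Fin 14) (J : Fin 10), J ∈ patT t →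
    rl (rowT t J) + rl J + sl (L0 (rowT t J) J) = 3 * tau (rowT t J) J := by decide +kernel

theorem patT_card : ∀ t : Fin 14, (patT t).card = 3 := by decide +kernel

theorem pf_ne0 : ∀ J : Fin 10, J ∈ patT 10 → pf J 0 ≠ 0 := by decide +kernel
theorem pf_ne1 : ∀ J : Fin 10, J ∈ patT 11 → pf J 1 ≠ 0 := by decide +kernel
theorem pf_ne2 : ∀ J : Fin 10, J ∈ patT 12 → pf J 2 ≠ 0 := by decide +kernel

def FJ (J : Fin 10) (t : Fin 14) : ℤ := if J ∈ patT t then 1 else 0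

def FS (S : Fin 10) (t : Fin 14) : ℤ :=
  ((Finset.univ.filter fun J : Fin 10 => J ∈ patT t ∧ L0 (rowT t J) J = S).card : ℤ)

theorem FJ_sum : ∀ J : Fin 10, (∑ I : Fin 10, FJ J (Fin.castLE (by norm_num) I)) = 3 ∧
    (FJ J 10 - FJ J 9) + (FJ J 11 - FJ J 9) + (FJ J 12 - FJ J 8) + (FJ J 13 - FJ J 1) = 0 := by decide +kernel

theorem FS_sum : ∀ S : Fin 10, (∑ I : Fin 10, FS S (Fin.castLE (by norm_num) I)) = 3 ∧
    (FS S 10 - FS S 9) + (FS S 11 - FS S 9) + (FS S 12 - FS S 8) + (FS S 13 - FS S 1) = 0 := by decide +kernel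

def ex (g : ℕ) : Fin 3 → Fin 10 × ZMod g := ![(9, 0), (9, 1), (8, 1)]

theorem ex_fst (g : ℕ) (u : Fin 3) : (ex g u).1 = exrow u := by
  fin_cases u <;> rfl

theorem ex_inj (g : ℕ) (h01 : (0 : ZMod g) ≠ 1) : Function.Injective (ex g) := by
  intro u v h
  have h10 : (1 : ZMod g) ≠ 0 := h01.symm
  fin_cases u <;> fin_cases v <;> simp [ex, Prod.ext_iff, h01, h10] at h ⊢

noncomputable def pi' (J : Fin 10) : Equiv.Perm (Fin 3) :=
  Equiv.ofBijective (pf J) (Finite.injective_iff_bijective.mp (fun u v h => pf_inj J u v h))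

noncomputable def src (g : ℕ) (hg : Function.Injective (ex g)) (J : Fin 10) :
    Equiv.Perm (Fin 10 × ZMod g) :=
  (pi' J).viaEmbedding ⟨ex g, hg⟩

theorem src_ex (g : ℕ) (hg : Function.Injective (ex g)) (J : Fin 10) (t : Fin 3) :
    src g hg J (ex g t) = ex g (pf J t) :=
  Equiv.Perm.viaEmbedding_apply (pi' J) ⟨ex g, hg⟩ t

theorem src_not (g : ℕ) (hg : Function.Injective (ex g)) (J : Fin 10) (ρ : Fin 10 × ZMod g)
    (h : ∀ t, ex g t ≠ ρ) : src g hg J ρ = ρ :=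
  Equiv.Perm.viaEmbedding_apply_of_notMem _ _ _ (by rintro ⟨t, ht⟩; exact h t ht)

def ty (g : ℕ) (ρ : Fin 10 × ZMod g) : Fin 14 :=
  if ρ = (9, 0) then 10 else if ρ = (9, 1) then 11 else if ρ = (8, 1) then 12 else if ρ = (1, 0) then 13 else Fin.castLE (by norm_num) ρ.1

theorem rowT_castLE : ∀ I J : Fin 10, rowT (Fin.castLE (by norm_num) I) J = I := by
  decide +kernel

theorem ty_ex0 (g : ℕ) : ty g (ex g 0) = 10 := by
  simp [ty, ex]

theorem ty_ex1 (g : ℕ) (h01 : (0 : ZMod g) ≠ 1) : ty g (ex g 1) = 11 := by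
  simp [ty, ex, h01.symm]

theorem ty_ex2 (g : ℕ) : ty g (ex g 2) = 12 := by
  simp [ty, ex]

theorem rowT_ty_not (g : ℕ) (ρ : Fin 10 × ZMod g) (h : ∀ t, ex g t ≠ ρ) (J : Fin 10) :
    rowT (ty g ρ) J = ρ.1 := by
  have h0 : ρ ≠ (9, 0) := fun h' => h 0 h'.symm
  have h1 : ρ ≠ (9, 1) := fun h' => h 1 h'.symm
  have h2 : ρ ≠ (8, 1) := fun h' => h 2 h'.symm
  unfold ty
  rw [if_neg h0, if_neg h1, if_neg h2]
  by_cases m0 : ρ = (1, 0)
  · rw [if_pos m0, m0]; rfl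
  rw [if_neg m0]
  exact rowT_castLE _ _

theorem src_row (g : ℕ) (h01 : (0 : ZMod g) ≠ 1) (hg : Function.Injective (ex g)) (J : Fin 10)
    (ρ : Fin 10 × ZMod g) : (src g hg J ρ).1 = rowT (ty g ρ) J := by
  by_cases h : ∃ t, ex g t = ρ
  · obtain ⟨t, rfl⟩ := h
    rw [src_ex, ex_fst]
    fin_cases t
    · change exrow (pf J 0) = rowT (ty g (ex g 0)) J
      rw [ty_ex0]; rfl
    · change exrow (pf J 1) = rowT (ty g (ex g 1)) J
      rw [ty_ex1 g h01]; rfl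
    · change exrow (pf J 2) = rowT (ty g (ex g 2)) J
      rw [ty_ex2]; rfl
  · push Not at h
    rw [src_not g hg J ρ h, rowT_ty_not g ρ h]

theorem sum_ty (g : ℕ) [NeZero g] (h01 : (0 : ZMod g) ≠ 1) (F : Fin 14 → ℤ) :
    ∑ ρ : Fin 10 × ZMod g, F (ty g ρ) =
      g * ∑ I : Fin 10, F (Fin.castLE (by norm_num) I) +
      ((F 10 - F 9) + (F 11 - F 9) + (F 12 - F 8) + (F 13 - F 1)) := by
  have h10 : (1 : ZMod g) ≠ 0 := h01.symm
  have key : ∀ ρ : Fin 10 × ZMod g, F (ty g ρ) = F (Fin.castLE (by norm_num) ρ.1)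
      + (if ρ = (9, 0) then F 10 - F 9 else 0) + (if ρ = (9, 1) then F 11 - F 9 else 0) + (if ρ = (8, 1) then F 12 - F 8 else 0) + (if ρ = (1, 0) then F 13 - F 1 else 0) := by
    intro ρ
    have c1 : (Fin.castLE (by norm_num) (1 : Fin 10) : Fin 14) = 1 := rfl
    have c8 : (Fin.castLE (by norm_num) (8 : Fin 10) : Fin 14) = 8 := rfl
    have c9 : (Fin.castLE (by norm_num) (9 : Fin 10) : Fin 14) = 9 := rfl
    have n0_1 : ((9 : Fin 10), (0 : ZMod g)) ≠ (9, 1) := by simp [h01, h10]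
    have n0_2 : ((9 : Fin 10), (0 : ZMod g)) ≠ (8, 1) := by simp [h01, h10]
    have n0_3 : ((9 : Fin 10), (0 : ZMod g)) ≠ (1, 0) := by simp [h01, h10]
    have n1_2 : ((9 : Fin 10), (1 : ZMod g)) ≠ (8, 1) := by simp [h01, h10]
    have n1_3 : ((9 : Fin 10), (1 : ZMod g)) ≠ (1, 0) := by simp [h01, h10]
    have n2_3 : ((8 : Fin 10), (1 : ZMod g)) ≠ (1, 0) := by simp [h01, h10]
    unfold ty
    by_cases q0 : ρ = (9, 0)
    · rw [q0, if_pos rfl, if_pos rfl, if_neg n0_1, if_neg n0_2, if_neg n0_3, c9]; ring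
    rw [if_neg q0, if_neg q0]
    by_cases q1 : ρ = (9, 1)
    · rw [q1, if_pos rfl, if_pos rfl, if_neg n1_2, if_neg n1_3, c9]; ring
    rw [if_neg q1, if_neg q1]
    by_cases q2 : ρ = (8, 1)
    · rw [q2, if_pos rfl, if_pos rfl, if_neg n2_3, c8]; ring
    rw [if_neg q2, if_neg q2]
    by_cases q3 : ρ = (1, 0)
    · rw [q3, if_pos rfl, if_pos rfl, c1]; ring
    rw [if_neg q3, if_neg q3]
    ring
  rw [Finset.sum_congr rfl (fun ρ _ => key ρ)]
  simp only [Finset.sum_add_distrib, Finset.sum_ite_eq', Finset.mem_univ, if_true]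
  rw [Fintype.sum_prod_type]
  simp only [Finset.sum_const, Finset.card_univ, ZMod.card, nsmul_eq_mul, ← Finset.mul_sum]
  ring

noncomputable def LL (g : ℕ) (hg : Function.Injective (ex g)) (ρ c : Fin 10 × ZMod g) :
    Fin 10 × ZMod g :=
  (L0 (src g hg c.1 ρ).1 c.1,
    -(src g hg c.1 ρ).2 - c.2 - ((tau (src g hg c.1 ρ).1 c.1 : ℕ) : ZMod g))

theorem LL_latin (g : ℕ) [NeZero g] (h01 : (0 : ZMod g) ≠ 1) (hg : Function.Injective (ex g)) :
    IsLatin (LL g hg) := by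
  refine ⟨fun ρ => Finite.injective_iff_bijective.mp ?_,
    fun c => Finite.injective_iff_bijective.mp ?_⟩
  · rintro ⟨J, j⟩ ⟨J', j'⟩ h
    have e1 := congrArg Prod.fst h
    have e2 := congrArg Prod.snd h
    simp only [LL] at e1 e2
    rw [src_row g h01, src_row g h01] at e1
    have hJ := rowT_inj _ _ _ e1
    subst hJ
    have : j = j' := by
      have e3 := sub_left_injective e2
      simpa using e3
    rw [this]
  · rintro ρ ρ' h
    have e1 := congrArg Prod.fst h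
    have e2 := congrArg Prod.snd h
    simp only [LL] at e1 e2
    have hI := L0_col _ _ _ e1
    rw [hI] at e2
    have e3 : (src g hg c.1 ρ).2 = (src g hg c.1 ρ').2 := by
      have := sub_left_injective (sub_left_injective e2)
      simpa using this
    exact (src g hg c.1).injective (Prod.ext hI e3)

def PP (g : ℕ) [NeZero g] : Finset ((Fin 10 × ZMod g) × (Fin 10 × ZMod g)) :=
  Finset.univ.filter fun p => p.2.1 ∈ patT (ty g p.1)

theorem PP_row (g : ℕ) [NeZero g] (ρ : Fin 10 × ZMod g) :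
    ((PP g).filter fun c => c.1 = ρ).card = 3 * g := by
  have : ((PP g).filter fun c => c.1 = ρ) =
      ({ρ} : Finset (Fin 10 × ZMod g)) ×ˢ (patT (ty g ρ) ×ˢ (Finset.univ : Finset (ZMod g))) := by
    ext p
    simp only [PP, Finset.mem_filter, Finset.mem_univ, true_and, Finset.mem_product,
      Finset.mem_singleton, and_true]
    constructor
    · rintro ⟨h1, h2⟩; subst h2; exact ⟨rfl, h1⟩
    · rintro ⟨h1, h2⟩; subst h1; exact ⟨h2, rfl⟩
  rw [this, Finset.card_product, Finset.card_product, patT_card]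
  simp [ZMod.card]

theorem PP_col (g : ℕ) [NeZero g] (h01 : (0 : ZMod g) ≠ 1) (c : Fin 10 × ZMod g) :
    ((PP g).filter fun p => p.2 = c).card = 3 * g := by
  have h : ((PP g).filter fun p => p.2 = c) =
      (Finset.univ.filter fun ρ : Fin 10 × ZMod g => c.1 ∈ patT (ty g ρ)) ×ˢ
        ({c} : Finset (Fin 10 × ZMod g)) := by
    ext p
    simp only [PP, Finset.mem_filter, Finset.mem_univ, true_and, Finset.mem_product,
      Finset.mem_singleton]
    constructor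
    · rintro ⟨h1, h2⟩; subst h2; exact ⟨h1, rfl⟩
    · rintro ⟨h1, h2⟩; subst h2; exact ⟨h1, rfl⟩
  rw [h, Finset.card_product, Finset.card_singleton, mul_one]
  have h2 := sum_ty g h01 (FJ c.1)
  rw [(FJ_sum c.1).1, (FJ_sum c.1).2] at h2
  have h3 : ((Finset.univ.filter fun ρ : Fin 10 × ZMod g => c.1 ∈ patT (ty g ρ)).card : ℤ) =
      ∑ ρ : Fin 10 × ZMod g, FJ c.1 (ty g ρ) := by
    simp [FJ]
  have h4 : ((Finset.univ.filter fun ρ : Fin 10 × ZMod g => c.1 ∈ patT (ty g ρ)).card : ℤ) =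
      3 * g := by rw [h3, h2]; ring
  exact_mod_cast h4

theorem PP_sym (g : ℕ) [NeZero g] (h01 : (0 : ZMod g) ≠ 1) (hg : Function.Injective (ex g))
    (s : Fin 10 × ZMod g) :
    ((PP g).filter fun p => LL g hg p.1 p.2 = s).card = 3 * g := by
  have h1 : ((PP g).filter fun p => LL g hg p.1 p.2 = s).card =
      (Finset.univ.filter fun q : (Fin 10 × ZMod g) × Fin 10 =>
        q.2 ∈ patT (ty g q.1) ∧ L0 (rowT (ty g q.1) q.2) q.2 = s.1).card := by
    refine Finset.card_nbij' (fun p => (p.1, p.2.1))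
      (fun q => (q.1, (q.2, -(src g hg q.2 q.1).2 -
        ((tau (src g hg q.2 q.1).1 q.2 : ℕ) : ZMod g) - s.2))) ?_ ?_ ?_ ?_
    · intro p hp
      simp only [PP, Finset.coe_filter, Finset.mem_filter, Finset.mem_univ, true_and,
        Set.mem_ofPred_eq] at hp ⊢
      refine ⟨hp.1, ?_⟩
      rw [← hp.2, ← src_row g h01 hg]
      rfl
    · intro q hq
      simp only [PP, Finset.coe_filter, Finset.mem_filter, Finset.mem_univ, true_and,
        Set.mem_ofPred_eq] at hq ⊢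
      refine ⟨hq.1, ?_⟩
      rw [← src_row g h01 hg] at hq
      refine Prod.ext hq.2 ?_
      simp only [LL]
      ring
    · rintro ⟨ρ, J, j⟩ hp
      simp only [PP, Finset.coe_filter, Finset.mem_filter, Finset.mem_univ, true_and,
        Set.mem_ofPred_eq] at hp ⊢
      have e2 := congrArg Prod.snd hp.2
      simp only [LL] at e2
      rw [← e2]
      refine Prod.ext rfl (Prod.ext rfl ?_)
      simp only
      ring
    · rintro ⟨ρ, J⟩ hq
      rfl
  rw [h1]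
  have h2 := sum_ty g h01 (FS s.1)
  rw [(FS_sum s.1).1, (FS_sum s.1).2] at h2
  have h3 : ((Finset.univ.filter fun q : (Fin 10 × ZMod g) × Fin 10 =>
        q.2 ∈ patT (ty g q.1) ∧ L0 (rowT (ty g q.1) q.2) q.2 = s.1).card : ℤ) =
      ∑ ρ : Fin 10 × ZMod g, FS s.1 (ty g ρ) := by
    rw [Finset.card_filter, Fintype.sum_prod_type]
    push_cast
    refine Finset.sum_congr rfl fun ρ _ => ?_
    rw [FS, Finset.card_filter]
    push_cast
    rfl
  have h4 : ((Finset.univ.filter fun q : (Fin 10 × ZMod g) × Fin 10 =>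
        q.2 ∈ patT (ty g q.1) ∧ L0 (rowT (ty g q.1) q.2) q.2 = s.1).card : ℤ) =
      3 * g := by rw [h3, h2]; ring
  exact_mod_cast h4

/-- row labels -/
noncomputable def lamR (g : ℕ) [NeZero g] (ρ : Fin 10 × ZMod g) : ZMod (3 * g) :=
  (rl ρ.1 : ZMod (3 * g)) + phi 3 g ρ.2 + (if ρ = (9, 0) then phi 3 g 1 else 0)

noncomputable def lamC (g : ℕ) [NeZero g] (c : Fin 10 × ZMod g) : ZMod (3 * g) :=
  (rl c.1 : ZMod (3 * g)) + phi 3 g c.2

noncomputable def lamS (g : ℕ) [NeZero g] (s : Fin 10 × ZMod g) : ZMod (3 * g) :=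
  (sl s.1 : ZMod (3 * g)) + phi 3 g s.2

theorem lam_src (g : ℕ) [NeZero g] (h01 : (0 : ZMod g) ≠ 1) (hg : Function.Injective (ex g))
    (ρ : Fin 10 × ZMod g) (J : Fin 10) (hJ : J ∈ patT (ty g ρ)) :
    lamR g ρ = (rl (src g hg J ρ).1 : ZMod (3 * g)) + phi 3 g (src g hg J ρ).2 := by
  have hu : ∀ u : Fin 3, u ≠ 0 → rl (ex g u).1 = 2 ∧ (ex g u).2 = 1 := by
    intro u hu
    fin_cases u
    · exact absurd rfl hu
    · exact ⟨rfl, rfl⟩
    · exact ⟨rfl, rfl⟩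
  by_cases h : ∃ t, ex g t = ρ
  · obtain ⟨t, rfl⟩ := h
    rw [src_ex]
    have hne : pf J t ≠ 0 := by
      fin_cases t
      · exact pf_ne0 J (by rw [← ty_ex0 g]; exact hJ)
      · exact pf_ne1 J (by rw [← ty_ex1 g h01]; exact hJ)
      · exact pf_ne2 J (by rw [← ty_ex2 g]; exact hJ)
    rw [(hu _ hne).1, (hu _ hne).2]
    fin_cases t
    · simp [lamR, ex, rl]
    · have : ((9 : Fin 10), (1 : ZMod g)) ≠ (9, 0) := by simp [h01.symm]
      change (rl 9 : ZMod (3 * g)) + phi 3 g 1 +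
        (if ((9 : Fin 10), (1 : ZMod g)) = (9, 0) then phi 3 g 1 else 0) = _
      rw [if_neg this, add_zero]
      rfl
    · have : ((8 : Fin 10), (1 : ZMod g)) ≠ (9, 0) := by simp
      change (rl 8 : ZMod (3 * g)) + phi 3 g 1 +
        (if ((8 : Fin 10), (1 : ZMod g)) = (9, 0) then phi 3 g 1 else 0) = _
      rw [if_neg this, add_zero]
      rfl
  · push Not at h
    rw [src_not g hg J ρ h, lamR, if_neg (fun h' => h 0 h'.symm), add_zero]

theorem PP_zero (g : ℕ) [NeZero g] (h01 : (0 : ZMod g) ≠ 1) (hg : Function.Injective (ex g))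
    (p : (Fin 10 × ZMod g) × (Fin 10 × ZMod g)) (hp : p ∈ PP g) :
    lamR g p.1 + lamC g p.2 + lamS g (LL g hg p.1 p.2) = 0 := by
  obtain ⟨ρ, J, j⟩ := p
  simp only [PP, Finset.mem_filter, Finset.mem_univ, true_and] at hp
  have hz := zero_coarse _ _ hp
  rw [← src_row g h01 hg] at hz
  simp only
  rw [lam_src g h01 hg ρ J hp]
  simp only [lamC, lamS, LL, map_sub, map_neg, phi_natCast]
  have hz' := congrArg (fun n : ℕ => (n : ZMod (3 * g))) hz
  simp only [Nat.cast_add, Nat.cast_mul, Nat.cast_ofNat] at hz'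
  linear_combination hz'


theorem W_eq (g : ℕ) [NeZero g] (hodd : Odd g) :
    ∑ ρ, lamR g ρ + ∑ c, lamC g c + ∑ s, lamS g s = ((29 * g + 3 : ℕ) : ZMod (3 * g)) := by
  have hphi : phi 3 g 1 = ((3 : ℕ) : ZMod (3 * g)) := by
    have := phi_natCast 3 g 1
    simpa using this
  have hC : ∑ c, lamC g c = ((9 * g : ℕ) : ZMod (3 * g)) := by
    simp only [lamC]
    rw [Fintype.sum_prod_type]
    simp only [Finset.sum_add_distrib, phi_sum 3 g hodd, Finset.sum_const, Finset.card_univ,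
      ZMod.card, nsmul_eq_mul, add_zero]
    rw [← Finset.mul_sum, ← Nat.cast_sum, ← Nat.cast_mul]
    congr 1
    have : ∑ i : Fin 10, rl i = 9 := by decide
    rw [this]; ring
  have hS : ∑ s, lamS g s = ((11 * g : ℕ) : ZMod (3 * g)) := by
    simp only [lamS]
    rw [Fintype.sum_prod_type]
    simp only [Finset.sum_add_distrib, phi_sum 3 g hodd, Finset.sum_const, Finset.card_univ,
      ZMod.card, nsmul_eq_mul, add_zero]
    rw [← Finset.mul_sum, ← Nat.cast_sum, ← Nat.cast_mul]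
    congr 1
    have : ∑ i : Fin 10, sl i = 11 := by decide
    rw [this]; ring
  have hR : ∑ ρ, lamR g ρ = ((9 * g : ℕ) : ZMod (3 * g)) + ((3 : ℕ) : ZMod (3 * g)) := by
    have : ∀ ρ, lamR g ρ = lamC g ρ + (if ρ = (9, 0) then phi 3 g 1 else 0) := fun ρ => rfl
    simp only [this]
    rw [Finset.sum_add_distrib, hC, Finset.sum_ite_eq', if_pos (Finset.mem_univ _), hphi]
  rw [hR, hC, hS]
  push_cast
  ring

theorem exists_indivisible (g : ℕ) (hodd : Odd g) (h1 : 1 < g) (h5 : Nat.Coprime g 3) :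
    HasIndivisiblePlex (10 * g) (3 * g) := by
  have : NeZero g := ⟨by omega⟩
  have : Fact (1 < g) := ⟨h1⟩
  have h01 : (0 : ZMod g) ≠ 1 := zero_ne_one
  have hg := ex_inj g h01
  have hcard : Fintype.card (Fin 10 × ZMod g) = 10 * g := by
    simp [ZMod.card]
  have e : (Fin 10 × ZMod g) ≃ Fin (10 * g) := Fintype.equivFinOfCardEq hcard
  refine transport (10 * g) e e e (LL g hg) (LL_latin g h01 hg) (3 * g) (PP g)
    ⟨PP_row g, PP_col g h01, PP_sym g h01 hg⟩ (lamR g) (lamC g) (lamS g)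
    (fun p hp => PP_zero g h01 hg p hp) ?_
  rw [W_eq g hodd]
  refine (ZMod.isUnit_iff_coprime _ _).mpr ?_
  refine Nat.Coprime.mul_right ?_ ?_
  · have : Nat.Coprime (29 * g) 3 := Nat.Coprime.mul_left (by norm_num) h5
    first
      | exact Nat.coprime_add_self_left.mpr this
      | simpa using this
  · have : Nat.Coprime 3 g := h5.symm
    simpa using this

end F10_3

namespace F11_3

def L0 : Fin 11 → Fin 11 → Fin 11 :=
  ![![4, 7, 9, 0, 2, 1, 5, 3, 8, 10, 6], ![7, 9, 6, 4, 3, 8, 1, 10, 2, 0, 5], ![9, 6, 5, 7, 10, 2, 8, 0, 3, 4, 1], ![6, 5, 1, 9, 0, 3, 2, 4, 10, 7, 8], ![10, 0, 4, 3, 1, 6, 9, 8, 5, 2, 7], ![1, 8, 2, 5, 7, 0, 10, 9, 4, 6, 3], ![8, 2, 3, 1, 9, 4, 0, 6, 7, 5, 10], ![3, 10, 0, 2, 5, 9, 7, 1, 6, 8, 4], ![0, 4, 7, 10, 8, 5, 6, 2, 1, 3, 9], ![2, 3, 10, 8, 6, 7, 4, 5, 9, 1, 0], ![5, 1, 8, 6, 4, 10, 3, 7, 0, 9, 2]]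

def rl : Fin 11 → ℕ := ![0, 0, 0, 0, 1, 1, 1, 1, 2, 2, 2]

def sl : Fin 11 → ℕ := ![2, 2, 2, 2, 0, 0, 0, 0, 1, 1, 1]

def tau (I J : Fin 11) : ℕ := (rl I + rl J + sl (L0 I J)) / 3

def pf : Fin 11 → Fin 3 → Fin 3 :=
  ![![2, 1, 0], ![2, 0, 1], ![2, 1, 0], ![2, 0, 1], ![2, 0, 1], ![2, 0, 1], ![2, 1, 0], ![2, 0, 1], ![2, 0, 1], ![2, 0, 1], ![2, 0, 1]]

def exrow : Fin 3 → Fin 11 := ![5, 5, 4]

def patT : Fin 16 → Finset (Fin 11) :=
  ![{1, 5, 9}, {0, 3, 4}, {3, 5, 7}, {1, 6, 10}, {1, 7, 8}, {0, 7, 9}, {2, 4, 9}, {0, 5, 10}, {3, 6, 8}, {2, 4, 6}, {2, 8, 10}, {1, 6, 7}, {0, 2, 6}, {7, 8, 9}, {0, 1, 10}, {4, 7, 9}]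

def rowT (t : Fin 16) (J : Fin 11) : Fin 11 :=
  (![0, 1, 2, 3, 4, 5, 6, 7, 8, 9, 10, exrow (pf J 0), exrow (pf J 1), exrow (pf J 2), 3, 9] : Fin 16 → Fin 11) t

theorem L0_col : ∀ J I I' : Fin 11, L0 I J = L0 I' J → I = I' := by decide +kernel

theorem rowT_inj : ∀ (t : Fin 16) (J J' : Fin 11),
    L0 (rowT t J) J = L0 (rowT t J') J' → J = J' := by decide +kernel

theorem pf_inj : ∀ J : Fin 11, ∀ u v : Fin 3, pf J u = pf J v → u = v := by decide +kernel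

theorem zero_coarse : ∀ (t : Fin 16) (J : Fin 11), J ∈ patT t →
    rl (rowT t J) + rl J + sl (L0 (rowT t J) J) = 3 * tau (rowT t J) J := by decide +kernel

theorem patT_card : ∀ t : Fin 16, (patT t).card = 3 := by decide +kernel

theorem pf_ne0 : ∀ J : Fin 11, J ∈ patT 11 → pf J 0 ≠ 0 := by decide +kernel
theorem pf_ne1 : ∀ J : Fin 11, J ∈ patT 12 → pf J 1 ≠ 0 := by decide +kernel
theorem pf_ne2 : ∀ J : Fin 11, J ∈ patT 13 → pf J 2 ≠ 0 := by decide +kernel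

def FJ (J : Fin 11) (t : Fin 16) : ℤ := if J ∈ patT t then 1 else 0

def FS (S : Fin 11) (t : Fin 16) : ℤ :=
  ((Finset.univ.filter fun J : Fin 11 => J ∈ patT t ∧ L0 (rowT t J) J = S).card : ℤ)

theorem FJ_sum : ∀ J : Fin 11, (∑ I : Fin 11, FJ J (Fin.castLE (by norm_num) I)) = 3 ∧
    (FJ J 11 - FJ J 5) + (FJ J 12 - FJ J 5) + (FJ J 13 - FJ J 4) + (FJ J 14 - FJ J 3) + (FJ J 15 - FJ J 9) = 0 := by decide +kernel

theorem FS_sum : ∀ S : Fin 11, (∑ I : Fin 11, FS S (Fin.castLE (by norm_num) I)) = 3 ∧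
    (FS S 11 - FS S 5) + (FS S 12 - FS S 5) + (FS S 13 - FS S 4) + (FS S 14 - FS S 3) + (FS S 15 - FS S 9) = 0 := by decide +kernel

def ex (g : ℕ) : Fin 3 → Fin 11 × ZMod g := ![(5, 0), (5, 1), (4, 1)]

theorem ex_fst (g : ℕ) (u : Fin 3) : (ex g u).1 = exrow u := by
  fin_cases u <;> rfl

theorem ex_inj (g : ℕ) (h01 : (0 : ZMod g) ≠ 1) : Function.Injective (ex g) := by
  intro u v h
  have h10 : (1 : ZMod g) ≠ 0 := h01.symm
  fin_cases u <;> fin_cases v <;> simp [ex, Prod.ext_iff, h01, h10] at h ⊢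

noncomputable def pi' (J : Fin 11) : Equiv.Perm (Fin 3) :=
  Equiv.ofBijective (pf J) (Finite.injective_iff_bijective.mp (fun u v h => pf_inj J u v h))

noncomputable def src (g : ℕ) (hg : Function.Injective (ex g)) (J : Fin 11) :
    Equiv.Perm (Fin 11 × ZMod g) :=
  (pi' J).viaEmbedding ⟨ex g, hg⟩

theorem src_ex (g : ℕ) (hg : Function.Injective (ex g)) (J : Fin 11) (t : Fin 3) :
    src g hg J (ex g t) = ex g (pf J t) :=
  Equiv.Perm.viaEmbedding_apply (pi' J) ⟨ex g, hg⟩ t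

theorem src_not (g : ℕ) (hg : Function.Injective (ex g)) (J : Fin 11) (ρ : Fin 11 × ZMod g)
    (h : ∀ t, ex g t ≠ ρ) : src g hg J ρ = ρ :=
  Equiv.Perm.viaEmbedding_apply_of_notMem _ _ _ (by rintro ⟨t, ht⟩; exact h t ht)

def ty (g : ℕ) (ρ : Fin 11 × ZMod g) : Fin 16 :=
  if ρ = (5, 0) then 11 else if ρ = (5, 1) then 12 else if ρ = (4, 1) then 13 else if ρ = (3, 0) then 14 else if ρ = (9, 0) then 15 else Fin.castLE (by norm_num) ρ.1

theorem rowT_castLE : ∀ I J : Fin 11, rowT (Fin.castLE (by norm_num) I) J = I := by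
  decide +kernel

theorem ty_ex0 (g : ℕ) : ty g (ex g 0) = 11 := by
  simp [ty, ex]

theorem ty_ex1 (g : ℕ) (h01 : (0 : ZMod g) ≠ 1) : ty g (ex g 1) = 12 := by
  simp [ty, ex, h01.symm]

theorem ty_ex2 (g : ℕ) : ty g (ex g 2) = 13 := by
  simp [ty, ex]

theorem rowT_ty_not (g : ℕ) (ρ : Fin 11 × ZMod g) (h : ∀ t, ex g t ≠ ρ) (J : Fin 11) :
    rowT (ty g ρ) J = ρ.1 := by
  have h0 : ρ ≠ (5, 0) := fun h' => h 0 h'.symm
  have h1 : ρ ≠ (5, 1) := fun h' => h 1 h'.symm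
  have h2 : ρ ≠ (4, 1) := fun h' => h 2 h'.symm
  unfold ty
  rw [if_neg h0, if_neg h1, if_neg h2]
  by_cases m0 : ρ = (3, 0)
  · rw [if_pos m0, m0]; rfl
  rw [if_neg m0]
  by_cases m1 : ρ = (9, 0)
  · rw [if_pos m1, m1]; rfl
  rw [if_neg m1]
  exact rowT_castLE _ _

theorem src_row (g : ℕ) (h01 : (0 : ZMod g) ≠ 1) (hg : Function.Injective (ex g)) (J : Fin 11)
    (ρ : Fin 11 × ZMod g) : (src g hg J ρ).1 = rowT (ty g ρ) J := by
  by_cases h : ∃ t, ex g t = ρ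
  · obtain ⟨t, rfl⟩ := h
    rw [src_ex, ex_fst]
    fin_cases t
    · change exrow (pf J 0) = rowT (ty g (ex g 0)) J
      rw [ty_ex0]; rfl
    · change exrow (pf J 1) = rowT (ty g (ex g 1)) J
      rw [ty_ex1 g h01]; rfl
    · change exrow (pf J 2) = rowT (ty g (ex g 2)) J
      rw [ty_ex2]; rfl
  · push Not at h
    rw [src_not g hg J ρ h, rowT_ty_not g ρ h]

theorem sum_ty (g : ℕ) [NeZero g] (h01 : (0 : ZMod g) ≠ 1) (F : Fin 16 → ℤ) :
    ∑ ρ : Fin 11 × ZMod g, F (ty g ρ) =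
      g * ∑ I : Fin 11, F (Fin.castLE (by norm_num) I) +
      ((F 11 - F 5) + (F 12 - F 5) + (F 13 - F 4) + (F 14 - F 3) + (F 15 - F 9)) := by
  have h10 : (1 : ZMod g) ≠ 0 := h01.symm
  have key : ∀ ρ : Fin 11 × ZMod g, F (ty g ρ) = F (Fin.castLE (by norm_num) ρ.1)
      + (if ρ = (5, 0) then F 11 - F 5 else 0) + (if ρ = (5, 1) then F 12 - F 5 else 0) + (if ρ = (4, 1) then F 13 - F 4 else 0) + (if ρ = (3, 0) then F 14 - F 3 else 0) + (if ρ = (9, 0) then F 15 - F 9 else 0) := by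
    intro ρ
    have c3 : (Fin.castLE (by norm_num) (3 : Fin 11) : Fin 16) = 3 := rfl
    have c4 : (Fin.castLE (by norm_num) (4 : Fin 11) : Fin 16) = 4 := rfl
    have c5 : (Fin.castLE (by norm_num) (5 : Fin 11) : Fin 16) = 5 := rfl
    have c9 : (Fin.castLE (by norm_num) (9 : Fin 11) : Fin 16) = 9 := rfl
    have n0_1 : ((5 : Fin 11), (0 : ZMod g)) ≠ (5, 1) := by simp [h01, h10]
    have n0_2 : ((5 : Fin 11), (0 : ZMod g)) ≠ (4, 1) := by simp [h01, h10]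
    have n0_3 : ((5 : Fin 11), (0 : ZMod g)) ≠ (3, 0) := by simp [h01, h10]
    have n0_4 : ((5 : Fin 11), (0 : ZMod g)) ≠ (9, 0) := by simp [h01, h10]
    have n1_2 : ((5 : Fin 11), (1 : ZMod g)) ≠ (4, 1) := by simp [h01, h10]
    have n1_3 : ((5 : Fin 11), (1 : ZMod g)) ≠ (3, 0) := by simp [h01, h10]
    have n1_4 : ((5 : Fin 11), (1 : ZMod g)) ≠ (9, 0) := by simp [h01, h10]
    have n2_3 : ((4 : Fin 11), (1 : ZMod g)) ≠ (3, 0) := by simp [h01, h10]
    have n2_4 : ((4 : Fin 11), (1 : ZMod g)) ≠ (9, 0) := by simp [h01, h10]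
    have n3_4 : ((3 : Fin 11), (0 : ZMod g)) ≠ (9, 0) := by simp [h01, h10]
    unfold ty
    by_cases q0 : ρ = (5, 0)
    · rw [q0, if_pos rfl, if_pos rfl, if_neg n0_1, if_neg n0_2, if_neg n0_3, if_neg n0_4, c5]; ring
    rw [if_neg q0, if_neg q0]
    by_cases q1 : ρ = (5, 1)
    · rw [q1, if_pos rfl, if_pos rfl, if_neg n1_2, if_neg n1_3, if_neg n1_4, c5]; ring
    rw [if_neg q1, if_neg q1]
    by_cases q2 : ρ = (4, 1)
    · rw [q2, if_pos rfl, if_pos rfl, if_neg n2_3, if_neg n2_4, c4]; ring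
    rw [if_neg q2, if_neg q2]
    by_cases q3 : ρ = (3, 0)
    · rw [q3, if_pos rfl, if_pos rfl, if_neg n3_4, c3]; ring
    rw [if_neg q3, if_neg q3]
    by_cases q4 : ρ = (9, 0)
    · rw [q4, if_pos rfl, if_pos rfl, c9]; ring
    rw [if_neg q4, if_neg q4]
    ring
  rw [Finset.sum_congr rfl (fun ρ _ => key ρ)]
  simp only [Finset.sum_add_distrib, Finset.sum_ite_eq', Finset.mem_univ, if_true]
  rw [Fintype.sum_prod_type]
  simp only [Finset.sum_const, Finset.card_univ, ZMod.card, nsmul_eq_mul, ← Finset.mul_sum]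
  ring

noncomputable def LL (g : ℕ) (hg : Function.Injective (ex g)) (ρ c : Fin 11 × ZMod g) :
    Fin 11 × ZMod g :=
  (L0 (src g hg c.1 ρ).1 c.1,
    -(src g hg c.1 ρ).2 - c.2 - ((tau (src g hg c.1 ρ).1 c.1 : ℕ) : ZMod g))

theorem LL_latin (g : ℕ) [NeZero g] (h01 : (0 : ZMod g) ≠ 1) (hg : Function.Injective (ex g)) :
    IsLatin (LL g hg) := by
  refine ⟨fun ρ => Finite.injective_iff_bijective.mp ?_,
    fun c => Finite.injective_iff_bijective.mp ?_⟩
  · rintro ⟨J, j⟩ ⟨J', j'⟩ h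
    have e1 := congrArg Prod.fst h
    have e2 := congrArg Prod.snd h
    simp only [LL] at e1 e2
    rw [src_row g h01, src_row g h01] at e1
    have hJ := rowT_inj _ _ _ e1
    subst hJ
    have : j = j' := by
      have e3 := sub_left_injective e2
      simpa using e3
    rw [this]
  · rintro ρ ρ' h
    have e1 := congrArg Prod.fst h
    have e2 := congrArg Prod.snd h
    simp only [LL] at e1 e2
    have hI := L0_col _ _ _ e1
    rw [hI] at e2
    have e3 : (src g hg c.1 ρ).2 = (src g hg c.1 ρ').2 := by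
      have := sub_left_injective (sub_left_injective e2)
      simpa using this
    exact (src g hg c.1).injective (Prod.ext hI e3)

def PP (g : ℕ) [NeZero g] : Finset ((Fin 11 × ZMod g) × (Fin 11 × ZMod g)) :=
  Finset.univ.filter fun p => p.2.1 ∈ patT (ty g p.1)

theorem PP_row (g : ℕ) [NeZero g] (ρ : Fin 11 × ZMod g) :
    ((PP g).filter fun c => c.1 = ρ).card = 3 * g := by
  have : ((PP g).filter fun c => c.1 = ρ) =
      ({ρ} : Finset (Fin 11 × ZMod g)) ×ˢ (patT (ty g ρ) ×ˢ (Finset.univ : Finset (ZMod g))) := by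
    ext p
    simp only [PP, Finset.mem_filter, Finset.mem_univ, true_and, Finset.mem_product,
      Finset.mem_singleton, and_true]
    constructor
    · rintro ⟨h1, h2⟩; subst h2; exact ⟨rfl, h1⟩
    · rintro ⟨h1, h2⟩; subst h1; exact ⟨h2, rfl⟩
  rw [this, Finset.card_product, Finset.card_product, patT_card]
  simp [ZMod.card]

theorem PP_col (g : ℕ) [NeZero g] (h01 : (0 : ZMod g) ≠ 1) (c : Fin 11 × ZMod g) :
    ((PP g).filter fun p => p.2 = c).card = 3 * g := by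
  have h : ((PP g).filter fun p => p.2 = c) =
      (Finset.univ.filter fun ρ : Fin 11 × ZMod g => c.1 ∈ patT (ty g ρ)) ×ˢ
        ({c} : Finset (Fin 11 × ZMod g)) := by
    ext p
    simp only [PP, Finset.mem_filter, Finset.mem_univ, true_and, Finset.mem_product,
      Finset.mem_singleton]
    constructor
    · rintro ⟨h1, h2⟩; subst h2; exact ⟨h1, rfl⟩
    · rintro ⟨h1, h2⟩; subst h2; exact ⟨h1, rfl⟩
  rw [h, Finset.card_product, Finset.card_singleton, mul_one]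
  have h2 := sum_ty g h01 (FJ c.1)
  rw [(FJ_sum c.1).1, (FJ_sum c.1).2] at h2
  have h3 : ((Finset.univ.filter fun ρ : Fin 11 × ZMod g => c.1 ∈ patT (ty g ρ)).card : ℤ) =
      ∑ ρ : Fin 11 × ZMod g, FJ c.1 (ty g ρ) := by
    simp [FJ]
  have h4 : ((Finset.univ.filter fun ρ : Fin 11 × ZMod g => c.1 ∈ patT (ty g ρ)).card : ℤ) =
      3 * g := by rw [h3, h2]; ring
  exact_mod_cast h4

theorem PP_sym (g : ℕ) [NeZero g] (h01 : (0 : ZMod g) ≠ 1) (hg : Function.Injective (ex g))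
    (s : Fin 11 × ZMod g) :
    ((PP g).filter fun p => LL g hg p.1 p.2 = s).card = 3 * g := by
  have h1 : ((PP g).filter fun p => LL g hg p.1 p.2 = s).card =
      (Finset.univ.filter fun q : (Fin 11 × ZMod g) × Fin 11 =>
        q.2 ∈ patT (ty g q.1) ∧ L0 (rowT (ty g q.1) q.2) q.2 = s.1).card := by
    refine Finset.card_nbij' (fun p => (p.1, p.2.1))
      (fun q => (q.1, (q.2, -(src g hg q.2 q.1).2 -
        ((tau (src g hg q.2 q.1).1 q.2 : ℕ) : ZMod g) - s.2))) ?_ ?_ ?_ ?_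
    · intro p hp
      simp only [PP, Finset.coe_filter, Finset.mem_filter, Finset.mem_univ, true_and,
        Set.mem_ofPred_eq] at hp ⊢
      refine ⟨hp.1, ?_⟩
      rw [← hp.2, ← src_row g h01 hg]
      rfl
    · intro q hq
      simp only [PP, Finset.coe_filter, Finset.mem_filter, Finset.mem_univ, true_and,
        Set.mem_ofPred_eq] at hq ⊢
      refine ⟨hq.1, ?_⟩
      rw [← src_row g h01 hg] at hq
      refine Prod.ext hq.2 ?_
      simp only [LL]
      ring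
    · rintro ⟨ρ, J, j⟩ hp
      simp only [PP, Finset.coe_filter, Finset.mem_filter, Finset.mem_univ, true_and,
        Set.mem_ofPred_eq] at hp ⊢
      have e2 := congrArg Prod.snd hp.2
      simp only [LL] at e2
      rw [← e2]
      refine Prod.ext rfl (Prod.ext rfl ?_)
      simp only
      ring
    · rintro ⟨ρ, J⟩ hq
      rfl
  rw [h1]
  have h2 := sum_ty g h01 (FS s.1)
  rw [(FS_sum s.1).1, (FS_sum s.1).2] at h2
  have h3 : ((Finset.univ.filter fun q : (Fin 11 × ZMod g) × Fin 11 =>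
        q.2 ∈ patT (ty g q.1) ∧ L0 (rowT (ty g q.1) q.2) q.2 = s.1).card : ℤ) =
      ∑ ρ : Fin 11 × ZMod g, FS s.1 (ty g ρ) := by
    rw [Finset.card_filter, Fintype.sum_prod_type]
    push_cast
    refine Finset.sum_congr rfl fun ρ _ => ?_
    rw [FS, Finset.card_filter]
    push_cast
    rfl
  have h4 : ((Finset.univ.filter fun q : (Fin 11 × ZMod g) × Fin 11 =>
        q.2 ∈ patT (ty g q.1) ∧ L0 (rowT (ty g q.1) q.2) q.2 = s.1).card : ℤ) =
      3 * g := by rw [h3, h2]; ring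
  exact_mod_cast h4

/-- row labels -/
noncomputable def lamR (g : ℕ) [NeZero g] (ρ : Fin 11 × ZMod g) : ZMod (3 * g) :=
  (rl ρ.1 : ZMod (3 * g)) + phi 3 g ρ.2 + (if ρ = (5, 0) then phi 3 g 1 else 0)

noncomputable def lamC (g : ℕ) [NeZero g] (c : Fin 11 × ZMod g) : ZMod (3 * g) :=
  (rl c.1 : ZMod (3 * g)) + phi 3 g c.2

noncomputable def lamS (g : ℕ) [NeZero g] (s : Fin 11 × ZMod g) : ZMod (3 * g) :=
  (sl s.1 : ZMod (3 * g)) + phi 3 g s.2

theorem lam_src (g : ℕ) [NeZero g] (h01 : (0 : ZMod g) ≠ 1) (hg : Function.Injective (ex g))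
    (ρ : Fin 11 × ZMod g) (J : Fin 11) (hJ : J ∈ patT (ty g ρ)) :
    lamR g ρ = (rl (src g hg J ρ).1 : ZMod (3 * g)) + phi 3 g (src g hg J ρ).2 := by
  have hu : ∀ u : Fin 3, u ≠ 0 → rl (ex g u).1 = 1 ∧ (ex g u).2 = 1 := by
    intro u hu
    fin_cases u
    · exact absurd rfl hu
    · exact ⟨rfl, rfl⟩
    · exact ⟨rfl, rfl⟩
  by_cases h : ∃ t, ex g t = ρ
  · obtain ⟨t, rfl⟩ := h
    rw [src_ex]
    have hne : pf J t ≠ 0 := by
      fin_cases t
      · exact pf_ne0 J (by rw [← ty_ex0 g]; exact hJ)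
      · exact pf_ne1 J (by rw [← ty_ex1 g h01]; exact hJ)
      · exact pf_ne2 J (by rw [← ty_ex2 g]; exact hJ)
    rw [(hu _ hne).1, (hu _ hne).2]
    fin_cases t
    · simp [lamR, ex, rl]
    · have : ((5 : Fin 11), (1 : ZMod g)) ≠ (5, 0) := by simp [h01.symm]
      change (rl 4 : ZMod (3 * g)) + phi 3 g 1 +
        (if ((5 : Fin 11), (1 : ZMod g)) = (5, 0) then phi 3 g 1 else 0) = _
      rw [if_neg this, add_zero]
      rfl
    · have : ((4 : Fin 11), (1 : ZMod g)) ≠ (5, 0) := by simp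
      change (rl 4 : ZMod (3 * g)) + phi 3 g 1 +
        (if ((4 : Fin 11), (1 : ZMod g)) = (5, 0) then phi 3 g 1 else 0) = _
      rw [if_neg this, add_zero]
      rfl
  · push Not at h
    rw [src_not g hg J ρ h, lamR, if_neg (fun h' => h 0 h'.symm), add_zero]

theorem PP_zero (g : ℕ) [NeZero g] (h01 : (0 : ZMod g) ≠ 1) (hg : Function.Injective (ex g))
    (p : (Fin 11 × ZMod g) × (Fin 11 × ZMod g)) (hp : p ∈ PP g) :
    lamR g p.1 + lamC g p.2 + lamS g (LL g hg p.1 p.2) = 0 := by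
  obtain ⟨ρ, J, j⟩ := p
  simp only [PP, Finset.mem_filter, Finset.mem_univ, true_and] at hp
  have hz := zero_coarse _ _ hp
  rw [← src_row g h01 hg] at hz
  simp only
  rw [lam_src g h01 hg ρ J hp]
  simp only [lamC, lamS, LL, map_sub, map_neg, phi_natCast]
  have hz' := congrArg (fun n : ℕ => (n : ZMod (3 * g))) hz
  simp only [Nat.cast_add, Nat.cast_mul, Nat.cast_ofNat] at hz'
  linear_combination hz'


theorem W_eq (g : ℕ) [NeZero g] (hodd : Odd g) :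
    ∑ ρ, lamR g ρ + ∑ c, lamC g c + ∑ s, lamS g s = ((31 * g + 3 : ℕ) : ZMod (3 * g)) := by
  have hphi : phi 3 g 1 = ((3 : ℕ) : ZMod (3 * g)) := by
    have := phi_natCast 3 g 1
    simpa using this
  have hC : ∑ c, lamC g c = ((10 * g : ℕ) : ZMod (3 * g)) := by
    simp only [lamC]
    rw [Fintype.sum_prod_type]
    simp only [Finset.sum_add_distrib, phi_sum 3 g hodd, Finset.sum_const, Finset.card_univ,
      ZMod.card, nsmul_eq_mul, add_zero]
    rw [← Finset.mul_sum, ← Nat.cast_sum, ← Nat.cast_mul]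
    congr 1
    have : ∑ i : Fin 11, rl i = 10 := by decide
    rw [this]; ring
  have hS : ∑ s, lamS g s = ((11 * g : ℕ) : ZMod (3 * g)) := by
    simp only [lamS]
    rw [Fintype.sum_prod_type]
    simp only [Finset.sum_add_distrib, phi_sum 3 g hodd, Finset.sum_const, Finset.card_univ,
      ZMod.card, nsmul_eq_mul, add_zero]
    rw [← Finset.mul_sum, ← Nat.cast_sum, ← Nat.cast_mul]
    congr 1
    have : ∑ i : Fin 11, sl i = 11 := by decide
    rw [this]; ring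
  have hR : ∑ ρ, lamR g ρ = ((10 * g : ℕ) : ZMod (3 * g)) + ((3 : ℕ) : ZMod (3 * g)) := by
    have : ∀ ρ, lamR g ρ = lamC g ρ + (if ρ = (5, 0) then phi 3 g 1 else 0) := fun ρ => rfl
    simp only [this]
    rw [Finset.sum_add_distrib, hC, Finset.sum_ite_eq', if_pos (Finset.mem_univ _), hphi]
  rw [hR, hC, hS]
  push_cast
  ring

theorem exists_indivisible (g : ℕ) (hodd : Odd g) (h1 : 1 < g) (h5 : Nat.Coprime g 3) :
    HasIndivisiblePlex (11 * g) (3 * g) := by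
  have : NeZero g := ⟨by omega⟩
  have : Fact (1 < g) := ⟨h1⟩
  have h01 : (0 : ZMod g) ≠ 1 := zero_ne_one
  have hg := ex_inj g h01
  have hcard : Fintype.card (Fin 11 × ZMod g) = 11 * g := by
    simp [ZMod.card]
  have e : (Fin 11 × ZMod g) ≃ Fin (11 * g) := Fintype.equivFinOfCardEq hcard
  refine transport (11 * g) e e e (LL g hg) (LL_latin g h01 hg) (3 * g) (PP g)
    ⟨PP_row g, PP_col g h01, PP_sym g h01 hg⟩ (lamR g) (lamC g) (lamS g)
    (fun p hp => PP_zero g h01 hg p hp) ?_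
  rw [W_eq g hodd]
  refine (ZMod.isUnit_iff_coprime _ _).mpr ?_
  refine Nat.Coprime.mul_right ?_ ?_
  · have : Nat.Coprime (31 * g) 3 := Nat.Coprime.mul_left (by norm_num) h5
    first
      | exact Nat.coprime_add_self_left.mpr this
      | simpa using this
  · have : Nat.Coprime 3 g := h5.symm
    simpa using this

end F11_3

namespace F13_3

def L0 : Fin 13 → Fin 13 → Fin 13 :=
  ![![8, 3, 12, 4, 5, 2, 0, 1, 6, 7, 9, 11, 10], ![5, 6, 3, 7, 11, 1, 4, 10, 0, 2, 8, 12, 9], ![1, 5, 8, 3, 10, 0, 12, 4, 11, 6, 2, 9, 7], ![3, 7, 4, 10, 6, 8, 1, 5, 2, 9, 12, 0, 11], ![9, 12, 11, 0, 8, 7, 6, 2, 3, 4, 10, 5, 1], ![4, 10, 1, 5, 7, 12, 8, 3, 9, 11, 0, 2, 6], ![0, 1, 2, 8, 4, 11, 9, 12, 10, 5, 6, 7, 3], ![6, 2, 7, 9, 0, 5, 10, 11, 1, 8, 3, 4, 12], ![12, 4, 0, 1, 3, 9, 2, 8, 7, 10, 11, 6, 5], ![2, 8, 9, 12, 1, 6, 11, 0, 5, 3, 7, 10, 4], ![11, 0, 6, 2, 12, 10, 7, 9, 4, 1, 5, 3, 8], ![7, 9, 10, 11, 2, 3, 5, 6, 8, 12,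 4, 1, 0], ![10, 11, 5, 6, 9, 4, 3, 7, 12, 0, 1, 8, 2]]

def rl : Fin 13 → ℕ := ![0, 0, 0, 0, 0, 1, 1, 1, 1, 2, 2, 2, 2]

def sl : Fin 13 → ℕ := ![2, 2, 2, 2, 2, 0, 0, 0, 0, 1, 1, 1, 1]

def tau (I J : Fin 13) : ℕ := (rl I + rl J + sl (L0 I J)) / 3

def pf : Fin 13 → Fin 3 → Fin 3 :=
  ![![2, 0, 1], ![2, 1, 0], ![2, 1, 0], ![2, 1, 0], ![2, 0, 1], ![2, 0, 1], ![2, 0, 1], ![2, 0, 1], ![2, 0, 1], ![2, 0, 1], ![2, 0, 1], ![2, 0, 1], ![2, 0, 1]]

def exrow : Fin 3 → Fin 13 := ![8, 8, 5]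

def patT : Fin 18 → Finset (Fin 13) :=
  ![{0, 5, 6}, {3, 5, 8}, {1, 2, 5}, {1, 10, 12}, {7, 8, 10}, {0, 2, 8}, {4, 9, 10}, {6, 7, 9}, {1, 11, 12}, {2, 3, 9}, {4, 6, 11}, {3, 7, 11}, {0, 4, 12}, {0, 2, 8}, {1, 2, 3}, {5, 11, 12}, {1, 3, 11}, {8, 9, 12}]

def rowT (t : Fin 18) (J : Fin 13) : Fin 13 :=
  (![0, 1, 2, 3, 4, 5, 6, 7, 8, 9, 10, 11, 12, exrow (pf J 0), exrow (pf J 1), exrow (pf J 2), 1, 9] : Fin 18 → Fin 13) t

theorem L0_col : ∀ J I I' : Fin 13, L0 I J = L0 I' J → I = I' := by decide +kernel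

theorem rowT_inj : ∀ (t : Fin 18) (J J' : Fin 13),
    L0 (rowT t J) J = L0 (rowT t J') J' → J = J' := by decide +kernel

theorem pf_inj : ∀ J : Fin 13, ∀ u v : Fin 3, pf J u = pf J v → u = v := by decide +kernel

theorem zero_coarse : ∀ (t : Fin 18) (J : Fin 13), J ∈ patT t →
    rl (rowT t J) + rl J + sl (L0 (rowT t J) J) = 3 * tau (rowT t J) J := by decide +kernel

theorem patT_card : ∀ t : Fin 18, (patT t).card = 3 := by decide +kernel

theorem pf_ne0 : ∀ J : Fin 13, J ∈ patT 13 → pf J 0 ≠ 0 := by decide +kernel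
theorem pf_ne1 : ∀ J : Fin 13, J ∈ patT 14 → pf J 1 ≠ 0 := by decide +kernel
theorem pf_ne2 : ∀ J : Fin 13, J ∈ patT 15 → pf J 2 ≠ 0 := by decide +kernel

def FJ (J : Fin 13) (t : Fin 18) : ℤ := if J ∈ patT t then 1 else 0

def FS (S : Fin 13) (t : Fin 18) : ℤ :=
  ((Finset.univ.filter fun J : Fin 13 => J ∈ patT t ∧ L0 (rowT t J) J = S).card : ℤ)

theorem FJ_sum : ∀ J : Fin 13, (∑ I : Fin 13, FJ J (Fin.castLE (by norm_num) I)) = 3 ∧
    (FJ J 13 - FJ J 8) + (FJ J 14 - FJ J 8) + (FJ J 15 - FJ J 5) + (FJ J 16 - FJ J 1) + (FJ J 17 - FJ J 9) = 0 := by decide +kernel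

theorem FS_sum : ∀ S : Fin 13, (∑ I : Fin 13, FS S (Fin.castLE (by norm_num) I)) = 3 ∧
    (FS S 13 - FS S 8) + (FS S 14 - FS S 8) + (FS S 15 - FS S 5) + (FS S 16 - FS S 1) + (FS S 17 - FS S 9) = 0 := by decide +kernel

def ex (g : ℕ) : Fin 3 → Fin 13 × ZMod g := ![(8, 0), (8, 1), (5, 1)]

theorem ex_fst (g : ℕ) (u : Fin 3) : (ex g u).1 = exrow u := by
  fin_cases u <;> rfl

theorem ex_inj (g : ℕ) (h01 : (0 : ZMod g) ≠ 1) : Function.Injective (ex g) := by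
  intro u v h
  have h10 : (1 : ZMod g) ≠ 0 := h01.symm
  fin_cases u <;> fin_cases v <;> simp [ex, Prod.ext_iff, h01, h10] at h ⊢

noncomputable def pi' (J : Fin 13) : Equiv.Perm (Fin 3) :=
  Equiv.ofBijective (pf J) (Finite.injective_iff_bijective.mp (fun u v h => pf_inj J u v h))

noncomputable def src (g : ℕ) (hg : Function.Injective (ex g)) (J : Fin 13) :
    Equiv.Perm (Fin 13 × ZMod g) :=
  (pi' J).viaEmbedding ⟨ex g, hg⟩

theorem src_ex (g : ℕ) (hg : Function.Injective (ex g)) (J : Fin 13) (t : Fin 3) :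
    src g hg J (ex g t) = ex g (pf J t) :=
  Equiv.Perm.viaEmbedding_apply (pi' J) ⟨ex g, hg⟩ t

theorem src_not (g : ℕ) (hg : Function.Injective (ex g)) (J : Fin 13) (ρ : Fin 13 × ZMod g)
    (h : ∀ t, ex g t ≠ ρ) : src g hg J ρ = ρ :=
  Equiv.Perm.viaEmbedding_apply_of_notMem _ _ _ (by rintro ⟨t, ht⟩; exact h t ht)

def ty (g : ℕ) (ρ : Fin 13 × ZMod g) : Fin 18 :=
  if ρ = (8, 0) then 13 else if ρ = (8, 1) then 14 else if ρ = (5, 1) then 15 else if ρ = (1, 0) then 16 else if ρ = (9, 0) then 17 else Fin.castLE (by norm_num) ρ.1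

theorem rowT_castLE : ∀ I J : Fin 13, rowT (Fin.castLE (by norm_num) I) J = I := by
  decide +kernel

theorem ty_ex0 (g : ℕ) : ty g (ex g 0) = 13 := by
  simp [ty, ex]

theorem ty_ex1 (g : ℕ) (h01 : (0 : ZMod g) ≠ 1) : ty g (ex g 1) = 14 := by
  simp [ty, ex, h01.symm]

theorem ty_ex2 (g : ℕ) : ty g (ex g 2) = 15 := by
  simp [ty, ex]

theorem rowT_ty_not (g : ℕ) (ρ : Fin 13 × ZMod g) (h : ∀ t, ex g t ≠ ρ) (J : Fin 13) :
    rowT (ty g ρ) J = ρ.1 := by
  have h0 : ρ ≠ (8, 0) := fun h' => h 0 h'.symm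
  have h1 : ρ ≠ (8, 1) := fun h' => h 1 h'.symm
  have h2 : ρ ≠ (5, 1) := fun h' => h 2 h'.symm
  unfold ty
  rw [if_neg h0, if_neg h1, if_neg h2]
  by_cases m0 : ρ = (1, 0)
  · rw [if_pos m0, m0]; rfl
  rw [if_neg m0]
  by_cases m1 : ρ = (9, 0)
  · rw [if_pos m1, m1]; rfl
  rw [if_neg m1]
  exact rowT_castLE _ _

theorem src_row (g : ℕ) (h01 : (0 : ZMod g) ≠ 1) (hg : Function.Injective (ex g)) (J : Fin 13)
    (ρ : Fin 13 × ZMod g) : (src g hg J ρ).1 = rowT (ty g ρ) J := by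
  by_cases h : ∃ t, ex g t = ρ
  · obtain ⟨t, rfl⟩ := h
    rw [src_ex, ex_fst]
    fin_cases t
    · change exrow (pf J 0) = rowT (ty g (ex g 0)) J
      rw [ty_ex0]; rfl
    · change exrow (pf J 1) = rowT (ty g (ex g 1)) J
      rw [ty_ex1 g h01]; rfl
    · change exrow (pf J 2) = rowT (ty g (ex g 2)) J
      rw [ty_ex2]; rfl
  · push Not at h
    rw [src_not g hg J ρ h, rowT_ty_not g ρ h]

theorem sum_ty (g : ℕ) [NeZero g] (h01 : (0 : ZMod g) ≠ 1) (F : Fin 18 → ℤ) :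
    ∑ ρ : Fin 13 × ZMod g, F (ty g ρ) =
      g * ∑ I : Fin 13, F (Fin.castLE (by norm_num) I) +
      ((F 13 - F 8) + (F 14 - F 8) + (F 15 - F 5) + (F 16 - F 1) + (F 17 - F 9)) := by
  have h10 : (1 : ZMod g) ≠ 0 := h01.symm
  have key : ∀ ρ : Fin 13 × ZMod g, F (ty g ρ) = F (Fin.castLE (by norm_num) ρ.1)
      + (if ρ = (8, 0) then F 13 - F 8 else 0) + (if ρ = (8, 1) then F 14 - F 8 else 0) + (if ρ = (5, 1) then F 15 - F 5 else 0) + (if ρ = (1, 0) then F 16 - F 1 else 0) + (if ρ = (9, 0) then F 17 - F 9 else 0) := by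
    intro ρ
    have c1 : (Fin.castLE (by norm_num) (1 : Fin 13) : Fin 18) = 1 := rfl
    have c5 : (Fin.castLE (by norm_num) (5 : Fin 13) : Fin 18) = 5 := rfl
    have c8 : (Fin.castLE (by norm_num) (8 : Fin 13) : Fin 18) = 8 := rfl
    have c9 : (Fin.castLE (by norm_num) (9 : Fin 13) : Fin 18) = 9 := rfl
    have n0_1 : ((8 : Fin 13), (0 : ZMod g)) ≠ (8, 1) := by simp [h01, h10]
    have n0_2 : ((8 : Fin 13), (0 : ZMod g)) ≠ (5, 1) := by simp [h01, h10]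
    have n0_3 : ((8 : Fin 13), (0 : ZMod g)) ≠ (1, 0) := by simp [h01, h10]
    have n0_4 : ((8 : Fin 13), (0 : ZMod g)) ≠ (9, 0) := by simp [h01, h10]
    have n1_2 : ((8 : Fin 13), (1 : ZMod g)) ≠ (5, 1) := by simp [h01, h10]
    have n1_3 : ((8 : Fin 13), (1 : ZMod g)) ≠ (1, 0) := by simp [h01, h10]
    have n1_4 : ((8 : Fin 13), (1 : ZMod g)) ≠ (9, 0) := by simp [h01, h10]
    have n2_3 : ((5 : Fin 13), (1 : ZMod g)) ≠ (1, 0) := by simp [h01, h10]
    have n2_4 : ((5 : Fin 13), (1 : ZMod g)) ≠ (9, 0) := by simp [h01, h10]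
    have n3_4 : ((1 : Fin 13), (0 : ZMod g)) ≠ (9, 0) := by simp [h01, h10]
    unfold ty
    by_cases q0 : ρ = (8, 0)
    · rw [q0, if_pos rfl, if_pos rfl, if_neg n0_1, if_neg n0_2, if_neg n0_3, if_neg n0_4, c8]; ring
    rw [if_neg q0, if_neg q0]
    by_cases q1 : ρ = (8, 1)
    · rw [q1, if_pos rfl, if_pos rfl, if_neg n1_2, if_neg n1_3, if_neg n1_4, c8]; ring
    rw [if_neg q1, if_neg q1]
    by_cases q2 : ρ = (5, 1)
    · rw [q2, if_pos rfl, if_pos rfl, if_neg n2_3, if_neg n2_4, c5]; ring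
    rw [if_neg q2, if_neg q2]
    by_cases q3 : ρ = (1, 0)
    · rw [q3, if_pos rfl, if_pos rfl, if_neg n3_4, c1]; ring
    rw [if_neg q3, if_neg q3]
    by_cases q4 : ρ = (9, 0)
    · rw [q4, if_pos rfl, if_pos rfl, c9]; ring
    rw [if_neg q4, if_neg q4]
    ring
  rw [Finset.sum_congr rfl (fun ρ _ => key ρ)]
  simp only [Finset.sum_add_distrib, Finset.sum_ite_eq', Finset.mem_univ, if_true]
  rw [Fintype.sum_prod_type]
  simp only [Finset.sum_const, Finset.card_univ, ZMod.card, nsmul_eq_mul, ← Finset.mul_sum]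
  ring

noncomputable def LL (g : ℕ) (hg : Function.Injective (ex g)) (ρ c : Fin 13 × ZMod g) :
    Fin 13 × ZMod g :=
  (L0 (src g hg c.1 ρ).1 c.1,
    -(src g hg c.1 ρ).2 - c.2 - ((tau (src g hg c.1 ρ).1 c.1 : ℕ) : ZMod g))

theorem LL_latin (g : ℕ) [NeZero g] (h01 : (0 : ZMod g) ≠ 1) (hg : Function.Injective (ex g)) :
    IsLatin (LL g hg) := by
  refine ⟨fun ρ => Finite.injective_iff_bijective.mp ?_,
    fun c => Finite.injective_iff_bijective.mp ?_⟩
  · rintro ⟨J, j⟩ ⟨J', j'⟩ h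
    have e1 := congrArg Prod.fst h
    have e2 := congrArg Prod.snd h
    simp only [LL] at e1 e2
    rw [src_row g h01, src_row g h01] at e1
    have hJ := rowT_inj _ _ _ e1
    subst hJ
    have : j = j' := by
      have e3 := sub_left_injective e2
      simpa using e3
    rw [this]
  · rintro ρ ρ' h
    have e1 := congrArg Prod.fst h
    have e2 := congrArg Prod.snd h
    simp only [LL] at e1 e2
    have hI := L0_col _ _ _ e1
    rw [hI] at e2
    have e3 : (src g hg c.1 ρ).2 = (src g hg c.1 ρ').2 := by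
      have := sub_left_injective (sub_left_injective e2)
      simpa using this
    exact (src g hg c.1).injective (Prod.ext hI e3)

def PP (g : ℕ) [NeZero g] : Finset ((Fin 13 × ZMod g) × (Fin 13 × ZMod g)) :=
  Finset.univ.filter fun p => p.2.1 ∈ patT (ty g p.1)

theorem PP_row (g : ℕ) [NeZero g] (ρ : Fin 13 × ZMod g) :
    ((PP g).filter fun c => c.1 = ρ).card = 3 * g := by
  have : ((PP g).filter fun c => c.1 = ρ) =
      ({ρ} : Finset (Fin 13 × ZMod g)) ×ˢ (patT (ty g ρ) ×ˢ (Finset.univ : Finset (ZMod g))) := by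
    ext p
    simp only [PP, Finset.mem_filter, Finset.mem_univ, true_and, Finset.mem_product,
      Finset.mem_singleton, and_true]
    constructor
    · rintro ⟨h1, h2⟩; subst h2; exact ⟨rfl, h1⟩
    · rintro ⟨h1, h2⟩; subst h1; exact ⟨h2, rfl⟩
  rw [this, Finset.card_product, Finset.card_product, patT_card]
  simp [ZMod.card]

theorem PP_col (g : ℕ) [NeZero g] (h01 : (0 : ZMod g) ≠ 1) (c : Fin 13 × ZMod g) :
    ((PP g).filter fun p => p.2 = c).card = 3 * g := by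
  have h : ((PP g).filter fun p => p.2 = c) =
      (Finset.univ.filter fun ρ : Fin 13 × ZMod g => c.1 ∈ patT (ty g ρ)) ×ˢ
        ({c} : Finset (Fin 13 × ZMod g)) := by
    ext p
    simp only [PP, Finset.mem_filter, Finset.mem_univ, true_and, Finset.mem_product,
      Finset.mem_singleton]
    constructor
    · rintro ⟨h1, h2⟩; subst h2; exact ⟨h1, rfl⟩
    · rintro ⟨h1, h2⟩; subst h2; exact ⟨h1, rfl⟩
  rw [h, Finset.card_product, Finset.card_singleton, mul_one]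
  have h2 := sum_ty g h01 (FJ c.1)
  rw [(FJ_sum c.1).1, (FJ_sum c.1).2] at h2
  have h3 : ((Finset.univ.filter fun ρ : Fin 13 × ZMod g => c.1 ∈ patT (ty g ρ)).card : ℤ) =
      ∑ ρ : Fin 13 × ZMod g, FJ c.1 (ty g ρ) := by
    simp [FJ]
  have h4 : ((Finset.univ.filter fun ρ : Fin 13 × ZMod g => c.1 ∈ patT (ty g ρ)).card : ℤ) =
      3 * g := by rw [h3, h2]; ring
  exact_mod_cast h4

theorem PP_sym (g : ℕ) [NeZero g] (h01 : (0 : ZMod g) ≠ 1) (hg : Function.Injective (ex g))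
    (s : Fin 13 × ZMod g) :
    ((PP g).filter fun p => LL g hg p.1 p.2 = s).card = 3 * g := by
  have h1 : ((PP g).filter fun p => LL g hg p.1 p.2 = s).card =
      (Finset.univ.filter fun q : (Fin 13 × ZMod g) × Fin 13 =>
        q.2 ∈ patT (ty g q.1) ∧ L0 (rowT (ty g q.1) q.2) q.2 = s.1).card := by
    refine Finset.card_nbij' (fun p => (p.1, p.2.1))
      (fun q => (q.1, (q.2, -(src g hg q.2 q.1).2 -
        ((tau (src g hg q.2 q.1).1 q.2 : ℕ) : ZMod g) - s.2))) ?_ ?_ ?_ ?_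
    · intro p hp
      simp only [PP, Finset.coe_filter, Finset.mem_filter, Finset.mem_univ, true_and,
        Set.mem_ofPred_eq] at hp ⊢
      refine ⟨hp.1, ?_⟩
      rw [← hp.2, ← src_row g h01 hg]
      rfl
    · intro q hq
      simp only [PP, Finset.coe_filter, Finset.mem_filter, Finset.mem_univ, true_and,
        Set.mem_ofPred_eq] at hq ⊢
      refine ⟨hq.1, ?_⟩
      rw [← src_row g h01 hg] at hq
      refine Prod.ext hq.2 ?_
      simp only [LL]
      ring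
    · rintro ⟨ρ, J, j⟩ hp
      simp only [PP, Finset.coe_filter, Finset.mem_filter, Finset.mem_univ, true_and,
        Set.mem_ofPred_eq] at hp ⊢
      have e2 := congrArg Prod.snd hp.2
      simp only [LL] at e2
      rw [← e2]
      refine Prod.ext rfl (Prod.ext rfl ?_)
      simp only
      ring
    · rintro ⟨ρ, J⟩ hq
      rfl
  rw [h1]
  have h2 := sum_ty g h01 (FS s.1)
  rw [(FS_sum s.1).1, (FS_sum s.1).2] at h2
  have h3 : ((Finset.univ.filter fun q : (Fin 13 × ZMod g) × Fin 13 =>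
        q.2 ∈ patT (ty g q.1) ∧ L0 (rowT (ty g q.1) q.2) q.2 = s.1).card : ℤ) =
      ∑ ρ : Fin 13 × ZMod g, FS s.1 (ty g ρ) := by
    rw [Finset.card_filter, Fintype.sum_prod_type]
    push_cast
    refine Finset.sum_congr rfl fun ρ _ => ?_
    rw [FS, Finset.card_filter]
    push_cast
    rfl
  have h4 : ((Finset.univ.filter fun q : (Fin 13 × ZMod g) × Fin 13 =>
        q.2 ∈ patT (ty g q.1) ∧ L0 (rowT (ty g q.1) q.2) q.2 = s.1).card : ℤ) =
      3 * g := by rw [h3, h2]; ring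
  exact_mod_cast h4

/-- row labels -/
noncomputable def lamR (g : ℕ) [NeZero g] (ρ : Fin 13 × ZMod g) : ZMod (3 * g) :=
  (rl ρ.1 : ZMod (3 * g)) + phi 3 g ρ.2 + (if ρ = (8, 0) then phi 3 g 1 else 0)

noncomputable def lamC (g : ℕ) [NeZero g] (c : Fin 13 × ZMod g) : ZMod (3 * g) :=
  (rl c.1 : ZMod (3 * g)) + phi 3 g c.2

noncomputable def lamS (g : ℕ) [NeZero g] (s : Fin 13 × ZMod g) : ZMod (3 * g) :=
  (sl s.1 : ZMod (3 * g)) + phi 3 g s.2

theorem lam_src (g : ℕ) [NeZero g] (h01 : (0 : ZMod g) ≠ 1) (hg : Function.Injective (ex g))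
    (ρ : Fin 13 × ZMod g) (J : Fin 13) (hJ : J ∈ patT (ty g ρ)) :
    lamR g ρ = (rl (src g hg J ρ).1 : ZMod (3 * g)) + phi 3 g (src g hg J ρ).2 := by
  have hu : ∀ u : Fin 3, u ≠ 0 → rl (ex g u).1 = 1 ∧ (ex g u).2 = 1 := by
    intro u hu
    fin_cases u
    · exact absurd rfl hu
    · exact ⟨rfl, rfl⟩
    · exact ⟨rfl, rfl⟩
  by_cases h : ∃ t, ex g t = ρ
  · obtain ⟨t, rfl⟩ := h
    rw [src_ex]
    have hne : pf J t ≠ 0 := by
      fin_cases t
      · exact pf_ne0 J (by rw [← ty_ex0 g]; exact hJ)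
      · exact pf_ne1 J (by rw [← ty_ex1 g h01]; exact hJ)
      · exact pf_ne2 J (by rw [← ty_ex2 g]; exact hJ)
    rw [(hu _ hne).1, (hu _ hne).2]
    fin_cases t
    · simp [lamR, ex, rl]
    · have : ((8 : Fin 13), (1 : ZMod g)) ≠ (8, 0) := by simp [h01.symm]
      change (rl 8 : ZMod (3 * g)) + phi 3 g 1 +
        (if ((8 : Fin 13), (1 : ZMod g)) = (8, 0) then phi 3 g 1 else 0) = _
      rw [if_neg this, add_zero]
      rfl
    · have : ((5 : Fin 13), (1 : ZMod g)) ≠ (8, 0) := by simp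
      change (rl 5 : ZMod (3 * g)) + phi 3 g 1 +
        (if ((5 : Fin 13), (1 : ZMod g)) = (8, 0) then phi 3 g 1 else 0) = _
      rw [if_neg this, add_zero]
      rfl
  · push Not at h
    rw [src_not g hg J ρ h, lamR, if_neg (fun h' => h 0 h'.symm), add_zero]

theorem PP_zero (g : ℕ) [NeZero g] (h01 : (0 : ZMod g) ≠ 1) (hg : Function.Injective (ex g))
    (p : (Fin 13 × ZMod g) × (Fin 13 × ZMod g)) (hp : p ∈ PP g) :
    lamR g p.1 + lamC g p.2 + lamS g (LL g hg p.1 p.2) = 0 := by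
  obtain ⟨ρ, J, j⟩ := p
  simp only [PP, Finset.mem_filter, Finset.mem_univ, true_and] at hp
  have hz := zero_coarse _ _ hp
  rw [← src_row g h01 hg] at hz
  simp only
  rw [lam_src g h01 hg ρ J hp]
  simp only [lamC, lamS, LL, map_sub, map_neg, phi_natCast]
  have hz' := congrArg (fun n : ℕ => (n : ZMod (3 * g))) hz
  simp only [Nat.cast_add, Nat.cast_mul, Nat.cast_ofNat] at hz'
  linear_combination hz'


theorem W_eq (g : ℕ) [NeZero g] (hodd : Odd g) :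
    ∑ ρ, lamR g ρ + ∑ c, lamC g c + ∑ s, lamS g s = ((38 * g + 3 : ℕ) : ZMod (3 * g)) := by
  have hphi : phi 3 g 1 = ((3 : ℕ) : ZMod (3 * g)) := by
    have := phi_natCast 3 g 1
    simpa using this
  have hC : ∑ c, lamC g c = ((12 * g : ℕ) : ZMod (3 * g)) := by
    simp only [lamC]
    rw [Fintype.sum_prod_type]
    simp only [Finset.sum_add_distrib, phi_sum 3 g hodd, Finset.sum_const, Finset.card_univ,
      ZMod.card, nsmul_eq_mul, add_zero]
    rw [← Finset.mul_sum, ← Nat.cast_sum, ← Nat.cast_mul]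
    congr 1
    have : ∑ i : Fin 13, rl i = 12 := by decide
    rw [this]; ring
  have hS : ∑ s, lamS g s = ((14 * g : ℕ) : ZMod (3 * g)) := by
    simp only [lamS]
    rw [Fintype.sum_prod_type]
    simp only [Finset.sum_add_distrib, phi_sum 3 g hodd, Finset.sum_const, Finset.card_univ,
      ZMod.card, nsmul_eq_mul, add_zero]
    rw [← Finset.mul_sum, ← Nat.cast_sum, ← Nat.cast_mul]
    congr 1
    have : ∑ i : Fin 13, sl i = 14 := by decide
    rw [this]; ring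
  have hR : ∑ ρ, lamR g ρ = ((12 * g : ℕ) : ZMod (3 * g)) + ((3 : ℕ) : ZMod (3 * g)) := by
    have : ∀ ρ, lamR g ρ = lamC g ρ + (if ρ = (8, 0) then phi 3 g 1 else 0) := fun ρ => rfl
    simp only [this]
    rw [Finset.sum_add_distrib, hC, Finset.sum_ite_eq', if_pos (Finset.mem_univ _), hphi]
  rw [hR, hC, hS]
  push_cast
  ring

theorem exists_indivisible (g : ℕ) (hodd : Odd g) (h1 : 1 < g) (h5 : Nat.Coprime g 3) :
    HasIndivisiblePlex (13 * g) (3 * g) := by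
  have : NeZero g := ⟨by omega⟩
  have : Fact (1 < g) := ⟨h1⟩
  have h01 : (0 : ZMod g) ≠ 1 := zero_ne_one
  have hg := ex_inj g h01
  have hcard : Fintype.card (Fin 13 × ZMod g) = 13 * g := by
    simp [ZMod.card]
  have e : (Fin 13 × ZMod g) ≃ Fin (13 * g) := Fintype.equivFinOfCardEq hcard
  refine transport (13 * g) e e e (LL g hg) (LL_latin g h01 hg) (3 * g) (PP g)
    ⟨PP_row g, PP_col g h01, PP_sym g h01 hg⟩ (lamR g) (lamC g) (lamS g)
    (fun p hp => PP_zero g h01 hg p hp) ?_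
  rw [W_eq g hodd]
  refine (ZMod.isUnit_iff_coprime _ _).mpr ?_
  refine Nat.Coprime.mul_right ?_ ?_
  · have : Nat.Coprime (38 * g) 3 := Nat.Coprime.mul_left (by norm_num) h5
    first
      | exact Nat.coprime_add_self_left.mpr this
      | simpa using this
  · have : Nat.Coprime 3 g := h5.symm
    simpa using this

end F13_3

namespace F14_3

def L0 : Fin 14 → Fin 14 → Fin 14 :=
  ![![6, 7, 11, 13, 9, 3, 1, 8, 0, 4, 12, 10, 2, 5], ![3, 6, 7, 5, 1, 4, 0, 9, 12, 2, 11, 8, 13, 10], ![7, 5, 9, 0, 8, 1, 11, 3, 2, 10, 4, 13, 12, 6], ![1, 8, 13, 11, 6, 10, 7, 0, 5, 3, 9, 2, 4, 12], ![4, 3, 6, 7, 5, 8, 10, 2, 1, 13, 0, 12, 9, 11], ![11, 0, 8, 1, 3, 13, 2, 12, 10, 9, 6, 5, 7, 4], ![9, 1, 3, 2, 10, 5, 4, 13, 6, 12, 8, 0, 11, 7], ![12, 2, 5, 3, 4, 0, 13, 6, 7, 11, 1, 9, 10, 8], ![2, 13, 4, 9, 0, 11, 12, 10, 8, 7, 5, 1, 6, 3], ![0, 4, 1, 6, 2, 12, 9, 11, 3, 8, 10, 7, 5, 13], ![8, 9, 12, 10, 11, 2, 5, 4, 13, 6, 7, 3,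 1, 0], ![5, 10, 2, 12, 13, 9, 6, 7, 4, 0, 3, 11, 8, 1], ![10, 11, 0, 4, 12, 7, 8, 1, 9, 5, 13, 6, 3, 2], ![13, 12, 10, 8, 7, 6, 3, 5, 11, 1, 2, 4, 0, 9]]

def rl : Fin 14 → ℕ := ![0, 0, 0, 0, 0, 1, 1, 1, 1, 1, 2, 2, 2, 2]

def sl : Fin 14 → ℕ := ![2, 2, 2, 2, 2, 0, 0, 0, 0, 0, 1, 1, 1, 1]

def tau (I J : Fin 14) : ℕ := (rl I + rl J + sl (L0 I J)) / 3

def pf : Fin 14 → Fin 3 → Fin 3 :=
  ![![0, 2, 1], ![0, 2, 1], ![2, 0, 1], ![0, 2, 1], ![0, 2, 1], ![0, 2, 1], ![2, 0, 1], ![0, 2, 1], ![0, 2, 1], ![2, 0, 1], ![0, 2, 1], ![2, 0, 1], ![2, 0, 1], ![2, 0, 1]]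

def exrow : Fin 3 → Fin 14 := ![4, 4, 2]

def patT : Fin 19 → Finset (Fin 14) :=
  ![{1, 5, 8}, {3, 6, 13}, {1, 2, 7}, {1, 7, 13}, {3, 8, 11}, {5, 10, 12}, {2, 9, 10}, {4, 9, 11}, {0, 2, 5}, {4, 7, 12}, {3, 9, 12}, {4, 6, 13}, {0, 6, 8}, {0, 10, 11}, {2, 11, 12}, {0, 1, 7}, {3, 8, 11}, {3, 8, 10}, {5, 6, 8}]

def rowT (t : Fin 19) (J : Fin 14) : Fin 14 :=
  (![0, 1, 2, 3, 4, 5, 6, 7, 8, 9, 10, 11, 12, 13, exrow (pf J 0), exrow (pf J 1), exrow (pf J 2), 5, 12] : Fin 19 → Fin 14) t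

theorem L0_col : ∀ J I I' : Fin 14, L0 I J = L0 I' J → I = I' := by decide +kernel

theorem rowT_inj : ∀ (t : Fin 19) (J J' : Fin 14),
    L0 (rowT t J) J = L0 (rowT t J') J' → J = J' := by decide +kernel

theorem pf_inj : ∀ J : Fin 14, ∀ u v : Fin 3, pf J u = pf J v → u = v := by decide +kernel

theorem zero_coarse : ∀ (t : Fin 19) (J : Fin 14), J ∈ patT t →
    rl (rowT t J) + rl J + sl (L0 (rowT t J) J) = 3 * tau (rowT t J) J := by decide +kernel

theorem patT_card : ∀ t : Fin 19, (patT t).card = 3 := by decide +kernel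

theorem pf_ne0 : ∀ J : Fin 14, J ∈ patT 14 → pf J 0 ≠ 0 := by decide +kernel
theorem pf_ne1 : ∀ J : Fin 14, J ∈ patT 15 → pf J 1 ≠ 0 := by decide +kernel
theorem pf_ne2 : ∀ J : Fin 14, J ∈ patT 16 → pf J 2 ≠ 0 := by decide +kernel

def FJ (J : Fin 14) (t : Fin 19) : ℤ := if J ∈ patT t then 1 else 0

def FS (S : Fin 14) (t : Fin 19) : ℤ :=
  ((Finset.univ.filter fun J : Fin 14 => J ∈ patT t ∧ L0 (rowT t J) J = S).card : ℤ)

theorem FJ_sum : ∀ J : Fin 14, (∑ I : Fin 14, FJ J (Fin.castLE (by norm_num) I)) = 3 ∧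
    (FJ J 14 - FJ J 4) + (FJ J 15 - FJ J 4) + (FJ J 16 - FJ J 2) + (FJ J 17 - FJ J 5) + (FJ J 18 - FJ J 12) = 0 := by decide +kernel

theorem FS_sum : ∀ S : Fin 14, (∑ I : Fin 14, FS S (Fin.castLE (by norm_num) I)) = 3 ∧
    (FS S 14 - FS S 4) + (FS S 15 - FS S 4) + (FS S 16 - FS S 2) + (FS S 17 - FS S 5) + (FS S 18 - FS S 12) = 0 := by decide +kernel

def ex (g : ℕ) : Fin 3 → Fin 14 × ZMod g := ![(4, 0), (4, 1), (2, 1)]

theorem ex_fst (g : ℕ) (u : Fin 3) : (ex g u).1 = exrow u := by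
  fin_cases u <;> rfl

theorem ex_inj (g : ℕ) (h01 : (0 : ZMod g) ≠ 1) : Function.Injective (ex g) := by
  intro u v h
  have h10 : (1 : ZMod g) ≠ 0 := h01.symm
  fin_cases u <;> fin_cases v <;> simp [ex, Prod.ext_iff, h01, h10] at h ⊢

noncomputable def pi' (J : Fin 14) : Equiv.Perm (Fin 3) :=
  Equiv.ofBijective (pf J) (Finite.injective_iff_bijective.mp (fun u v h => pf_inj J u v h))

noncomputable def src (g : ℕ) (hg : Function.Injective (ex g)) (J : Fin 14) :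
    Equiv.Perm (Fin 14 × ZMod g) :=
  (pi' J).viaEmbedding ⟨ex g, hg⟩

theorem src_ex (g : ℕ) (hg : Function.Injective (ex g)) (J : Fin 14) (t : Fin 3) :
    src g hg J (ex g t) = ex g (pf J t) :=
  Equiv.Perm.viaEmbedding_apply (pi' J) ⟨ex g, hg⟩ t

theorem src_not (g : ℕ) (hg : Function.Injective (ex g)) (J : Fin 14) (ρ : Fin 14 × ZMod g)
    (h : ∀ t, ex g t ≠ ρ) : src g hg J ρ = ρ :=
  Equiv.Perm.viaEmbedding_apply_of_notMem _ _ _ (by rintro ⟨t, ht⟩; exact h t ht)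

def ty (g : ℕ) (ρ : Fin 14 × ZMod g) : Fin 19 :=
  if ρ = (4, 0) then 14 else if ρ = (4, 1) then 15 else if ρ = (2, 1) then 16 else if ρ = (5, 0) then 17 else if ρ = (12, 0) then 18 else Fin.castLE (by norm_num) ρ.1

theorem rowT_castLE : ∀ I J : Fin 14, rowT (Fin.castLE (by norm_num) I) J = I := by
  decide +kernel

theorem ty_ex0 (g : ℕ) : ty g (ex g 0) = 14 := by
  simp [ty, ex]

theorem ty_ex1 (g : ℕ) (h01 : (0 : ZMod g) ≠ 1) : ty g (ex g 1) = 15 := by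
  simp [ty, ex, h01.symm]

theorem ty_ex2 (g : ℕ) : ty g (ex g 2) = 16 := by
  simp [ty, ex]

theorem rowT_ty_not (g : ℕ) (ρ : Fin 14 × ZMod g) (h : ∀ t, ex g t ≠ ρ) (J : Fin 14) :
    rowT (ty g ρ) J = ρ.1 := by
  have h0 : ρ ≠ (4, 0) := fun h' => h 0 h'.symm
  have h1 : ρ ≠ (4, 1) := fun h' => h 1 h'.symm
  have h2 : ρ ≠ (2, 1) := fun h' => h 2 h'.symm
  unfold ty
  rw [if_neg h0, if_neg h1, if_neg h2]
  by_cases m0 : ρ = (5, 0)
  · rw [if_pos m0, m0]; rfl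
  rw [if_neg m0]
  by_cases m1 : ρ = (12, 0)
  · rw [if_pos m1, m1]; rfl
  rw [if_neg m1]
  exact rowT_castLE _ _

theorem src_row (g : ℕ) (h01 : (0 : ZMod g) ≠ 1) (hg : Function.Injective (ex g)) (J : Fin 14)
    (ρ : Fin 14 × ZMod g) : (src g hg J ρ).1 = rowT (ty g ρ) J := by
  by_cases h : ∃ t, ex g t = ρ
  · obtain ⟨t, rfl⟩ := h
    rw [src_ex, ex_fst]
    fin_cases t
    · change exrow (pf J 0) = rowT (ty g (ex g 0)) J
      rw [ty_ex0]; rfl
    · change exrow (pf J 1) = rowT (ty g (ex g 1)) J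
      rw [ty_ex1 g h01]; rfl
    · change exrow (pf J 2) = rowT (ty g (ex g 2)) J
      rw [ty_ex2]; rfl
  · push Not at h
    rw [src_not g hg J ρ h, rowT_ty_not g ρ h]

theorem sum_ty (g : ℕ) [NeZero g] (h01 : (0 : ZMod g) ≠ 1) (F : Fin 19 → ℤ) :
    ∑ ρ : Fin 14 × ZMod g, F (ty g ρ) =
      g * ∑ I : Fin 14, F (Fin.castLE (by norm_num) I) +
      ((F 14 - F 4) + (F 15 - F 4) + (F 16 - F 2) + (F 17 - F 5) + (F 18 - F 12)) := by
  have h10 : (1 : ZMod g) ≠ 0 := h01.symm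
  have key : ∀ ρ : Fin 14 × ZMod g, F (ty g ρ) = F (Fin.castLE (by norm_num) ρ.1)
      + (if ρ = (4, 0) then F 14 - F 4 else 0) + (if ρ = (4, 1) then F 15 - F 4 else 0) + (if ρ = (2, 1) then F 16 - F 2 else 0) + (if ρ = (5, 0) then F 17 - F 5 else 0) + (if ρ = (12, 0) then F 18 - F 12 else 0) := by
    intro ρ
    have c2 : (Fin.castLE (by norm_num) (2 : Fin 14) : Fin 19) = 2 := rfl
    have c4 : (Fin.castLE (by norm_num) (4 : Fin 14) : Fin 19) = 4 := rfl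
    have c5 : (Fin.castLE (by norm_num) (5 : Fin 14) : Fin 19) = 5 := rfl
    have c12 : (Fin.castLE (by norm_num) (12 : Fin 14) : Fin 19) = 12 := rfl
    have n0_1 : ((4 : Fin 14), (0 : ZMod g)) ≠ (4, 1) := by simp [h01, h10]
    have n0_2 : ((4 : Fin 14), (0 : ZMod g)) ≠ (2, 1) := by simp [h01, h10]
    have n0_3 : ((4 : Fin 14), (0 : ZMod g)) ≠ (5, 0) := by simp [h01, h10]
    have n0_4 : ((4 : Fin 14), (0 : ZMod g)) ≠ (12, 0) := by simp [h01, h10]
    have n1_2 : ((4 : Fin 14), (1 : ZMod g)) ≠ (2, 1) := by simp [h01, h10]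
    have n1_3 : ((4 : Fin 14), (1 : ZMod g)) ≠ (5, 0) := by simp [h01, h10]
    have n1_4 : ((4 : Fin 14), (1 : ZMod g)) ≠ (12, 0) := by simp [h01, h10]
    have n2_3 : ((2 : Fin 14), (1 : ZMod g)) ≠ (5, 0) := by simp [h01, h10]
    have n2_4 : ((2 : Fin 14), (1 : ZMod g)) ≠ (12, 0) := by simp [h01, h10]
    have n3_4 : ((5 : Fin 14), (0 : ZMod g)) ≠ (12, 0) := by simp [h01, h10]
    unfold ty
    by_cases q0 : ρ = (4, 0)
    · rw [q0, if_pos rfl, if_pos rfl, if_neg n0_1, if_neg n0_2, if_neg n0_3, if_neg n0_4, c4]; ring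
    rw [if_neg q0, if_neg q0]
    by_cases q1 : ρ = (4, 1)
    · rw [q1, if_pos rfl, if_pos rfl, if_neg n1_2, if_neg n1_3, if_neg n1_4, c4]; ring
    rw [if_neg q1, if_neg q1]
    by_cases q2 : ρ = (2, 1)
    · rw [q2, if_pos rfl, if_pos rfl, if_neg n2_3, if_neg n2_4, c2]; ring
    rw [if_neg q2, if_neg q2]
    by_cases q3 : ρ = (5, 0)
    · rw [q3, if_pos rfl, if_pos rfl, if_neg n3_4, c5]; ring
    rw [if_neg q3, if_neg q3]
    by_cases q4 : ρ = (12, 0)
    · rw [q4, if_pos rfl, if_pos rfl, c12]; ring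
    rw [if_neg q4, if_neg q4]
    ring
  rw [Finset.sum_congr rfl (fun ρ _ => key ρ)]
  simp only [Finset.sum_add_distrib, Finset.sum_ite_eq', Finset.mem_univ, if_true]
  rw [Fintype.sum_prod_type]
  simp only [Finset.sum_const, Finset.card_univ, ZMod.card, nsmul_eq_mul, ← Finset.mul_sum]
  ring

noncomputable def LL (g : ℕ) (hg : Function.Injective (ex g)) (ρ c : Fin 14 × ZMod g) :
    Fin 14 × ZMod g :=
  (L0 (src g hg c.1 ρ).1 c.1,
    -(src g hg c.1 ρ).2 - c.2 - ((tau (src g hg c.1 ρ).1 c.1 : ℕ) : ZMod g))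

theorem LL_latin (g : ℕ) [NeZero g] (h01 : (0 : ZMod g) ≠ 1) (hg : Function.Injective (ex g)) :
    IsLatin (LL g hg) := by
  refine ⟨fun ρ => Finite.injective_iff_bijective.mp ?_,
    fun c => Finite.injective_iff_bijective.mp ?_⟩
  · rintro ⟨J, j⟩ ⟨J', j'⟩ h
    have e1 := congrArg Prod.fst h
    have e2 := congrArg Prod.snd h
    simp only [LL] at e1 e2
    rw [src_row g h01, src_row g h01] at e1
    have hJ := rowT_inj _ _ _ e1
    subst hJ
    have : j = j' := by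
      have e3 := sub_left_injective e2
      simpa using e3
    rw [this]
  · rintro ρ ρ' h
    have e1 := congrArg Prod.fst h
    have e2 := congrArg Prod.snd h
    simp only [LL] at e1 e2
    have hI := L0_col _ _ _ e1
    rw [hI] at e2
    have e3 : (src g hg c.1 ρ).2 = (src g hg c.1 ρ').2 := by
      have := sub_left_injective (sub_left_injective e2)
      simpa using this
    exact (src g hg c.1).injective (Prod.ext hI e3)

def PP (g : ℕ) [NeZero g] : Finset ((Fin 14 × ZMod g) × (Fin 14 × ZMod g)) :=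
  Finset.univ.filter fun p => p.2.1 ∈ patT (ty g p.1)

theorem PP_row (g : ℕ) [NeZero g] (ρ : Fin 14 × ZMod g) :
    ((PP g).filter fun c => c.1 = ρ).card = 3 * g := by
  have : ((PP g).filter fun c => c.1 = ρ) =
      ({ρ} : Finset (Fin 14 × ZMod g)) ×ˢ (patT (ty g ρ) ×ˢ (Finset.univ : Finset (ZMod g))) := by
    ext p
    simp only [PP, Finset.mem_filter, Finset.mem_univ, true_and, Finset.mem_product,
      Finset.mem_singleton, and_true]
    constructor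
    · rintro ⟨h1, h2⟩; subst h2; exact ⟨rfl, h1⟩
    · rintro ⟨h1, h2⟩; subst h1; exact ⟨h2, rfl⟩
  rw [this, Finset.card_product, Finset.card_product, patT_card]
  simp [ZMod.card]

theorem PP_col (g : ℕ) [NeZero g] (h01 : (0 : ZMod g) ≠ 1) (c : Fin 14 × ZMod g) :
    ((PP g).filter fun p => p.2 = c).card = 3 * g := by
  have h : ((PP g).filter fun p => p.2 = c) =
      (Finset.univ.filter fun ρ : Fin 14 × ZMod g => c.1 ∈ patT (ty g ρ)) ×ˢ
        ({c} : Finset (Fin 14 × ZMod g)) := by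
    ext p
    simp only [PP, Finset.mem_filter, Finset.mem_univ, true_and, Finset.mem_product,
      Finset.mem_singleton]
    constructor
    · rintro ⟨h1, h2⟩; subst h2; exact ⟨h1, rfl⟩
    · rintro ⟨h1, h2⟩; subst h2; exact ⟨h1, rfl⟩
  rw [h, Finset.card_product, Finset.card_singleton, mul_one]
  have h2 := sum_ty g h01 (FJ c.1)
  rw [(FJ_sum c.1).1, (FJ_sum c.1).2] at h2
  have h3 : ((Finset.univ.filter fun ρ : Fin 14 × ZMod g => c.1 ∈ patT (ty g ρ)).card : ℤ) =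
      ∑ ρ : Fin 14 × ZMod g, FJ c.1 (ty g ρ) := by
    simp [FJ]
  have h4 : ((Finset.univ.filter fun ρ : Fin 14 × ZMod g => c.1 ∈ patT (ty g ρ)).card : ℤ) =
      3 * g := by rw [h3, h2]; ring
  exact_mod_cast h4

theorem PP_sym (g : ℕ) [NeZero g] (h01 : (0 : ZMod g) ≠ 1) (hg : Function.Injective (ex g))
    (s : Fin 14 × ZMod g) :
    ((PP g).filter fun p => LL g hg p.1 p.2 = s).card = 3 * g := by
  have h1 : ((PP g).filter fun p => LL g hg p.1 p.2 = s).card =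
      (Finset.univ.filter fun q : (Fin 14 × ZMod g) × Fin 14 =>
        q.2 ∈ patT (ty g q.1) ∧ L0 (rowT (ty g q.1) q.2) q.2 = s.1).card := by
    refine Finset.card_nbij' (fun p => (p.1, p.2.1))
      (fun q => (q.1, (q.2, -(src g hg q.2 q.1).2 -
        ((tau (src g hg q.2 q.1).1 q.2 : ℕ) : ZMod g) - s.2))) ?_ ?_ ?_ ?_
    · intro p hp
      simp only [PP, Finset.coe_filter, Finset.mem_filter, Finset.mem_univ, true_and,
        Set.mem_ofPred_eq] at hp ⊢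
      refine ⟨hp.1, ?_⟩
      rw [← hp.2, ← src_row g h01 hg]
      rfl
    · intro q hq
      simp only [PP, Finset.coe_filter, Finset.mem_filter, Finset.mem_univ, true_and,
        Set.mem_ofPred_eq] at hq ⊢
      refine ⟨hq.1, ?_⟩
      rw [← src_row g h01 hg] at hq
      refine Prod.ext hq.2 ?_
      simp only [LL]
      ring
    · rintro ⟨ρ, J, j⟩ hp
      simp only [PP, Finset.coe_filter, Finset.mem_filter, Finset.mem_univ, true_and,
        Set.mem_ofPred_eq] at hp ⊢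
      have e2 := congrArg Prod.snd hp.2
      simp only [LL] at e2
      rw [← e2]
      refine Prod.ext rfl (Prod.ext rfl ?_)
      simp only
      ring
    · rintro ⟨ρ, J⟩ hq
      rfl
  rw [h1]
  have h2 := sum_ty g h01 (FS s.1)
  rw [(FS_sum s.1).1, (FS_sum s.1).2] at h2
  have h3 : ((Finset.univ.filter fun q : (Fin 14 × ZMod g) × Fin 14 =>
        q.2 ∈ patT (ty g q.1) ∧ L0 (rowT (ty g q.1) q.2) q.2 = s.1).card : ℤ) =
      ∑ ρ : Fin 14 × ZMod g, FS s.1 (ty g ρ) := by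
    rw [Finset.card_filter, Fintype.sum_prod_type]
    push_cast
    refine Finset.sum_congr rfl fun ρ _ => ?_
    rw [FS, Finset.card_filter]
    push_cast
    rfl
  have h4 : ((Finset.univ.filter fun q : (Fin 14 × ZMod g) × Fin 14 =>
        q.2 ∈ patT (ty g q.1) ∧ L0 (rowT (ty g q.1) q.2) q.2 = s.1).card : ℤ) =
      3 * g := by rw [h3, h2]; ring
  exact_mod_cast h4

/-- row labels -/
noncomputable def lamR (g : ℕ) [NeZero g] (ρ : Fin 14 × ZMod g) : ZMod (3 * g) :=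
  (rl ρ.1 : ZMod (3 * g)) + phi 3 g ρ.2 + (if ρ = (4, 0) then phi 3 g 1 else 0)

noncomputable def lamC (g : ℕ) [NeZero g] (c : Fin 14 × ZMod g) : ZMod (3 * g) :=
  (rl c.1 : ZMod (3 * g)) + phi 3 g c.2

noncomputable def lamS (g : ℕ) [NeZero g] (s : Fin 14 × ZMod g) : ZMod (3 * g) :=
  (sl s.1 : ZMod (3 * g)) + phi 3 g s.2

theorem lam_src (g : ℕ) [NeZero g] (h01 : (0 : ZMod g) ≠ 1) (hg : Function.Injective (ex g))
    (ρ : Fin 14 × ZMod g) (J : Fin 14) (hJ : J ∈ patT (ty g ρ)) :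
    lamR g ρ = (rl (src g hg J ρ).1 : ZMod (3 * g)) + phi 3 g (src g hg J ρ).2 := by
  have hu : ∀ u : Fin 3, u ≠ 0 → rl (ex g u).1 = 0 ∧ (ex g u).2 = 1 := by
    intro u hu
    fin_cases u
    · exact absurd rfl hu
    · exact ⟨rfl, rfl⟩
    · exact ⟨rfl, rfl⟩
  by_cases h : ∃ t, ex g t = ρ
  · obtain ⟨t, rfl⟩ := h
    rw [src_ex]
    have hne : pf J t ≠ 0 := by
      fin_cases t
      · exact pf_ne0 J (by rw [← ty_ex0 g]; exact hJ)
      · exact pf_ne1 J (by rw [← ty_ex1 g h01]; exact hJ)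
      · exact pf_ne2 J (by rw [← ty_ex2 g]; exact hJ)
    rw [(hu _ hne).1, (hu _ hne).2]
    fin_cases t
    · simp [lamR, ex, rl]
    · have : ((4 : Fin 14), (1 : ZMod g)) ≠ (4, 0) := by simp [h01.symm]
      change (rl 4 : ZMod (3 * g)) + phi 3 g 1 +
        (if ((4 : Fin 14), (1 : ZMod g)) = (4, 0) then phi 3 g 1 else 0) = _
      rw [if_neg this, add_zero]
      rfl
    · have : ((2 : Fin 14), (1 : ZMod g)) ≠ (4, 0) := by simp
      change (rl 2 : ZMod (3 * g)) + phi 3 g 1 +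
        (if ((2 : Fin 14), (1 : ZMod g)) = (4, 0) then phi 3 g 1 else 0) = _
      rw [if_neg this, add_zero]
      rfl
  · push Not at h
    rw [src_not g hg J ρ h, lamR, if_neg (fun h' => h 0 h'.symm), add_zero]

theorem PP_zero (g : ℕ) [NeZero g] (h01 : (0 : ZMod g) ≠ 1) (hg : Function.Injective (ex g))
    (p : (Fin 14 × ZMod g) × (Fin 14 × ZMod g)) (hp : p ∈ PP g) :
    lamR g p.1 + lamC g p.2 + lamS g (LL g hg p.1 p.2) = 0 := by
  obtain ⟨ρ, J, j⟩ := p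
  simp only [PP, Finset.mem_filter, Finset.mem_univ, true_and] at hp
  have hz := zero_coarse _ _ hp
  rw [← src_row g h01 hg] at hz
  simp only
  rw [lam_src g h01 hg ρ J hp]
  simp only [lamC, lamS, LL, map_sub, map_neg, phi_natCast]
  have hz' := congrArg (fun n : ℕ => (n : ZMod (3 * g))) hz
  simp only [Nat.cast_add, Nat.cast_mul, Nat.cast_ofNat] at hz'
  linear_combination hz'


theorem W_eq (g : ℕ) [NeZero g] (hodd : Odd g) :
    ∑ ρ, lamR g ρ + ∑ c, lamC g c + ∑ s, lamS g s = ((40 * g + 3 : ℕ) : ZMod (3 * g)) := by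
  have hphi : phi 3 g 1 = ((3 : ℕ) : ZMod (3 * g)) := by
    have := phi_natCast 3 g 1
    simpa using this
  have hC : ∑ c, lamC g c = ((13 * g : ℕ) : ZMod (3 * g)) := by
    simp only [lamC]
    rw [Fintype.sum_prod_type]
    simp only [Finset.sum_add_distrib, phi_sum 3 g hodd, Finset.sum_const, Finset.card_univ,
      ZMod.card, nsmul_eq_mul, add_zero]
    rw [← Finset.mul_sum, ← Nat.cast_sum, ← Nat.cast_mul]
    congr 1
    have : ∑ i : Fin 14, rl i = 13 := by decide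
    rw [this]; ring
  have hS : ∑ s, lamS g s = ((14 * g : ℕ) : ZMod (3 * g)) := by
    simp only [lamS]
    rw [Fintype.sum_prod_type]
    simp only [Finset.sum_add_distrib, phi_sum 3 g hodd, Finset.sum_const, Finset.card_univ,
      ZMod.card, nsmul_eq_mul, add_zero]
    rw [← Finset.mul_sum, ← Nat.cast_sum, ← Nat.cast_mul]
    congr 1
    have : ∑ i : Fin 14, sl i = 14 := by decide
    rw [this]; ring
  have hR : ∑ ρ, lamR g ρ = ((13 * g : ℕ) : ZMod (3 * g)) + ((3 : ℕ) : ZMod (3 * g)) := by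
    have : ∀ ρ, lamR g ρ = lamC g ρ + (if ρ = (4, 0) then phi 3 g 1 else 0) := fun ρ => rfl
    simp only [this]
    rw [Finset.sum_add_distrib, hC, Finset.sum_ite_eq', if_pos (Finset.mem_univ _), hphi]
  rw [hR, hC, hS]
  push_cast
  ring

theorem exists_indivisible (g : ℕ) (hodd : Odd g) (h1 : 1 < g) (h5 : Nat.Coprime g 3) :
    HasIndivisiblePlex (14 * g) (3 * g) := by
  have : NeZero g := ⟨by omega⟩
  have : Fact (1 < g) := ⟨h1⟩
  have h01 : (0 : ZMod g) ≠ 1 := zero_ne_one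
  have hg := ex_inj g h01
  have hcard : Fintype.card (Fin 14 × ZMod g) = 14 * g := by
    simp [ZMod.card]
  have e : (Fin 14 × ZMod g) ≃ Fin (14 * g) := Fintype.equivFinOfCardEq hcard
  refine transport (14 * g) e e e (LL g hg) (LL_latin g h01 hg) (3 * g) (PP g)
    ⟨PP_row g, PP_col g h01, PP_sym g h01 hg⟩ (lamR g) (lamC g) (lamS g)
    (fun p hp => PP_zero g h01 hg p hp) ?_
  rw [W_eq g hodd]
  refine (ZMod.isUnit_iff_coprime _ _).mpr ?_
  refine Nat.Coprime.mul_right ?_ ?_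
  · have : Nat.Coprime (40 * g) 3 := Nat.Coprime.mul_left (by norm_num) h5
    first
      | exact Nat.coprime_add_self_left.mpr this
      | simpa using this
  · have : Nat.Coprime 3 g := h5.symm
    simpa using this

end F14_3

namespace F9_4

def L0 : Fin 9 → Fin 9 → Fin 9 :=
  ![![5, 7, 8, 6, 3, 1, 4, 2, 0], ![7, 8, 6, 0, 5, 4, 3, 1, 2], ![2, 4, 7, 5, 6, 3, 8, 0, 1], ![6, 5, 1, 7, 4, 0, 2, 3, 8], ![8, 6, 5, 3, 0, 2, 1, 7, 4], ![3, 0, 4, 2, 1, 8, 7, 5, 6], ![4, 2, 3, 1, 8, 7, 0, 6, 5], ![1, 3, 0, 8, 2, 6, 5, 4, 7], ![0, 1, 2, 4, 7, 5, 6, 8, 3]]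

def rl : Fin 9 → ℕ := ![0, 0, 0, 1, 1, 2, 2, 3, 3]

def sl : Fin 9 → ℕ := ![1, 1, 1, 2, 2, 3, 3, 0, 0]

def tau (I J : Fin 9) : ℕ := (rl I + rl J + sl (L0 I J)) / 4

def pf : Fin 9 → Fin 3 → Fin 3 :=
  ![![2, 0, 1], ![0, 2, 1], ![2, 0, 1], ![0, 2, 1], ![0, 2, 1], ![0, 2, 1], ![0, 2, 1], ![2, 0, 1], ![2, 0, 1]]

def exrow : Fin 3 → Fin 9 := ![6, 6, 5]

def patT : Fin 12 → Finset (Fin 9) :=
  ![{1, 2, 3, 7}, {0, 1, 5, 8}, {3, 4, 5, 7}, {4, 5, 6, 8}, {1, 2, 3, 6}, {3, 4, 5, 6}, {0, 2, 7, 8}, {0, 2, 6, 7}, {0, 1, 4, 8}, {0, 2, 7, 8}, {3, 4, 5, 6}, {0, 2, 7, 8}]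

def rowT (t : Fin 12) (J : Fin 9) : Fin 9 :=
  (![0, 1, 2, 3, 4, 5, 6, 7, 8, exrow (pf J 0), exrow (pf J 1), exrow (pf J 2)] : Fin 12 → Fin 9) t

theorem L0_col : ∀ J I I' : Fin 9, L0 I J = L0 I' J → I = I' := by decide +kernel

theorem rowT_inj : ∀ (t : Fin 12) (J J' : Fin 9),
    L0 (rowT t J) J = L0 (rowT t J') J' → J = J' := by decide +kernel

theorem pf_inj : ∀ J : Fin 9, ∀ u v : Fin 3, pf J u = pf J v → u = v := by decide +kernel

theorem zero_coarse : ∀ (t : Fin 12) (J : Fin 9), J ∈ patT t →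
    rl (rowT t J) + rl J + sl (L0 (rowT t J) J) = 4 * tau (rowT t J) J := by decide +kernel

theorem patT_card : ∀ t : Fin 12, (patT t).card = 4 := by decide +kernel

theorem pf_ne0 : ∀ J : Fin 9, J ∈ patT 9 → pf J 0 ≠ 0 := by decide +kernel
theorem pf_ne1 : ∀ J : Fin 9, J ∈ patT 10 → pf J 1 ≠ 0 := by decide +kernel
theorem pf_ne2 : ∀ J : Fin 9, J ∈ patT 11 → pf J 2 ≠ 0 := by decide +kernel

def FJ (J : Fin 9) (t : Fin 12) : ℤ := if J ∈ patT t then 1 else 0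

def FS (S : Fin 9) (t : Fin 12) : ℤ :=
  ((Finset.univ.filter fun J : Fin 9 => J ∈ patT t ∧ L0 (rowT t J) J = S).card : ℤ)

theorem FJ_sum : ∀ J : Fin 9, (∑ I : Fin 9, FJ J (Fin.castLE (by norm_num) I)) = 4 ∧
    (FJ J 9 - FJ J 6) + (FJ J 10 - FJ J 6) + (FJ J 11 - FJ J 5) = 0 := by decide +kernel

theorem FS_sum : ∀ S : Fin 9, (∑ I : Fin 9, FS S (Fin.castLE (by norm_num) I)) = 4 ∧
    (FS S 9 - FS S 6) + (FS S 10 - FS S 6) + (FS S 11 - FS S 5) = 0 := by decide +kernel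

def ex (g : ℕ) : Fin 3 → Fin 9 × ZMod g := ![(6, 0), (6, 1), (5, 1)]

theorem ex_fst (g : ℕ) (u : Fin 3) : (ex g u).1 = exrow u := by
  fin_cases u <;> rfl

theorem ex_inj (g : ℕ) (h01 : (0 : ZMod g) ≠ 1) : Function.Injective (ex g) := by
  intro u v h
  have h10 : (1 : ZMod g) ≠ 0 := h01.symm
  fin_cases u <;> fin_cases v <;> simp [ex, Prod.ext_iff, h01, h10] at h ⊢

noncomputable def pi' (J : Fin 9) : Equiv.Perm (Fin 3) :=
  Equiv.ofBijective (pf J) (Finite.injective_iff_bijective.mp (fun u v h => pf_inj J u v h))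

noncomputable def src (g : ℕ) (hg : Function.Injective (ex g)) (J : Fin 9) :
    Equiv.Perm (Fin 9 × ZMod g) :=
  (pi' J).viaEmbedding ⟨ex g, hg⟩

theorem src_ex (g : ℕ) (hg : Function.Injective (ex g)) (J : Fin 9) (t : Fin 3) :
    src g hg J (ex g t) = ex g (pf J t) :=
  Equiv.Perm.viaEmbedding_apply (pi' J) ⟨ex g, hg⟩ t

theorem src_not (g : ℕ) (hg : Function.Injective (ex g)) (J : Fin 9) (ρ : Fin 9 × ZMod g)
    (h : ∀ t, ex g t ≠ ρ) : src g hg J ρ = ρ :=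
  Equiv.Perm.viaEmbedding_apply_of_notMem _ _ _ (by rintro ⟨t, ht⟩; exact h t ht)

def ty (g : ℕ) (ρ : Fin 9 × ZMod g) : Fin 12 :=
  if ρ = (6, 0) then 9 else if ρ = (6, 1) then 10 else if ρ = (5, 1) then 11 else Fin.castLE (by norm_num) ρ.1

theorem rowT_castLE : ∀ I J : Fin 9, rowT (Fin.castLE (by norm_num) I) J = I := by
  decide +kernel

theorem ty_ex0 (g : ℕ) : ty g (ex g 0) = 9 := by
  simp [ty, ex]

theorem ty_ex1 (g : ℕ) (h01 : (0 : ZMod g) ≠ 1) : ty g (ex g 1) = 10 := by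
  simp [ty, ex, h01.symm]

theorem ty_ex2 (g : ℕ) : ty g (ex g 2) = 11 := by
  simp [ty, ex]

theorem rowT_ty_not (g : ℕ) (ρ : Fin 9 × ZMod g) (h : ∀ t, ex g t ≠ ρ) (J : Fin 9) :
    rowT (ty g ρ) J = ρ.1 := by
  have h0 : ρ ≠ (6, 0) := fun h' => h 0 h'.symm
  have h1 : ρ ≠ (6, 1) := fun h' => h 1 h'.symm
  have h2 : ρ ≠ (5, 1) := fun h' => h 2 h'.symm
  unfold ty
  rw [if_neg h0, if_neg h1, if_neg h2]
  exact rowT_castLE _ _

theorem src_row (g : ℕ) (h01 : (0 : ZMod g) ≠ 1) (hg : Function.Injective (ex g)) (J : Fin 9)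
    (ρ : Fin 9 × ZMod g) : (src g hg J ρ).1 = rowT (ty g ρ) J := by
  by_cases h : ∃ t, ex g t = ρ
  · obtain ⟨t, rfl⟩ := h
    rw [src_ex, ex_fst]
    fin_cases t
    · change exrow (pf J 0) = rowT (ty g (ex g 0)) J
      rw [ty_ex0]; rfl
    · change exrow (pf J 1) = rowT (ty g (ex g 1)) J
      rw [ty_ex1 g h01]; rfl
    · change exrow (pf J 2) = rowT (ty g (ex g 2)) J
      rw [ty_ex2]; rfl
  · push Not at h
    rw [src_not g hg J ρ h, rowT_ty_not g ρ h]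

theorem sum_ty (g : ℕ) [NeZero g] (h01 : (0 : ZMod g) ≠ 1) (F : Fin 12 → ℤ) :
    ∑ ρ : Fin 9 × ZMod g, F (ty g ρ) =
      g * ∑ I : Fin 9, F (Fin.castLE (by norm_num) I) +
      ((F 9 - F 6) + (F 10 - F 6) + (F 11 - F 5)) := by
  have h10 : (1 : ZMod g) ≠ 0 := h01.symm
  have key : ∀ ρ : Fin 9 × ZMod g, F (ty g ρ) = F (Fin.castLE (by norm_num) ρ.1)
      + (if ρ = (6, 0) then F 9 - F 6 else 0) + (if ρ = (6, 1) then F 10 - F 6 else 0) + (if ρ = (5, 1) then F 11 - F 5 else 0) := by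
    intro ρ
    have c5 : (Fin.castLE (by norm_num) (5 : Fin 9) : Fin 12) = 5 := rfl
    have c6 : (Fin.castLE (by norm_num) (6 : Fin 9) : Fin 12) = 6 := rfl
    have n0_1 : ((6 : Fin 9), (0 : ZMod g)) ≠ (6, 1) := by simp [h01, h10]
    have n0_2 : ((6 : Fin 9), (0 : ZMod g)) ≠ (5, 1) := by simp [h01, h10]
    have n1_2 : ((6 : Fin 9), (1 : ZMod g)) ≠ (5, 1) := by simp [h01, h10]
    unfold ty
    by_cases q0 : ρ = (6, 0)
    · rw [q0, if_pos rfl, if_pos rfl, if_neg n0_1, if_neg n0_2, c6]; ring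
    rw [if_neg q0, if_neg q0]
    by_cases q1 : ρ = (6, 1)
    · rw [q1, if_pos rfl, if_pos rfl, if_neg n1_2, c6]; ring
    rw [if_neg q1, if_neg q1]
    by_cases q2 : ρ = (5, 1)
    · rw [q2, if_pos rfl, if_pos rfl, c5]; ring
    rw [if_neg q2, if_neg q2]
    ring
  rw [Finset.sum_congr rfl (fun ρ _ => key ρ)]
  simp only [Finset.sum_add_distrib, Finset.sum_ite_eq', Finset.mem_univ, if_true]
  rw [Fintype.sum_prod_type]
  simp only [Finset.sum_const, Finset.card_univ, ZMod.card, nsmul_eq_mul, ← Finset.mul_sum]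
  ring

noncomputable def LL (g : ℕ) (hg : Function.Injective (ex g)) (ρ c : Fin 9 × ZMod g) :
    Fin 9 × ZMod g :=
  (L0 (src g hg c.1 ρ).1 c.1,
    -(src g hg c.1 ρ).2 - c.2 - ((tau (src g hg c.1 ρ).1 c.1 : ℕ) : ZMod g))

theorem LL_latin (g : ℕ) [NeZero g] (h01 : (0 : ZMod g) ≠ 1) (hg : Function.Injective (ex g)) :
    IsLatin (LL g hg) := by
  refine ⟨fun ρ => Finite.injective_iff_bijective.mp ?_,
    fun c => Finite.injective_iff_bijective.mp ?_⟩
  · rintro ⟨J, j⟩ ⟨J', j'⟩ h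
    have e1 := congrArg Prod.fst h
    have e2 := congrArg Prod.snd h
    simp only [LL] at e1 e2
    rw [src_row g h01, src_row g h01] at e1
    have hJ := rowT_inj _ _ _ e1
    subst hJ
    have : j = j' := by
      have e3 := sub_left_injective e2
      simpa using e3
    rw [this]
  · rintro ρ ρ' h
    have e1 := congrArg Prod.fst h
    have e2 := congrArg Prod.snd h
    simp only [LL] at e1 e2
    have hI := L0_col _ _ _ e1
    rw [hI] at e2
    have e3 : (src g hg c.1 ρ).2 = (src g hg c.1 ρ').2 := by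
      have := sub_left_injective (sub_left_injective e2)
      simpa using this
    exact (src g hg c.1).injective (Prod.ext hI e3)

def PP (g : ℕ) [NeZero g] : Finset ((Fin 9 × ZMod g) × (Fin 9 × ZMod g)) :=
  Finset.univ.filter fun p => p.2.1 ∈ patT (ty g p.1)

theorem PP_row (g : ℕ) [NeZero g] (ρ : Fin 9 × ZMod g) :
    ((PP g).filter fun c => c.1 = ρ).card = 4 * g := by
  have : ((PP g).filter fun c => c.1 = ρ) =
      ({ρ} : Finset (Fin 9 × ZMod g)) ×ˢ (patT (ty g ρ) ×ˢ (Finset.univ : Finset (ZMod g))) := by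
    ext p
    simp only [PP, Finset.mem_filter, Finset.mem_univ, true_and, Finset.mem_product,
      Finset.mem_singleton, and_true]
    constructor
    · rintro ⟨h1, h2⟩; subst h2; exact ⟨rfl, h1⟩
    · rintro ⟨h1, h2⟩; subst h1; exact ⟨h2, rfl⟩
  rw [this, Finset.card_product, Finset.card_product, patT_card]
  simp [ZMod.card]

theorem PP_col (g : ℕ) [NeZero g] (h01 : (0 : ZMod g) ≠ 1) (c : Fin 9 × ZMod g) :
    ((PP g).filter fun p => p.2 = c).card = 4 * g := by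
  have h : ((PP g).filter fun p => p.2 = c) =
      (Finset.univ.filter fun ρ : Fin 9 × ZMod g => c.1 ∈ patT (ty g ρ)) ×ˢ
        ({c} : Finset (Fin 9 × ZMod g)) := by
    ext p
    simp only [PP, Finset.mem_filter, Finset.mem_univ, true_and, Finset.mem_product,
      Finset.mem_singleton]
    constructor
    · rintro ⟨h1, h2⟩; subst h2; exact ⟨h1, rfl⟩
    · rintro ⟨h1, h2⟩; subst h2; exact ⟨h1, rfl⟩
  rw [h, Finset.card_product, Finset.card_singleton, mul_one]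
  have h2 := sum_ty g h01 (FJ c.1)
  rw [(FJ_sum c.1).1, (FJ_sum c.1).2] at h2
  have h3 : ((Finset.univ.filter fun ρ : Fin 9 × ZMod g => c.1 ∈ patT (ty g ρ)).card : ℤ) =
      ∑ ρ : Fin 9 × ZMod g, FJ c.1 (ty g ρ) := by
    simp [FJ]
  have h4 : ((Finset.univ.filter fun ρ : Fin 9 × ZMod g => c.1 ∈ patT (ty g ρ)).card : ℤ) =
      4 * g := by rw [h3, h2]; ring
  exact_mod_cast h4

theorem PP_sym (g : ℕ) [NeZero g] (h01 : (0 : ZMod g) ≠ 1) (hg : Function.Injective (ex g))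
    (s : Fin 9 × ZMod g) :
    ((PP g).filter fun p => LL g hg p.1 p.2 = s).card = 4 * g := by
  have h1 : ((PP g).filter fun p => LL g hg p.1 p.2 = s).card =
      (Finset.univ.filter fun q : (Fin 9 × ZMod g) × Fin 9 =>
        q.2 ∈ patT (ty g q.1) ∧ L0 (rowT (ty g q.1) q.2) q.2 = s.1).card := by
    refine Finset.card_nbij' (fun p => (p.1, p.2.1))
      (fun q => (q.1, (q.2, -(src g hg q.2 q.1).2 -
        ((tau (src g hg q.2 q.1).1 q.2 : ℕ) : ZMod g) - s.2))) ?_ ?_ ?_ ?_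
    · intro p hp
      simp only [PP, Finset.coe_filter, Finset.mem_filter, Finset.mem_univ, true_and,
        Set.mem_ofPred_eq] at hp ⊢
      refine ⟨hp.1, ?_⟩
      rw [← hp.2, ← src_row g h01 hg]
      rfl
    · intro q hq
      simp only [PP, Finset.coe_filter, Finset.mem_filter, Finset.mem_univ, true_and,
        Set.mem_ofPred_eq] at hq ⊢
      refine ⟨hq.1, ?_⟩
      rw [← src_row g h01 hg] at hq
      refine Prod.ext hq.2 ?_
      simp only [LL]
      ring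
    · rintro ⟨ρ, J, j⟩ hp
      simp only [PP, Finset.coe_filter, Finset.mem_filter, Finset.mem_univ, true_and,
        Set.mem_ofPred_eq] at hp ⊢
      have e2 := congrArg Prod.snd hp.2
      simp only [LL] at e2
      rw [← e2]
      refine Prod.ext rfl (Prod.ext rfl ?_)
      simp only
      ring
    · rintro ⟨ρ, J⟩ hq
      rfl
  rw [h1]
  have h2 := sum_ty g h01 (FS s.1)
  rw [(FS_sum s.1).1, (FS_sum s.1).2] at h2
  have h3 : ((Finset.univ.filter fun q : (Fin 9 × ZMod g) × Fin 9 =>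
        q.2 ∈ patT (ty g q.1) ∧ L0 (rowT (ty g q.1) q.2) q.2 = s.1).card : ℤ) =
      ∑ ρ : Fin 9 × ZMod g, FS s.1 (ty g ρ) := by
    rw [Finset.card_filter, Fintype.sum_prod_type]
    push_cast
    refine Finset.sum_congr rfl fun ρ _ => ?_
    rw [FS, Finset.card_filter]
    push_cast
    rfl
  have h4 : ((Finset.univ.filter fun q : (Fin 9 × ZMod g) × Fin 9 =>
        q.2 ∈ patT (ty g q.1) ∧ L0 (rowT (ty g q.1) q.2) q.2 = s.1).card : ℤ) =
      4 * g := by rw [h3, h2]; ring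
  exact_mod_cast h4

/-- row labels -/
noncomputable def lamR (g : ℕ) [NeZero g] (ρ : Fin 9 × ZMod g) : ZMod (4 * g) :=
  (rl ρ.1 : ZMod (4 * g)) + phi 4 g ρ.2 + (if ρ = (6, 0) then phi 4 g 1 else 0)

noncomputable def lamC (g : ℕ) [NeZero g] (c : Fin 9 × ZMod g) : ZMod (4 * g) :=
  (rl c.1 : ZMod (4 * g)) + phi 4 g c.2

noncomputable def lamS (g : ℕ) [NeZero g] (s : Fin 9 × ZMod g) : ZMod (4 * g) :=
  (sl s.1 : ZMod (4 * g)) + phi 4 g s.2

theorem lam_src (g : ℕ) [NeZero g] (h01 : (0 : ZMod g) ≠ 1) (hg : Function.Injective (ex g))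
    (ρ : Fin 9 × ZMod g) (J : Fin 9) (hJ : J ∈ patT (ty g ρ)) :
    lamR g ρ = (rl (src g hg J ρ).1 : ZMod (4 * g)) + phi 4 g (src g hg J ρ).2 := by
  have hu : ∀ u : Fin 3, u ≠ 0 → rl (ex g u).1 = 2 ∧ (ex g u).2 = 1 := by
    intro u hu
    fin_cases u
    · exact absurd rfl hu
    · exact ⟨rfl, rfl⟩
    · exact ⟨rfl, rfl⟩
  by_cases h : ∃ t, ex g t = ρ
  · obtain ⟨t, rfl⟩ := h
    rw [src_ex]
    have hne : pf J t ≠ 0 := by
      fin_cases t
      · exact pf_ne0 J (by rw [← ty_ex0 g]; exact hJ)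
      · exact pf_ne1 J (by rw [← ty_ex1 g h01]; exact hJ)
      · exact pf_ne2 J (by rw [← ty_ex2 g]; exact hJ)
    rw [(hu _ hne).1, (hu _ hne).2]
    fin_cases t
    · simp [lamR, ex, rl]
    · have : ((6 : Fin 9), (1 : ZMod g)) ≠ (6, 0) := by simp [h01.symm]
      change (rl 6 : ZMod (4 * g)) + phi 4 g 1 +
        (if ((6 : Fin 9), (1 : ZMod g)) = (6, 0) then phi 4 g 1 else 0) = _
      rw [if_neg this, add_zero]
      rfl
    · have : ((5 : Fin 9), (1 : ZMod g)) ≠ (6, 0) := by simp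
      change (rl 5 : ZMod (4 * g)) + phi 4 g 1 +
        (if ((5 : Fin 9), (1 : ZMod g)) = (6, 0) then phi 4 g 1 else 0) = _
      rw [if_neg this, add_zero]
      rfl
  · push Not at h
    rw [src_not g hg J ρ h, lamR, if_neg (fun h' => h 0 h'.symm), add_zero]

theorem PP_zero (g : ℕ) [NeZero g] (h01 : (0 : ZMod g) ≠ 1) (hg : Function.Injective (ex g))
    (p : (Fin 9 × ZMod g) × (Fin 9 × ZMod g)) (hp : p ∈ PP g) :
    lamR g p.1 + lamC g p.2 + lamS g (LL g hg p.1 p.2) = 0 := by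
  obtain ⟨ρ, J, j⟩ := p
  simp only [PP, Finset.mem_filter, Finset.mem_univ, true_and] at hp
  have hz := zero_coarse _ _ hp
  rw [← src_row g h01 hg] at hz
  simp only
  rw [lam_src g h01 hg ρ J hp]
  simp only [lamC, lamS, LL, map_sub, map_neg, phi_natCast]
  have hz' := congrArg (fun n : ℕ => (n : ZMod (4 * g))) hz
  simp only [Nat.cast_add, Nat.cast_mul, Nat.cast_ofNat] at hz'
  linear_combination hz'


theorem W_eq (g : ℕ) [NeZero g] (hodd : Odd g) :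
    ∑ ρ, lamR g ρ + ∑ c, lamC g c + ∑ s, lamS g s = ((37 * g + 4 : ℕ) : ZMod (4 * g)) := by
  have hphi : phi 4 g 1 = ((4 : ℕ) : ZMod (4 * g)) := by
    have := phi_natCast 4 g 1
    simpa using this
  have hC : ∑ c, lamC g c = ((12 * g : ℕ) : ZMod (4 * g)) := by
    simp only [lamC]
    rw [Fintype.sum_prod_type]
    simp only [Finset.sum_add_distrib, phi_sum 4 g hodd, Finset.sum_const, Finset.card_univ,
      ZMod.card, nsmul_eq_mul, add_zero]
    rw [← Finset.mul_sum, ← Nat.cast_sum, ← Nat.cast_mul]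
    congr 1
    have : ∑ i : Fin 9, rl i = 12 := by decide
    rw [this]; ring
  have hS : ∑ s, lamS g s = ((13 * g : ℕ) : ZMod (4 * g)) := by
    simp only [lamS]
    rw [Fintype.sum_prod_type]
    simp only [Finset.sum_add_distrib, phi_sum 4 g hodd, Finset.sum_const, Finset.card_univ,
      ZMod.card, nsmul_eq_mul, add_zero]
    rw [← Finset.mul_sum, ← Nat.cast_sum, ← Nat.cast_mul]
    congr 1
    have : ∑ i : Fin 9, sl i = 13 := by decide
    rw [this]; ring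
  have hR : ∑ ρ, lamR g ρ = ((12 * g : ℕ) : ZMod (4 * g)) + ((4 : ℕ) : ZMod (4 * g)) := by
    have : ∀ ρ, lamR g ρ = lamC g ρ + (if ρ = (6, 0) then phi 4 g 1 else 0) := fun ρ => rfl
    simp only [this]
    rw [Finset.sum_add_distrib, hC, Finset.sum_ite_eq', if_pos (Finset.mem_univ _), hphi]
  rw [hR, hC, hS]
  push_cast
  ring

theorem exists_indivisible (g : ℕ) (hodd : Odd g) (h1 : 1 < g) (h5 : Nat.Coprime g 4) :
    HasIndivisiblePlex (9 * g) (4 * g) := by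
  have : NeZero g := ⟨by omega⟩
  have : Fact (1 < g) := ⟨h1⟩
  have h01 : (0 : ZMod g) ≠ 1 := zero_ne_one
  have hg := ex_inj g h01
  have hcard : Fintype.card (Fin 9 × ZMod g) = 9 * g := by
    simp [ZMod.card]
  have e : (Fin 9 × ZMod g) ≃ Fin (9 * g) := Fintype.equivFinOfCardEq hcard
  refine transport (9 * g) e e e (LL g hg) (LL_latin g h01 hg) (4 * g) (PP g)
    ⟨PP_row g, PP_col g h01, PP_sym g h01 hg⟩ (lamR g) (lamC g) (lamS g)
    (fun p hp => PP_zero g h01 hg p hp) ?_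
  rw [W_eq g hodd]
  refine (ZMod.isUnit_iff_coprime _ _).mpr ?_
  refine Nat.Coprime.mul_right ?_ ?_
  · have : Nat.Coprime (37 * g) 4 := Nat.Coprime.mul_left (by norm_num) h5
    first
      | exact Nat.coprime_add_self_left.mpr this
      | simpa using this
  · have : Nat.Coprime 4 g := h5.symm
    simpa using this

end F9_4

/-- New pairs `(k, n)` for which a Latin square of order `n` with an indivisible `k`-plex exists. -/
theorem result : ∀ g : ℕ, Odd g → 3 ≤ g →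
    (Nat.Coprime g 5 → HasIndivisiblePlex (9 * g) (5 * g)) ∧
    HasIndivisiblePlex (9 * g) (4 * g) ∧
    HasIndivisiblePlex (7 * g) (2 * g) ∧ HasIndivisiblePlex (9 * g) (2 * g) ∧
    (Nat.Coprime g 3 → HasIndivisiblePlex (8 * g) (3 * g) ∧ HasIndivisiblePlex (10 * g) (3 * g) ∧
      HasIndivisiblePlex (11 * g) (3 * g) ∧ HasIndivisiblePlex (13 * g) (3 * g) ∧
      HasIndivisiblePlex (14 * g) (3 * g)) := by
  intro g hodd h3
  have h1 : 1 < g := by omega
  have c2 : Nat.Coprime g 2 := (Nat.coprime_two_right).mpr hodd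
  have c4 : Nat.Coprime g 4 := by
    have := Nat.Coprime.pow_right 2 c2
    simpa using this
  exact ⟨fun h => F9_5.exists_indivisible g hodd h1 h, F9_4.exists_indivisible g hodd h1 c4,
    F7_2.exists_indivisible g hodd h1 c2, F9_2.exists_indivisible g hodd h1 c2,
    fun h => ⟨F8_3.exists_indivisible g hodd h1 h, F10_3.exists_indivisible g hodd h1 h,
      F11_3.exists_indivisible g hodd h1 h, F13_3.exists_indivisible g hodd h1 h,
      F14_3.exists_indivisible g hodd h1 h⟩⟩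

end Pool.Agent.Results.MP_3d3eb4_co.NewPairs
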